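import Mathlib

/-!
Positive definite kernels on the unit sphere of three-space (zonal harmonics of degree at most
five) and the linear programming certificate for eleven unit vectors with pairwise inner products
at most `1/2`.
-/

namespace MPdef58e

open Finset

noncomputable section

/-- A kernel which is a nonnegative combination of products gives a nonnegative form;
here the form with coefficient `1` at the points `x i` and `-s` at `u`. -/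
theorem kernel_form {X ι M : Type*} [Fintype ι] [Fintype M] (w : M → ℝ) (hw : ∀ m, 0 ≤ w m)
    (Y : M → X → ℝ) (K : X → X → ℝ) (x : ι → X) (u : X)
    (h1 : ∀ i j, K (x i) (x j) = ∑ m, w m * (Y m (x i) * Y m (x j)))
    (h2 : ∀ i, K (x i) u = ∑ m, w m * (Y m (x i) * Y m u))
    (h3 : K u u = ∑ m, w m * (Y m u * Y m u)) (s : ℝ) :
    2 * s * ∑ i, K (x i) u - s ^ 2 * K u u ≤ ∑ i, ∑ j, K (x i) (x j) := by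
  have e1 : ∑ i, ∑ j, K (x i) (x j) = ∑ m, w m * (∑ i, Y m (x i)) ^ 2 := by
    simp only [h1]
    calc ∑ i, ∑ j, ∑ m, w m * (Y m (x i) * Y m (x j))
        = ∑ i, ∑ m, ∑ j, w m * (Y m (x i) * Y m (x j)) := by
          refine sum_congr rfl fun i _ => ?_
          rw [sum_comm]
      _ = ∑ m, ∑ i, ∑ j, w m * (Y m (x i) * Y m (x j)) := by rw [sum_comm]
      _ = _ := by
          refine sum_congr rfl fun m _ => ?_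
          rw [sq, sum_mul_sum, mul_sum]
          refine sum_congr rfl fun i _ => ?_
          rw [mul_sum]
  have e2 : ∑ i, K (x i) u = ∑ m, w m * ((∑ i, Y m (x i)) * Y m u) := by
    simp only [h2]
    rw [sum_comm]
    refine sum_congr rfl fun m _ => ?_
    rw [sum_mul, mul_sum]
  rw [e1, e2, h3, mul_sum, mul_sum, ← sum_sub_distrib]
  refine sum_le_sum fun m _ => ?_
  nlinarith [mul_nonneg (hw m) (sq_nonneg (∑ i, Y m (x i) - s * Y m u))]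

/-- coordinates of a unit vector -/
def IsUnit3 (x : Fin 3 → ℝ) : Prop := x 0 ^ 2 + x 1 ^ 2 + x 2 ^ 2 = 1

/-- inner product in coordinates -/
def ip (x y : Fin 3 → ℝ) : ℝ := x 0 * y 0 + x 1 * y 1 + x 2 * y 2

/-- The Legendre polynomials of degree `1` to `5`. -/
def L1 (t : ℝ) : ℝ := t
def L2 (t : ℝ) : ℝ := (3 * t ^ 2 - 1) / 2
def L3 (t : ℝ) : ℝ := (5 * t ^ 3 - 3 * t) / 2
def L4 (t : ℝ) : ℝ := (35 * t ^ 4 - 30 * t ^ 2 + 3) / 8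
def L5 (t : ℝ) : ℝ := (63 * t ^ 5 - 70 * t ^ 3 + 15 * t) / 8

theorem add1 (x y : Fin 3 → ℝ) :
    L1 (ip x y) = ∑ m : Fin 3, (![1, 1, 1] : Fin 3 → ℝ) m *
      ((![x 0, x 1, x 2] : Fin 3 → ℝ) m * (![y 0, y 1, y 2] : Fin 3 → ℝ) m) := by
  simp [Fin.sum_univ_succ, L1, ip]
  ring

/-- harmonic polynomials of degree two -/
def Y2 (m : Fin 5) (x : Fin 3 → ℝ) : ℝ :=
  (![(2 * x 2 ^ 2 - x 0 ^ 2 - x 1 ^ 2) / 2, x 0 * x 2, x 1 * x 2, x 0 * x 1,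
    x 0 ^ 2 - x 1 ^ 2] : Fin 5 → ℝ) m

theorem add2 (x y : Fin 3 → ℝ) (hx : IsUnit3 x) (hy : IsUnit3 y) :
    L2 (ip x y) = ∑ m : Fin 5, (![1, 3, 3, 3, 3 / 4] : Fin 5 → ℝ) m * (Y2 m x * Y2 m y) := by
  have key : (3 * (ip x y) ^ 2 - (x 0 ^ 2 + x 1 ^ 2 + x 2 ^ 2) * (y 0 ^ 2 + y 1 ^ 2 + y 2 ^ 2)) / 2
      = ∑ m : Fin 5, (![1, 3, 3, 3, 3 / 4] : Fin 5 → ℝ) m * (Y2 m x * Y2 m y) := by
    simp [Fin.sum_univ_succ, ip, Y2]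
    ring
  rw [← key, hx, hy]
  simp [L2]

/-- harmonic polynomials of degree three -/
def Y3 (m : Fin 7) (x : Fin 3 → ℝ) : ℝ :=
  (![(2 * x 2 ^ 3 - 3 * x 2 * (x 0 ^ 2 + x 1 ^ 2)) / 2,
    (4 * x 2 ^ 2 - x 0 ^ 2 - x 1 ^ 2) * x 0, (4 * x 2 ^ 2 - x 0 ^ 2 - x 1 ^ 2) * x 1,
    x 2 * (x 0 ^ 2 - x 1 ^ 2), x 2 * (2 * x 0 * x 1),
    x 0 ^ 3 - 3 * x 0 * x 1 ^ 2, 3 * x 0 ^ 2 * x 1 - x 1 ^ 3] : Fin 7 → ℝ) m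

theorem add3 (x y : Fin 3 → ℝ) (hx : IsUnit3 x) (hy : IsUnit3 y) :
    L3 (ip x y) = ∑ m : Fin 7, (![1, 3 / 8, 3 / 8, 15 / 4, 15 / 4, 5 / 8, 5 / 8] : Fin 7 → ℝ) m *
      (Y3 m x * Y3 m y) := by
  have key : (5 * (ip x y) ^ 3 - 3 * ip x y *
      ((x 0 ^ 2 + x 1 ^ 2 + x 2 ^ 2) * (y 0 ^ 2 + y 1 ^ 2 + y 2 ^ 2))) / 2
      = ∑ m : Fin 7, (![1, 3 / 8, 3 / 8, 15 / 4, 15 / 4, 5 / 8, 5 / 8] : Fin 7 → ℝ) m *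
      (Y3 m x * Y3 m y) := by
    simp [Fin.sum_univ_succ, ip, Y3]
    ring
  rw [← key, hx, hy]
  simp [L3]

/-- harmonic polynomials of degree four -/
def Y4 (m : Fin 9) (x : Fin 3 → ℝ) : ℝ :=
  (![(35 * x 2 ^ 4 - 30 * x 2 ^ 2 * (x 0 ^ 2 + x 1 ^ 2 + x 2 ^ 2)
      + 3 * (x 0 ^ 2 + x 1 ^ 2 + x 2 ^ 2) ^ 2) / 8,
    (7 * x 2 ^ 3 - 3 * x 2 * (x 0 ^ 2 + x 1 ^ 2 + x 2 ^ 2)) * x 0,
    (7 * x 2 ^ 3 - 3 * x 2 * (x 0 ^ 2 + x 1 ^ 2 + x 2 ^ 2)) * x 1,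
    (7 * x 2 ^ 2 - (x 0 ^ 2 + x 1 ^ 2 + x 2 ^ 2)) * (x 0 ^ 2 - x 1 ^ 2),
    (7 * x 2 ^ 2 - (x 0 ^ 2 + x 1 ^ 2 + x 2 ^ 2)) * (2 * x 0 * x 1),
    x 2 * (x 0 ^ 3 - 3 * x 0 * x 1 ^ 2), x 2 * (3 * x 0 ^ 2 * x 1 - x 1 ^ 3),
    x 0 ^ 4 - 6 * x 0 ^ 2 * x 1 ^ 2 + x 1 ^ 4,
    4 * (x 0 ^ 3 * x 1 - x 0 * x 1 ^ 3)] : Fin 9 → ℝ) m

theorem add4 (x y : Fin 3 → ℝ) (hx : IsUnit3 x) (hy : IsUnit3 y) :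
    L4 (ip x y) = ∑ m : Fin 9, (![1, 5 / 8, 5 / 8, 5 / 16, 5 / 16, 35 / 8, 35 / 8, 35 / 64,
      35 / 64] : Fin 9 → ℝ) m * (Y4 m x * Y4 m y) := by
  have key : (35 * (ip x y) ^ 4 - 30 * (ip x y) ^ 2 *
      ((x 0 ^ 2 + x 1 ^ 2 + x 2 ^ 2) * (y 0 ^ 2 + y 1 ^ 2 + y 2 ^ 2))
      + 3 * ((x 0 ^ 2 + x 1 ^ 2 + x 2 ^ 2) * (y 0 ^ 2 + y 1 ^ 2 + y 2 ^ 2)) ^ 2) / 8
      = ∑ m : Fin 9, (![1, 5 / 8, 5 / 8, 5 / 16, 5 / 16, 35 / 8, 35 / 8, 35 / 64,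
      35 / 64] : Fin 9 → ℝ) m * (Y4 m x * Y4 m y) := by
    simp [Fin.sum_univ_succ, ip, Y4]
    ring
  rw [← key, hx, hy]
  simp [L4]

/-- harmonic polynomials of degree five -/
def Y5 (m : Fin 11) (x : Fin 3 → ℝ) : ℝ :=
  (![(63 * x 2 ^ 5 - 70 * x 2 ^ 3 * (x 0 ^ 2 + x 1 ^ 2 + x 2 ^ 2)
      + 15 * x 2 * (x 0 ^ 2 + x 1 ^ 2 + x 2 ^ 2) ^ 2) / 8,
    (21 * x 2 ^ 4 - 14 * x 2 ^ 2 * (x 0 ^ 2 + x 1 ^ 2 + x 2 ^ 2)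
      + (x 0 ^ 2 + x 1 ^ 2 + x 2 ^ 2) ^ 2) * x 0,
    (21 * x 2 ^ 4 - 14 * x 2 ^ 2 * (x 0 ^ 2 + x 1 ^ 2 + x 2 ^ 2)
      + (x 0 ^ 2 + x 1 ^ 2 + x 2 ^ 2) ^ 2) * x 1,
    (3 * x 2 ^ 3 - x 2 * (x 0 ^ 2 + x 1 ^ 2 + x 2 ^ 2)) * (x 0 ^ 2 - x 1 ^ 2),
    (3 * x 2 ^ 3 - x 2 * (x 0 ^ 2 + x 1 ^ 2 + x 2 ^ 2)) * (2 * x 0 * x 1),
    (9 * x 2 ^ 2 - (x 0 ^ 2 + x 1 ^ 2 + x 2 ^ 2)) * (x 0 ^ 3 - 3 * x 0 * x 1 ^ 2),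
    (9 * x 2 ^ 2 - (x 0 ^ 2 + x 1 ^ 2 + x 2 ^ 2)) * (3 * x 0 ^ 2 * x 1 - x 1 ^ 3),
    x 2 * (x 0 ^ 4 - 6 * x 0 ^ 2 * x 1 ^ 2 + x 1 ^ 4),
    x 2 * (4 * (x 0 ^ 3 * x 1 - x 0 * x 1 ^ 3)),
    x 0 ^ 5 - 10 * x 0 ^ 3 * x 1 ^ 2 + 5 * x 0 * x 1 ^ 4,
    5 * x 0 ^ 4 * x 1 - 10 * x 0 ^ 2 * x 1 ^ 3 + x 1 ^ 5] : Fin 11 → ℝ) m

theorem add5 (x y : Fin 3 → ℝ) (hx : IsUnit3 x) (hy : IsUnit3 y) :
    L5 (ip x y) = ∑ m : Fin 11, (![1, 15 / 64, 15 / 64, 105 / 16, 105 / 16, 35 / 128, 35 / 128,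
      315 / 64, 315 / 64, 63 / 128, 63 / 128] : Fin 11 → ℝ) m * (Y5 m x * Y5 m y) := by
  have key : (63 * (ip x y) ^ 5 - 70 * (ip x y) ^ 3 *
      ((x 0 ^ 2 + x 1 ^ 2 + x 2 ^ 2) * (y 0 ^ 2 + y 1 ^ 2 + y 2 ^ 2))
      + 15 * ip x y * ((x 0 ^ 2 + x 1 ^ 2 + x 2 ^ 2) * (y 0 ^ 2 + y 1 ^ 2 + y 2 ^ 2)) ^ 2) / 8
      = ∑ m : Fin 11, (![1, 15 / 64, 15 / 64, 105 / 16, 105 / 16, 35 / 128, 35 / 128,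
      315 / 64, 315 / 64, 63 / 128, 63 / 128] : Fin 11 → ℝ) m * (Y5 m x * Y5 m y) := by
    simp [Fin.sum_univ_succ, ip, Y5]
    ring
  rw [← key, hx, hy]
  simp [L5]

end

end MPdef58e
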