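import Mathlib
import Pool.Agent.Work.MP_def58e_co.Kernel

/-!
The linear programming certificate: eleven unit vectors with pairwise inner products at most
`1/2` cannot all have inner product less than `7/30` with a given unit vector.
-/

namespace MPdef58e

open Finset

noncomputable section

theorem ip_self {x : Fin 3 → ℝ} (hx : IsUnit3 x) : ip x x = 1 := by
  unfold ip
  unfold IsUnit3 at hx
  linarith

theorem ip_le_one {x y : Fin 3 → ℝ} (hx : IsUnit3 x) (hy : IsUnit3 y) : ip x y ≤ 1 := by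
  unfold ip
  unfold IsUnit3 at hx hy
  nlinarith [sq_nonneg (x 0 - y 0), sq_nonneg (x 1 - y 1), sq_nonneg (x 2 - y 2)]

/-- auxiliary polynomial, nonpositive up to `1/2` -/
def fpol (t : ℝ) : ℝ := (2 * t - 1) * (20 * t + 7) ^ 2 * (10 * t + 9) ^ 2

theorem fpol_expand (t : ℝ) : fpol t = 59393 / 3 + (391746 / 7 * L1 t + 1574200 / 21 * L2 t +
    591440 / 9 * L3 t + 256000 / 7 * L4 t + 640000 / 63 * L5 t) := by
  unfold fpol L1 L2 L3 L4 L5
  ring

theorem fpol_nonpos {t : ℝ} (h : t ≤ 1 / 2) : fpol t ≤ 0 := by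
  unfold fpol
  have h1 : 0 ≤ (20 * t + 7) ^ 2 * (10 * t + 9) ^ 2 := by positivity
  nlinarith

/-- auxiliary polynomial, nonnegative on `[-7/30, 1]` -/
def hpol (z : ℝ) : ℝ := (30 * z + 7) * (1 - z) * (7 * z - 4) ^ 2 * (5 + 3 * z)

theorem hpol_expand (z : ℝ) : hpol z = -(8124 / 5) + (4182 * L1 z - 4186 * L2 z + 1944 * L3 z
    + 1224 / 5 * L4 z - 560 * L5 z) := by
  unfold hpol L1 L2 L3 L4 L5
  ring

theorem hpol_nonneg {z : ℝ} (h : -(7 / 30) ≤ z) (h' : z ≤ 1) : 0 ≤ hpol z := by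
  unfold hpol
  have h1 : 0 ≤ 30 * z + 7 := by linarith
  have h2 : 0 ≤ 1 - z := by linarith
  have h3 : 0 ≤ 5 + 3 * z := by linarith
  positivity

theorem certificate (x : Fin 11 → Fin 3 → ℝ) (u : Fin 3 → ℝ) (hx : ∀ i, IsUnit3 (x i))
    (hu : IsUnit3 u) (hsep : ∀ i j, i ≠ j → ip (x i) (x j) ≤ 1 / 2)
    (hz : ∀ i, -(7 / 30) ≤ ip (x i) u) : False := by
  -- positivity of the five kernels
  have k1 := kernel_form (![1, 1, 1] : Fin 3 → ℝ) (by intro m; fin_cases m <;> simp)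
    (fun m y => (![y 0, y 1, y 2] : Fin 3 → ℝ) m) (fun a b => L1 (ip a b)) x u
    (fun i j => add1 _ _) (fun i => add1 _ _) (add1 _ _) (27 * 4182 / (391746 / 7))
  have k2 := kernel_form (![1, 3, 3, 3, 3 / 4] : Fin 5 → ℝ)
    (by intro m; fin_cases m <;> norm_num)
    Y2 (fun a b => L2 (ip a b)) x u
    (fun i j => add2 _ _ (hx i) (hx j)) (fun i => add2 _ _ (hx i) hu) (add2 _ _ hu hu)
    (27 * (-4186) / (1574200 / 21))
  have k3 := kernel_form (![1, 3 / 8, 3 / 8, 15 / 4, 15 / 4, 5 / 8, 5 / 8] : Fin 7 → ℝ)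
    (by intro m; fin_cases m <;> norm_num [Fin.reduceFinMk])
    Y3 (fun a b => L3 (ip a b)) x u
    (fun i j => add3 _ _ (hx i) (hx j)) (fun i => add3 _ _ (hx i) hu) (add3 _ _ hu hu)
    (27 * 1944 / (591440 / 9))
  have k4 := kernel_form (![1, 5 / 8, 5 / 8, 5 / 16, 5 / 16, 35 / 8, 35 / 8, 35 / 64,
      35 / 64] : Fin 9 → ℝ)
    (by intro m; fin_cases m <;> norm_num [Fin.reduceFinMk])
    Y4 (fun a b => L4 (ip a b)) x u
    (fun i j => add4 _ _ (hx i) (hx j)) (fun i => add4 _ _ (hx i) hu) (add4 _ _ hu hu)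
    (27 * (1224 / 5) / (256000 / 7))
  have k5 := kernel_form (![1, 15 / 64, 15 / 64, 105 / 16, 105 / 16, 35 / 128, 35 / 128,
      315 / 64, 315 / 64, 63 / 128, 63 / 128] : Fin 11 → ℝ)
    (by intro m; fin_cases m <;> norm_num [Fin.reduceFinMk])
    Y5 (fun a b => L5 (ip a b)) x u
    (fun i j => add5 _ _ (hx i) (hx j)) (fun i => add5 _ _ (hx i) hu) (add5 _ _ hu hu)
    (27 * (-560) / (640000 / 63))
  simp only [ip_self hu] at k1 k2 k3 k4 k5
  -- the sum of `fpol` over all pairs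
  have hF : ∑ i, ∑ j, fpol (ip (x i) (x j)) ≤ 11 * fpol 1 := by
    have : ∀ i, ∑ j, fpol (ip (x i) (x j)) ≤ fpol 1 := by
      intro i
      rw [← Finset.add_sum_erase _ _ (mem_univ i), ip_self (hx i)]
      have : ∑ j ∈ univ.erase i, fpol (ip (x i) (x j)) ≤ 0 :=
        Finset.sum_nonpos fun j hj => fpol_nonpos (hsep i j (ne_of_mem_erase hj).symm)
      linarith
    calc ∑ i, ∑ j, fpol (ip (x i) (x j)) ≤ ∑ _i : Fin 11, fpol 1 := sum_le_sum fun i _ => this i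
      _ = 11 * fpol 1 := by simp
  have hF2 : ∑ i, ∑ j, fpol (ip (x i) (x j)) = 121 * (59393 / 3)
      + (391746 / 7 * ∑ i, ∑ j, L1 (ip (x i) (x j)) + 1574200 / 21 * ∑ i, ∑ j, L2 (ip (x i) (x j))
      + 591440 / 9 * ∑ i, ∑ j, L3 (ip (x i) (x j)) + 256000 / 7 * ∑ i, ∑ j, L4 (ip (x i) (x j))
      + 640000 / 63 * ∑ i, ∑ j, L5 (ip (x i) (x j))) := by
    simp only [fpol_expand, sum_add_distrib, ← mul_sum, sum_const, card_univ, Fintype.card_fin,
      nsmul_eq_mul]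
    norm_num
  have hH : 0 ≤ ∑ i, hpol (ip (x i) u) :=
    sum_nonneg fun i _ => hpol_nonneg (hz i) (ip_le_one (hx i) hu)
  have hH2 : ∑ i, hpol (ip (x i) u) = 11 * (-(8124 / 5)) + (4182 * ∑ i, L1 (ip (x i) u)
      - 4186 * ∑ i, L2 (ip (x i) u) + 1944 * ∑ i, L3 (ip (x i) u)
      + 1224 / 5 * ∑ i, L4 (ip (x i) u) - 560 * ∑ i, L5 (ip (x i) u)) := by
    simp only [hpol_expand, sum_add_distrib, sum_sub_distrib, ← mul_sum, sum_const, card_univ,
      Fintype.card_fin, nsmul_eq_mul]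
    norm_num
  have v1 : L1 1 = 1 := by norm_num [L1]
  have v2 : L2 1 = 1 := by norm_num [L2]
  have v3 : L3 1 = 1 := by norm_num [L3]
  have v4 : L4 1 = 1 := by norm_num [L4]
  have v5 : L5 1 = 1 := by norm_num [L5]
  have vf : fpol 1 = 263169 := by norm_num [fpol]
  rw [v1] at k1
  rw [v2] at k2
  rw [v3] at k3
  rw [v4] at k4
  rw [v5] at k5
  rw [vf, hF2] at hF
  rw [hH2] at hH
  linarith

theorem exists_ip_ge (x : Fin 11 → Fin 3 → ℝ) (u : Fin 3 → ℝ) (hx : ∀ i, IsUnit3 (x i))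
    (hu : IsUnit3 u) (hsep : ∀ i j, i ≠ j → ip (x i) (x j) ≤ 1 / 2) :
    ∃ i, 7 / 30 ≤ ip (x i) u := by
  by_contra hcon
  push Not at hcon
  refine certificate x (fun k => -u k) hx ?_ hsep ?_
  · unfold IsUnit3 at hu ⊢
    simpa using hu
  · intro i
    have := hcon i
    unfold ip at this ⊢
    linarith

end

end MPdef58e
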