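import Mathlib

/-!
Packings of closed unit balls in three-space, neighbours, lower density.
A packing is given by the set `C` of the centres of its balls.
-/

namespace MPdef58e

open MeasureTheory Filter Topology Metric

noncomputable section

/-- Euclidean three-space. -/
abbrev E3 := EuclideanSpace ℝ (Fin 3)

/-- `C` is the set of centres of a packing of closed unit balls: different centres are at
distance at least `2`. -/
def IsPacking (C : Set E3) : Prop := ∀ x ∈ C, ∀ y ∈ C, x ≠ y → 2 ≤ dist x y

/-- The centres of the balls of the packing that touch the ball with centre `x`. -/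
def neighbours (C : Set E3) (x : E3) : Set E3 := {y | y ∈ C ∧ dist x y = 2}

/-- A nonempty packing in which each ball has at least `k` neighbours. -/
def IsNeighbourPacking (k : ℕ) (C : Set E3) : Prop :=
  C.Nonempty ∧ IsPacking C ∧ ∀ x ∈ C, (k : ℕ∞) ≤ (neighbours C x).encard

/-- The union of the closed unit balls with centres in `C`. -/
def body (C : Set E3) : Set E3 := ⋃ c ∈ C, closedBall c 1

/-- The lower density of the packing with set of centres `C`. -/
def lowerDensity (C : Set E3) : ℝ :=
  liminf (fun R : ℝ => volume.real (closedBall (0 : E3) R ∩ body C) /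
    volume.real (closedBall (0 : E3) R)) atTop

/-- The infimum of the lower densities of the `k`-neighbour packings. -/
def minDensity (k : ℕ) : ℝ :=
  sInf {d : ℝ | ∃ C : Set E3, IsNeighbourPacking k C ∧ d = lowerDensity C}

/-- A stacking sequence of hexagonal layers: the shift between consecutive layers is one of the
two possible ones. -/
def IsStacking (τ : ℤ → ℤ) : Prop := ∀ n, τ (n + 1) = τ n + 1 ∨ τ (n + 1) = τ n - 1

/-- The centre with index `(v 0, v 1)` in the layer number `v 2` of the Barlow packing with
stacking sequence `τ`. The layers are triangular lattices with minimal distance `2`, spanned by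
`(2, 0)` and `(1, √3)`, at heights `√(8/3) * n`, and layer number `n` is shifted by `τ n` times
the vector `(1, 1/√3)` from a lattice point to the centre of a triangle. -/
def bpt (τ : ℤ → ℤ) (v : Fin 3 → ℤ) : E3 :=
  WithLp.toLp 2 ![2 * (v 0 : ℝ) + v 1 + τ (v 2), (3 * (v 1 : ℝ) + τ (v 2)) / Real.sqrt 3,
    Real.sqrt (8 / 3) * (v 2 : ℝ)]

/-- The set of centres of the Barlow packing with stacking sequence `τ`. -/
def barlow (τ : ℤ → ℤ) : Set E3 := Set.range (bpt τ)

/-! ### Volume lemmas -/

/-- volume of the unit ball -/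
def V1 : ℝ := volume.real (ball (0 : E3) 1)

theorem V1_eq : V1 = 4 / 3 * Real.pi := by
  unfold V1 Measure.real
  rw [EuclideanSpace.volume_ball_fin_three]
  simp only [one_pow, ENNReal.ofReal_one, one_mul, ENNReal.ofReal_one]
  rw [ENNReal.toReal_ofReal (by positivity)]
  ring

theorem V1_pos : 0 < V1 := by
  rw [V1_eq]
  positivity

theorem vol_ball (x : E3) {r : ℝ} (hr : 0 ≤ r) : volume.real (ball x r) = r ^ 3 * V1 := by
  unfold V1 Measure.real
  rw [Measure.addHaar_ball _ _ hr, ENNReal.toReal_mul, ENNReal.toReal_ofReal (by positivity)]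
  simp

theorem vol_closedBall (x : E3) {r : ℝ} (hr : 0 ≤ r) :
    volume.real (closedBall x r) = r ^ 3 * V1 := by
  rw [← vol_ball x hr]
  unfold Measure.real
  rw [Measure.addHaar_closedBall_eq_addHaar_ball]

theorem card_mul_le {ι : Type*} (S : Finset ι) (A : ι → Set E3) (B : Set E3) (m : ℝ)
    (hA : ∀ i ∈ S, MeasurableSet (A i))
    (hd : ∀ i ∈ S, ∀ j ∈ S, i ≠ j → Disjoint (A i) (A j)) (hsub : ∀ i ∈ S, A i ⊆ B)
    (hm : ∀ i ∈ S, volume.real (A i) = m) (hB : volume B ≠ ⊤) :
    (S.card : ℝ) * m ≤ volume.real B := by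
  have h1 : volume.real (⋃ i ∈ S, A i) = ∑ i ∈ S, volume.real (A i) := by
    refine measureReal_biUnion_finset ?_ hA ?_
    · intro i hi j hj hij
      exact hd i hi j hj hij
    · intro i hi
      exact ne_top_of_le_ne_top hB (measure_mono (hsub i hi))
  have h2 : ∑ i ∈ S, volume.real (A i) = S.card * m := by
    rw [Finset.sum_congr rfl hm]
    simp
  rw [← h2, ← h1]
  exact measureReal_mono (Set.iUnion₂_subset hsub) hB

theorem le_card_mul {ι : Type*} (S : Finset ι) (A : ι → Set E3) (B : Set E3) (m : ℝ)
    (hsub : B ⊆ ⋃ i ∈ S, A i) (hm : ∀ i ∈ S, volume.real (A i) ≤ m)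
    (hfin : ∀ i ∈ S, volume (A i) ≠ ⊤) :
    volume.real B ≤ (S.card : ℝ) * m := by
  calc volume.real B ≤ volume.real (⋃ i ∈ S, A i) := by
        refine measureReal_mono hsub ?_
        exact ((measure_biUnion_lt_top S.finite_toSet fun i hi => (hfin i hi).lt_top)).ne
    _ ≤ ∑ i ∈ S, volume.real (A i) := measureReal_biUnion_finset_le _ _
    _ ≤ ∑ _i ∈ S, m := Finset.sum_le_sum hm
    _ = _ := by simp

end

end MPdef58e
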