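import Mathlib
import Pool.Agent.Work.MP_def58e_co.Cert
import Pool.Agent.Work.MP_def58e_co.Defs

/-!
The lower bound `343/16000` for the lower density of every eleven-neighbour packing.
-/

namespace MPdef58e

open MeasureTheory Filter Topology Metric

noncomputable section

theorem dist_sq3 (x y : E3) :
    dist x y ^ 2 = (x 0 - y 0) ^ 2 + (x 1 - y 1) ^ 2 + (x 2 - y 2) ^ 2 := by
  rw [EuclideanSpace.dist_eq, Real.sq_sqrt (by positivity)]
  simp [Fin.sum_univ_three, Real.dist_eq, sq_abs]

theorem finite_inter {C : Set E3} (hC : IsPacking C) (r : ℝ) :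
    (C ∩ closedBall 0 r).Finite := by
  have hclosed : IsClosed C :=
    isClosed_of_pairwise_le_dist (ε := 2) (by norm_num) (fun x hx y hy hxy => hC x hx y hy hxy)
  have hcomp : IsCompact (C ∩ closedBall 0 r) := (isCompact_closedBall 0 r).inter_left hclosed
  have hd : DiscreteTopology ↥(C ∩ closedBall 0 r) := by
    refine DiscreteTopology.of_forall_le_dist (r := 2) (by norm_num) ?_
    intro x y hxy
    exact hC x.1 x.2.1 y.1 y.2.1 (fun h => hxy (Subtype.ext h))
  exact hcomp.finite ⟨hd⟩

theorem exists_eleven {C : Set E3} (hC : IsPacking C) {c : E3}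
    (h : (11 : ℕ∞) ≤ (neighbours C c).encard) :
    ∃ y : Fin 11 → E3, (∀ i, y i ∈ C) ∧ (∀ i, dist c (y i) = 2) ∧
      ∀ i j, i ≠ j → 2 ≤ dist (y i) (y j) := by
  obtain ⟨t, ht, hcard⟩ := Set.exists_subset_encard_eq h
  have hfin : t.Finite := Set.finite_of_encard_eq_coe (k := 11) (by simpa using hcard)
  have hc : hfin.toFinset.card = 11 := by
    have := hfin.encard_eq_coe_toFinset_card
    rw [hcard] at this
    exact_mod_cast this.symm
  let e := (Finset.equivFinOfCardEq hc).symm
  have hmem : ∀ i, ((e i : hfin.toFinset) : E3) ∈ neighbours C c := fun i =>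
    ht ((Set.Finite.mem_toFinset hfin).1 (e i).2)
  refine ⟨fun i => (e i : E3), fun i => (hmem i).1, fun i => (hmem i).2, fun i j hij => ?_⟩
  refine hC _ (hmem i).1 _ (hmem j).1 fun h => hij ?_
  exact e.injective (Subtype.ext h)

/-- The region of points around a centre `c` with neighbours `y i` that may have `c` as nearest
centre: the ball of radius `30/7` minus eleven disjoint balls of radius `10/7`. -/
def region (c : E3) (y : Fin 11 → E3) : Set E3 :=
  closedBall c (30 / 7) \ ⋃ i ∈ (Finset.univ : Finset (Fin 11)),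
    ball (c + (10 / 7 : ℝ) • (y i - c)) (10 / 7)

theorem vol_region {c : E3} {y : Fin 11 → E3} (h2 : ∀ i, dist c (y i) = 2)
    (hy : ∀ i j, i ≠ j → 2 ≤ dist (y i) (y j)) :
    volume.real (region c y) = 16000 / 343 * V1 := by
  have hU : volume.real (⋃ i ∈ (Finset.univ : Finset (Fin 11)),
      ball (c + (10 / 7 : ℝ) • (y i - c)) (10 / 7)) = 11 * ((10 / 7) ^ 3 * V1) := by
    rw [measureReal_biUnion_finset]
    · simp only [vol_ball _ (show (0 : ℝ) ≤ 10 / 7 by norm_num)]
      simp
    · intro i _ j _ hij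
      refine ball_disjoint_ball ?_
      rw [dist_add_left, dist_smul₀, dist_sub_right]
      have := hy i j hij
      rw [Real.norm_of_nonneg (by norm_num)]
      linarith
    · intro i _
      exact measurableSet_ball
  have hsub : (⋃ i ∈ (Finset.univ : Finset (Fin 11)),
      ball (c + (10 / 7 : ℝ) • (y i - c)) (10 / 7)) ⊆ closedBall c (30 / 7) := by
    refine Set.iUnion₂_subset fun i _ => ?_
    refine (ball_subset_closedBall).trans (closedBall_subset_closedBall' ?_)
    have h1 : dist (c + (10 / 7 : ℝ) • (y i - c)) c = 20 / 7 := by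
      rw [dist_eq_norm, add_sub_cancel_left, norm_smul, Real.norm_of_nonneg (by norm_num),
        ← dist_eq_norm, dist_comm, h2 i]
      norm_num
    rw [h1]
    norm_num
  unfold region
  rw [measureReal_sdiff hsub (Finset.measurableSet_biUnion _ fun i _ => measurableSet_ball)
    measure_closedBall_lt_top.ne, hU, vol_closedBall _ (by norm_num)]
  ring

theorem mem_region {C : Set E3} {c p : E3} {y : Fin 11 → E3}
    (hyC : ∀ i, y i ∈ C) (h2 : ∀ i, dist c (y i) = 2)
    (hy : ∀ i j, i ≠ j → 2 ≤ dist (y i) (y j)) (hnear : ∀ c' ∈ C, dist p c ≤ dist p c') :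
    p ∈ region c y := by
  -- squared distances
  have hd : ∀ i, (c 0 - y i 0) ^ 2 + (c 1 - y i 1) ^ 2 + (c 2 - y i 2) ^ 2 = 4 := fun i => by
    rw [← dist_sq3, h2 i]; norm_num
  have hyy : ∀ i j, i ≠ j → 4 ≤ (y i 0 - y j 0) ^ 2 + (y i 1 - y j 1) ^ 2
      + (y i 2 - y j 2) ^ 2 := fun i j hij => by
    rw [← dist_sq3]
    nlinarith [hy i j hij]
  have hn : ∀ i, dist p c ^ 2 ≤ dist p (y i) ^ 2 := fun i => by
    have := hnear _ (hyC i)
    have h0 : 0 ≤ dist p c := dist_nonneg
    nlinarith
  refine ⟨?_, ?_⟩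
  · rw [mem_closedBall]
    by_contra hcon
    push Not at hcon
    set D := dist p c with hD
    have hDpos : 0 < D := by linarith
    have hD2 : D ^ 2 = (p 0 - c 0) ^ 2 + (p 1 - c 1) ^ 2 + (p 2 - c 2) ^ 2 := by
      rw [hD, dist_sq3]
    obtain ⟨i, hi⟩ := exists_ip_ge (fun i k => (y i k - c k) / 2) (fun k => (p k - c k) / D)
      (fun i => by
        unfold IsUnit3
        have := hd i
        nlinarith)
      (by
        unfold IsUnit3
        simp only [div_pow, ← add_div]
        rw [← hD2]
        exact div_self (by positivity))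
      (fun i j hij => by
        have h1 := hyy i j hij
        have h2 := hd i
        have h3 := hd j
        unfold ip
        nlinarith)
    have hi' : 7 / 15 * D ≤ (y i 0 - c 0) * (p 0 - c 0) + (y i 1 - c 1) * (p 1 - c 1)
        + (y i 2 - c 2) * (p 2 - c 2) := by
      have e : ip (fun k => (y i k - c k) / 2) (fun k => (p k - c k) / D)
          = ((y i 0 - c 0) * (p 0 - c 0) + (y i 1 - c 1) * (p 1 - c 1)
        + (y i 2 - c 2) * (p 2 - c 2)) / (2 * D) := by
        unfold ip
        field_simp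
      rw [e, le_div_iff₀ (by positivity)] at hi
      linarith
    have h4 := hn i
    rw [dist_sq3 p (y i), hD2] at h4
    have h5 := hd i
    nlinarith
  · simp only [Set.mem_iUnion, not_exists]
    intro i _ hmem
    rw [mem_ball] at hmem
    have h1 : dist p (c + (10 / 7 : ℝ) • (y i - c)) ^ 2 < (10 / 7) ^ 2 := by
      have h0 : 0 ≤ dist p (c + (10 / 7 : ℝ) • (y i - c)) := dist_nonneg
      nlinarith
    rw [dist_sq3] at h1
    simp only [PiLp.add_apply, PiLp.smul_apply, PiLp.sub_apply, smul_eq_mul] at h1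
    have h4 := hn i
    rw [dist_sq3 p (y i), dist_sq3 p c] at h4
    have h5 := hd i
    nlinarith [sq_nonneg (p 0 - c 0), sq_nonneg (p 1 - c 1), sq_nonneg (p 2 - c 2)]

theorem exists_nearest {C : Set E3} (hne : C.Nonempty) (hC : IsPacking C) (p : E3) :
    ∃ c ∈ C, ∀ c' ∈ C, dist p c ≤ dist p c' := by
  have hclosed : IsClosed C :=
    isClosed_of_pairwise_le_dist (ε := 2) (by norm_num) (fun x hx y hy hxy => hC x hx y hy hxy)
  obtain ⟨c, hc, he⟩ := hclosed.exists_infDist_eq_dist hne p
  exact ⟨c, hc, fun c' hc' => he ▸ infDist_le_dist_of_mem hc'⟩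

theorem ratio_lower {C : Set E3} (hC : IsNeighbourPacking 11 C) {R : ℝ} (hR : 37 / 7 ≤ R) :
    343 / 16000 * ((R - 37 / 7) ^ 3 / R ^ 3) ≤
      volume.real (closedBall (0 : E3) R ∩ body C) / volume.real (closedBall (0 : E3) R) := by
  obtain ⟨hne, hP, hN⟩ := hC
  have hfin := finite_inter hP (R - 1)
  choose! Y hY using fun c (hc : c ∈ C) => exists_eleven hP (hN c hc)
  set T := hfin.toFinset with hT
  have hTmem : ∀ c, c ∈ T ↔ c ∈ C ∧ dist c 0 ≤ R - 1 := by
    intro c
    rw [hT, Set.Finite.mem_toFinset]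
    simp [mem_closedBall]
  have hcover : closedBall (0 : E3) (R - 37 / 7) ⊆ ⋃ c ∈ T, region c (Y c) := by
    intro p hp
    obtain ⟨c, hc, hnear⟩ := exists_nearest hne hP p
    have hm := mem_region (hY c hc).1 (hY c hc).2.1 (hY c hc).2.2 hnear
    rw [Set.mem_iUnion₂]
    refine ⟨c, ?_, hm⟩
    rw [hTmem]
    refine ⟨hc, ?_⟩
    have h1 : dist p c ≤ 30 / 7 := hm.1
    rw [mem_closedBall] at hp
    have := dist_triangle_left c 0 p
    linarith
  have h1 : (R - 37 / 7) ^ 3 * V1 ≤ T.card * (16000 / 343 * V1) := by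
    rw [← vol_closedBall (0 : E3) (by linarith : 0 ≤ R - 37 / 7)]
    refine le_card_mul T (fun c => region c (Y c)) _ _ hcover ?_ ?_
    · intro c hc
      have hc' := ((hTmem c).1 hc).1
      exact (vol_region (hY c hc').2.1 (hY c hc').2.2).le
    · intro c _
      exact ne_top_of_le_ne_top measure_closedBall_lt_top.ne (measure_mono Set.sdiff_subset)
  have h2 : (T.card : ℝ) * V1 ≤ volume.real (closedBall (0 : E3) R ∩ body C) := by
    refine card_mul_le T (fun c => ball c 1) _ V1 (fun c _ => measurableSet_ball) ?_ ?_ ?_ ?_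
    · intro c hc c' hc' hcc'
      refine ball_disjoint_ball ?_
      have := hP c ((hTmem c).1 hc).1 c' ((hTmem c').1 hc').1 hcc'
      linarith
    · intro c hc x hx
      rw [mem_ball] at hx
      have hc' := (hTmem c).1 hc
      refine ⟨?_, ?_⟩
      · rw [mem_closedBall]
        have := dist_triangle x c 0
        linarith
      · unfold body
        rw [Set.mem_iUnion₂]
        exact ⟨c, hc'.1, by rw [mem_closedBall]; exact hx.le⟩
    · intro c _
      rw [vol_ball _ zero_le_one]
      ring
    · exact ne_top_of_le_ne_top measure_closedBall_lt_top.ne (measure_mono Set.inter_subset_left)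
  have hRpos : 0 < R := by linarith
  rw [vol_closedBall _ hRpos.le, le_div_iff₀ (mul_pos (pow_pos hRpos 3) V1_pos)]
  have e : 343 / 16000 * ((R - 37 / 7) ^ 3 / R ^ 3) * (R ^ 3 * V1)
      = 343 / 16000 * ((R - 37 / 7) ^ 3 * V1) := by
    field_simp
  rw [e]
  linarith

theorem ratio_nonneg (C : Set E3) (R : ℝ) :
    0 ≤ volume.real (closedBall (0 : E3) R ∩ body C) / volume.real (closedBall (0 : E3) R) :=
  div_nonneg measureReal_nonneg measureReal_nonneg

theorem ratio_le_one (C : Set E3) (R : ℝ) :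
    volume.real (closedBall (0 : E3) R ∩ body C) / volume.real (closedBall (0 : E3) R) ≤ 1 :=
  div_le_one_of_le₀ (measureReal_mono Set.inter_subset_left measure_closedBall_lt_top.ne)
    measureReal_nonneg

theorem tendsto_shift (a : ℝ) : Tendsto (fun R : ℝ => (R - a) ^ 3 / R ^ 3) atTop (𝓝 1) := by
  have h1 : Tendsto (fun R : ℝ => (1 - a * R⁻¹) ^ 3) atTop (𝓝 ((1 - a * 0) ^ 3)) :=
    ((tendsto_const_nhds.sub (tendsto_inv_atTop_zero.const_mul a)).pow 3)
  simp only [mul_zero, sub_zero, one_pow] at h1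
  refine h1.congr' ?_
  filter_upwards [eventually_gt_atTop 0] with R hR
  field_simp

/-- If eventually the density ratio is at least `g R` with `g → l` then the lower density is at
least `l`. -/
theorem le_lowerDensity {C : Set E3} {g : ℝ → ℝ} {l : ℝ} (hg : Tendsto g atTop (𝓝 l))
    (h : ∀ᶠ R in atTop, g R ≤
      volume.real (closedBall (0 : E3) R ∩ body C) / volume.real (closedBall (0 : E3) R)) :
    l ≤ lowerDensity C := by
  rw [← hg.liminf_eq]
  unfold lowerDensity
  refine liminf_le_liminf h hg.isBoundedUnder_ge ?_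
  exact IsBoundedUnder.isCoboundedUnder_ge ⟨1, by
    simp only [eventually_map]
    exact Eventually.of_forall fun R => ratio_le_one C R⟩

theorem lowerDensity_le {C : Set E3} {g : ℝ → ℝ} {l : ℝ} (hg : Tendsto g atTop (𝓝 l))
    (h : ∀ᶠ R in atTop,
      volume.real (closedBall (0 : E3) R ∩ body C) / volume.real (closedBall (0 : E3) R) ≤ g R) :
    lowerDensity C ≤ l := by
  rw [← hg.liminf_eq]
  unfold lowerDensity
  refine liminf_le_liminf h ?_ hg.isCoboundedUnder_ge
  exact ⟨0, by
    simp only [eventually_map]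
    exact Eventually.of_forall fun R => ratio_nonneg C R⟩

theorem lower_bound {C : Set E3} (hC : IsNeighbourPacking 11 C) :
    343 / 16000 ≤ lowerDensity C := by
  have h1 : Tendsto (fun R : ℝ => 343 / 16000 * ((R - 37 / 7) ^ 3 / R ^ 3)) atTop
      (𝓝 (343 / 16000)) := by
    simpa using (tendsto_shift (37 / 7)).const_mul (343 / 16000 : ℝ)
  refine le_lowerDensity h1 ?_
  filter_upwards [eventually_ge_atTop (37 / 7 : ℝ)] with R hR
  exact ratio_lower hC hR

end

end MPdef58e
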