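import Mathlib
import Pool.Agent.Work.MP_def58e_co.Lower

/-!
Barlow packings: stackings of close-packed hexagonal layers, with an arbitrary stacking sequence.
-/

namespace MPdef58e

open MeasureTheory Filter Topology Metric

noncomputable section

theorem bpt_0 (τ : ℤ → ℤ) (v : Fin 3 → ℤ) : bpt τ v 0 = 2 * (v 0 : ℝ) + v 1 + τ (v 2) := rfl
theorem bpt_1 (τ : ℤ → ℤ) (v : Fin 3 → ℤ) :
    bpt τ v 1 = (3 * (v 1 : ℝ) + τ (v 2)) / Real.sqrt 3 := rfl
theorem bpt_2 (τ : ℤ → ℤ) (v : Fin 3 → ℤ) : bpt τ v 2 = Real.sqrt (8 / 3) * (v 2 : ℝ) := rfl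

/-- the integer quadratic form which is `3/4` of the squared distance -/
def Q (x y s m : ℤ) : ℤ := 3 * (x ^ 2 + x * y + y ^ 2 + x * s + y * s) + s ^ 2 + 2 * m ^ 2

theorem sqrt3_pos : 0 < Real.sqrt 3 := by positivity
theorem sqrt3_sq : Real.sqrt 3 * Real.sqrt 3 = 3 := Real.mul_self_sqrt (by norm_num)
theorem sqrt83_pos : 0 < Real.sqrt (8 / 3) := by positivity
theorem sqrt83_sq : Real.sqrt (8 / 3) * Real.sqrt (8 / 3) = 8 / 3 :=
  Real.mul_self_sqrt (by norm_num)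

theorem dist_bpt (τ : ℤ → ℤ) (v w : Fin 3 → ℤ) :
    dist (bpt τ v) (bpt τ w) ^ 2 =
      4 / 3 * (Q (v 0 - w 0) (v 1 - w 1) (τ (v 2) - τ (w 2)) (v 2 - w 2) : ℝ) := by
  rw [dist_sq3, bpt_0, bpt_1, bpt_2, bpt_0, bpt_1, bpt_2]
  unfold Q
  push_cast
  have h3 := sqrt3_sq
  have h83 := sqrt83_sq
  have h3p := sqrt3_pos
  have e1 : ((3 * (v 1 : ℝ) + τ (v 2)) / Real.sqrt 3 - (3 * (w 1 : ℝ) + τ (w 2)) / Real.sqrt 3) ^ 2
      = (3 * ((v 1 : ℝ) - w 1) + (τ (v 2) - τ (w 2))) ^ 2 / 3 := by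
    rw [← sub_div, div_pow, show Real.sqrt 3 ^ 2 = 3 by rw [sq, h3]]
    ring
  have e2 : (Real.sqrt (8 / 3) * (v 2 : ℝ) - Real.sqrt (8 / 3) * (w 2 : ℝ)) ^ 2
      = 8 / 3 * ((v 2 : ℝ) - w 2) ^ 2 := by
    linear_combination ((v 2 : ℝ) - w 2) ^ 2 * h83
  rw [e1, e2]
  ring

/-- touching relation on indices -/
def N (τ : ℤ → ℤ) (v w : Fin 3 → ℤ) : Prop :=
  Q (v 0 - w 0) (v 1 - w 1) (τ (v 2) - τ (w 2)) (v 2 - w 2) = 3

theorem N_symm {τ : ℤ → ℤ} {v w : Fin 3 → ℤ} (h : N τ v w) : N τ w v := by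
  unfold N Q at *
  linear_combination h

theorem N_iff (τ : ℤ → ℤ) (v w : Fin 3 → ℤ) : dist (bpt τ v) (bpt τ w) = 2 ↔ N τ v w := by
  have h := dist_bpt τ v w
  constructor
  · intro h1
    rw [h1] at h
    unfold N
    have : ((Q (v 0 - w 0) (v 1 - w 1) (τ (v 2) - τ (w 2)) (v 2 - w 2) : ℤ) : ℝ) = 3 := by
      linarith
    exact_mod_cast this
  · intro h1
    unfold N at h1
    rw [h1] at h
    push_cast at h
    have h0 : 0 ≤ dist (bpt τ v) (bpt τ w) := dist_nonneg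
    nlinarith

theorem tau_step {τ : ℤ → ℤ} (hτ : IsStacking τ) {n m : ℤ} (h : n - m = 1 ∨ n - m = -1) :
    τ n - τ m = 1 ∨ τ n - τ m = -1 := by
  rcases h with h | h
  · have := hτ m
    rw [show m + 1 = n by omega] at this
    omega
  · have := hτ n
    rw [show n + 1 = m by omega] at this
    omega

/-- the quadratic form is at least `3` on differences of distinct indices -/
theorem Q_ge {τ : ℤ → ℤ} (hτ : IsStacking τ) {v w : Fin 3 → ℤ} (hne : v ≠ w) :
    3 ≤ Q (v 0 - w 0) (v 1 - w 1) (τ (v 2) - τ (w 2)) (v 2 - w 2) := by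
  have hor : ¬ (v 0 - w 0 = 0 ∧ v 1 - w 1 = 0 ∧ v 2 - w 2 = 0) := by
    rintro ⟨h0, h1, h2⟩
    apply hne
    funext k
    fin_cases k
    · show v 0 = w 0
      omega
    · show v 1 = w 1
      omega
    · show v 2 = w 2
      omega
  generalize hx : v 0 - w 0 = x at *
  generalize hy : v 1 - w 1 = y at *
  by_cases hm : v 2 - w 2 = 0
  · have e : v 2 = w 2 := by omega
    rw [hm, e, sub_self]
    unfold Q
    have : 1 ≤ x ^ 2 + x * y + y ^ 2 := by
      by_contra hcon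
      push Not at hcon
      have h4 : (2 * x + y) ^ 2 + 3 * y ^ 2 ≤ 0 := by nlinarith
      have hy0 : y = 0 := by nlinarith [sq_nonneg (2 * x + y), sq_nonneg y]
      have hx0 : x = 0 := by
        rw [hy0] at h4
        nlinarith [sq_nonneg x]
      exact hor ⟨hx0, hy0, hm⟩
    nlinarith
  · by_cases hm1 : v 2 - w 2 = 1 ∨ v 2 - w 2 = -1
    · have hm2 : (v 2 - w 2) ^ 2 = 1 := by
        rcases hm1 with h | h <;> rw [h] <;> norm_num
      have hs := tau_step hτ hm1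
      unfold Q
      rw [hm2]
      have key : ∀ s : ℤ, (s = 1 ∨ s = -1) → 0 ≤ x ^ 2 + x * y + y ^ 2 + x * s + y * s := by
        intro s hs
        -- positive semidefinite up to a small constant, then integrality
        have h1 : -1 < x ^ 2 + x * y + y ^ 2 + x * s + y * s := by
          have hs2 : s ^ 2 = 1 := by rcases hs with rfl | rfl <;> norm_num
          nlinarith [sq_nonneg (3 * x + 3 * y + 2 * s), sq_nonneg (x - y)]
        omega
      have hs2 : (τ (v 2) - τ (w 2)) ^ 2 = 1 := by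
        rcases hs with h | h <;> rw [h] <;> norm_num
      have := key _ hs
      nlinarith
    · have hm2 : 4 ≤ (v 2 - w 2) ^ 2 := by
        rcases le_or_gt 2 (v 2 - w 2) with h | h
        · nlinarith
        · have : v 2 - w 2 ≤ -2 := by omega
          nlinarith
      unfold Q
      nlinarith [sq_nonneg (3 * x + 3 * y + 2 * (τ (v 2) - τ (w 2))), sq_nonneg (x - y),
        sq_nonneg (x + y + (τ (v 2) - τ (w 2))), sq_nonneg (2 * x + y + (τ (v 2) - τ (w 2)))]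

theorem packing_barlow {τ : ℤ → ℤ} (hτ : IsStacking τ) {v w : Fin 3 → ℤ} (hne : v ≠ w) :
    2 ≤ dist (bpt τ v) (bpt τ w) := by
  have h := dist_bpt τ v w
  have h1 : (3 : ℝ) ≤ (Q (v 0 - w 0) (v 1 - w 1) (τ (v 2) - τ (w 2)) (v 2 - w 2) : ℝ) := by
    exact_mod_cast Q_ge hτ hne
  nlinarith [dist_nonneg (x := bpt τ v) (y := bpt τ w)]

theorem bpt_injective {τ : ℤ → ℤ} (hτ : IsStacking τ) : Function.Injective (bpt τ) := by
  intro v w h
  by_contra hne
  have := packing_barlow hτ hne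
  rw [h, dist_self] at this
  norm_num at this

/-- the twelve differences to the neighbours; `e`, `e'` are the relative shifts of the layers
above and below -/
def nb (e e' : ℤ) : Fin 12 → Fin 3 → ℤ :=
  ![![1, 0, 0], ![-1, 0, 0], ![0, 1, 0], ![0, -1, 0], ![1, -1, 0], ![-1, 1, 0],
    ![0, 0, 1], ![-e, 0, 1], ![0, -e, 1], ![0, 0, -1], ![-e', 0, -1], ![0, -e', -1]]

/-- relative shift of the layer of the neighbour -/
def sh (e e' : ℤ) : Fin 12 → ℤ := ![0, 0, 0, 0, 0, 0, e, e, e, e', e', e']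

theorem nb_inj {e e' : ℤ} (he : e = 1 ∨ e = -1) (he' : e' = 1 ∨ e' = -1) :
    Function.Injective (nb e e') := by
  rcases he with rfl | rfl <;> rcases he' with rfl | rfl <;>
  · intro i j h
    revert i j
    decide

/-- relative shift of the layer above the layer of `v` -/
def up (τ : ℤ → ℤ) (v : Fin 3 → ℤ) : ℤ := τ (v 2 + 1) - τ (v 2)
/-- relative shift of the layer below the layer of `v` -/
def dn (τ : ℤ → ℤ) (v : Fin 3 → ℤ) : ℤ := τ (v 2 - 1) - τ (v 2)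

theorem up_eq {τ : ℤ → ℤ} (hτ : IsStacking τ) (v : Fin 3 → ℤ) : up τ v = 1 ∨ up τ v = -1 :=
  tau_step hτ (by omega)
theorem dn_eq {τ : ℤ → ℤ} (hτ : IsStacking τ) (v : Fin 3 → ℤ) : dn τ v = 1 ∨ dn τ v = -1 :=
  tau_step hτ (by omega)

/-- index of the neighbour -/
def nbr (τ : ℤ → ℤ) (v : Fin 3 → ℤ) (j : Fin 12) : Fin 3 → ℤ := v + nb (up τ v) (dn τ v) j

theorem nbr_inj {τ : ℤ → ℤ} (hτ : IsStacking τ) (v : Fin 3 → ℤ) :
    Function.Injective (nbr τ v) := by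
  intro i j h
  exact nb_inj (up_eq hτ v) (dn_eq hτ v) (add_left_cancel h)

theorem nb_layer (e e' : ℤ) (j : Fin 12) :
    nb e e' j 2 = 0 ∧ sh e e' j = 0 ∨ nb e e' j 2 = 1 ∧ sh e e' j = e ∨
      nb e e' j 2 = -1 ∧ sh e e' j = e' := by
  fin_cases j <;> simp [nb, sh]

theorem tau_nbr (τ : ℤ → ℤ) (v : Fin 3 → ℤ) (j : Fin 12) :
    τ (nbr τ v j 2) = τ (v 2) + sh (up τ v) (dn τ v) j := by
  have h : nbr τ v j 2 = v 2 + nb (up τ v) (dn τ v) j 2 := rfl
  rw [h]
  rcases nb_layer (up τ v) (dn τ v) j with ⟨h1, h2⟩ | ⟨h1, h2⟩ | ⟨h1, h2⟩ <;> rw [h1, h2]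
  · simp
  · unfold up
    ring
  · unfold dn
    rw [show v 2 + -1 = v 2 - 1 by ring]
    ring

/-- `Q` between two of the positions `nb i`, `nb j` -/
def Qnb (e e' : ℤ) (i j : Fin 12) : ℤ :=
  Q (nb e e' i 0 - nb e e' j 0) (nb e e' i 1 - nb e e' j 1) (sh e e' i - sh e e' j)
    (nb e e' i 2 - nb e e' j 2)

theorem N_nbr_nbr (τ : ℤ → ℤ) (v : Fin 3 → ℤ) (i j : Fin 12) :
    N τ (nbr τ v i) (nbr τ v j) ↔ Qnb (up τ v) (dn τ v) i j = 3 := by
  unfold N Qnb
  rw [tau_nbr τ v i, tau_nbr τ v j]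
  have h : ∀ i k, nbr τ v i k = v k + nb (up τ v) (dn τ v) i k := fun i k => rfl
  simp only [h, add_sub_add_left_eq_sub]

theorem Q_nb {e e' : ℤ} (he : e = 1 ∨ e = -1) (he' : e' = 1 ∨ e' = -1) (j : Fin 12) :
    Q (-nb e e' j 0) (-nb e e' j 1) (-sh e e' j) (-nb e e' j 2) = 3 := by
  rcases he with rfl | rfl <;> rcases he' with rfl | rfl <;>
  · revert j
    decide

theorem N_nbr {τ : ℤ → ℤ} (hτ : IsStacking τ) (v : Fin 3 → ℤ) (j : Fin 12) :
    N τ v (nbr τ v j) := by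
  unfold N
  rw [tau_nbr τ v j]
  have h : ∀ k, nbr τ v j k = v k + nb (up τ v) (dn τ v) j k := fun k => rfl
  simp only [h, sub_add_cancel_left]
  exact Q_nb (up_eq hτ v) (dn_eq hτ v) j

theorem exists_nb {e : ℤ} (he : e = 1 ∨ e = -1) {x y : ℤ}
    (h : x ^ 2 + x * y + y ^ 2 + x * e + y * e = 0) :
    (x = 0 ∧ y = 0) ∨ (x = -e ∧ y = 0) ∨ (x = 0 ∧ y = -e) := by
  have hs2 : e ^ 2 = 1 := by rcases he with rfl | rfl <;> norm_num
  have h1 : 3 * (x - y) ^ 2 + (3 * x + 3 * y + 2 * e) ^ 2 = 4 := by nlinarith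
  have hx1 : -2 ≤ x - y := by nlinarith [sq_nonneg (3 * x + 3 * y + 2 * e)]
  have hx2 : x - y ≤ 2 := by nlinarith [sq_nonneg (3 * x + 3 * y + 2 * e)]
  have hy1 : -2 ≤ 3 * x + 3 * y + 2 * e := by nlinarith [sq_nonneg (x - y)]
  have hy2 : 3 * x + 3 * y + 2 * e ≤ 2 := by nlinarith [sq_nonneg (x - y)]
  rcases he with rfl | rfl
  · have hxl : -2 ≤ x := by omega
    have hxu : x ≤ 1 := by omega
    have hyl : -2 ≤ y := by omega
    have hyu : y ≤ 1 := by omega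
    interval_cases x <;> interval_cases y <;> simp_all
  · have hxl : -1 ≤ x := by omega
    have hxu : x ≤ 2 := by omega
    have hyl : -1 ≤ y := by omega
    have hyu : y ≤ 2 := by omega
    interval_cases x <;> interval_cases y <;> simp_all

theorem exists_nb0 {x y : ℤ} (h : x ^ 2 + x * y + y ^ 2 = 1) :
    (x = 1 ∧ y = 0) ∨ (x = -1 ∧ y = 0) ∨ (x = 0 ∧ y = 1) ∨ (x = 0 ∧ y = -1) ∨
      (x = 1 ∧ y = -1) ∨ (x = -1 ∧ y = 1) := by
  have hxl : -1 ≤ x := by nlinarith [sq_nonneg (2 * y + x)]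
  have hxu : x ≤ 1 := by nlinarith [sq_nonneg (2 * y + x)]
  have hyl : -1 ≤ y := by nlinarith [sq_nonneg (2 * x + y)]
  have hyu : y ≤ 1 := by nlinarith [sq_nonneg (2 * x + y)]
  interval_cases x <;> interval_cases y <;> simp_all

/-- every touching index is one of the twelve -/
theorem exists_nbr {τ : ℤ → ℤ} (hτ : IsStacking τ) {v w : Fin 3 → ℤ} (h : N τ v w) :
    ∃ j, w = nbr τ v j := by
  have h' := N_symm h
  have key : ∀ j, w 0 - v 0 = nb (up τ v) (dn τ v) j 0 → w 1 - v 1 = nb (up τ v) (dn τ v) j 1 →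
      w 2 - v 2 = nb (up τ v) (dn τ v) j 2 → ∃ j, w = nbr τ v j := by
    intro j h0 h1 h2
    refine ⟨j, ?_⟩
    funext k
    have hk : nbr τ v j k = v k + nb (up τ v) (dn τ v) j k := rfl
    rw [hk]
    fin_cases k
    · show w 0 = v 0 + nb (up τ v) (dn τ v) j 0
      omega
    · show w 1 = v 1 + nb (up τ v) (dn τ v) j 1
      omega
    · show w 2 = v 2 + nb (up τ v) (dn τ v) j 2
      omega
  unfold N at h'
  by_cases hm : w 2 - v 2 = 0
  · have e : w 2 = v 2 := by omega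
    rw [hm, e, sub_self] at h'
    unfold Q at h'
    have h1 : (w 0 - v 0) ^ 2 + (w 0 - v 0) * (w 1 - v 1) + (w 1 - v 1) ^ 2 = 1 := by linarith
    rcases exists_nb0 h1 with ⟨a, b⟩ | ⟨a, b⟩ | ⟨a, b⟩ | ⟨a, b⟩ | ⟨a, b⟩ | ⟨a, b⟩
    · exact key 0 a b hm
    · exact key 1 a b hm
    · exact key 2 a b hm
    · exact key 3 a b hm
    · exact key 4 a b hm
    · exact key 5 a b hm
  · by_cases hm1 : w 2 - v 2 = 1 ∨ w 2 - v 2 = -1
    · have hm2 : (w 2 - v 2) ^ 2 = 1 := by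
        rcases hm1 with h | h <;> rw [h] <;> norm_num
      have hs := tau_step hτ hm1
      have hs2 : (τ (w 2) - τ (v 2)) ^ 2 = 1 := by
        rcases hs with h | h <;> rw [h] <;> norm_num
      unfold Q at h'
      rw [hm2, hs2] at h'
      have h1 : (w 0 - v 0) ^ 2 + (w 0 - v 0) * (w 1 - v 1) + (w 1 - v 1) ^ 2 +
          (w 0 - v 0) * (τ (w 2) - τ (v 2)) + (w 1 - v 1) * (τ (w 2) - τ (v 2)) = 0 := by
        linarith
      have h2 := exists_nb hs h1
      rcases hm1 with hm1 | hm1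
      · have e : τ (w 2) - τ (v 2) = up τ v := by
          unfold up
          rw [show w 2 = v 2 + 1 by omega]
        rw [e] at h2
        rcases h2 with ⟨a, b⟩ | ⟨a, b⟩ | ⟨a, b⟩
        · exact key 6 a b hm1
        · exact key 7 a b hm1
        · exact key 8 a b hm1
      · have e : τ (w 2) - τ (v 2) = dn τ v := by
          unfold dn
          rw [show w 2 = v 2 - 1 by omega]
        rw [e] at h2
        rcases h2 with ⟨a, b⟩ | ⟨a, b⟩ | ⟨a, b⟩
        · exact key 9 a b hm1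
        · exact key 10 a b hm1
        · exact key 11 a b hm1
    · exfalso
      have hm2 : 4 ≤ (w 2 - v 2) ^ 2 := by
        rcases le_or_gt 2 (w 2 - v 2) with h | h
        · nlinarith
        · have : w 2 - v 2 ≤ -2 := by omega
          nlinarith
      unfold Q at h'
      nlinarith [sq_nonneg (3 * (w 0 - v 0) + 3 * (w 1 - v 1) + 2 * (τ (w 2) - τ (v 2))),
        sq_nonneg ((w 0 - v 0) - (w 1 - v 1))]

/-! ### Eleven-neighbour packings inside a Barlow packing -/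

theorem dist_isometry (g : E3 ≃ᵢ E3) (x y : E3) : dist (g x) (g y) = dist x y := g.dist_eq x y

theorem neighbours_barlow {τ : ℤ → ℤ} (hτ : IsStacking τ) (g : E3 ≃ᵢ E3)
    (A : Set (Fin 3 → ℤ)) (v : Fin 3 → ℤ) :
    neighbours ((fun w => g (bpt τ w)) '' A) (g (bpt τ v)) =
      (fun j => g (bpt τ (nbr τ v j))) '' {j | nbr τ v j ∈ A} := by
  ext p
  constructor
  · rintro ⟨⟨w, hw, rfl⟩, hd⟩
    rw [g.dist_eq] at hd
    obtain ⟨j, rfl⟩ := exists_nbr hτ ((N_iff τ v w).1 hd)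
    exact ⟨j, hw, rfl⟩
  · rintro ⟨j, hj, rfl⟩
    refine ⟨⟨_, hj, rfl⟩, ?_⟩
    rw [g.dist_eq]
    exact (N_iff τ _ _).2 (N_nbr hτ v j)

theorem eleven_barlow {τ : ℤ → ℤ} (hτ : IsStacking τ) (g : E3 ≃ᵢ E3)
    (A : Set (Fin 3 → ℤ)) (v : Fin 3 → ℤ) :
    ((11 : ℕ) : ℕ∞) ≤ (neighbours ((fun w => g (bpt τ w)) '' A) (g (bpt τ v))).encard ↔
      ∀ w w', N τ v w → N τ v w' → w ∉ A → w' ∉ A → w = w' := by
  rw [neighbours_barlow hτ]
  have hinj : Function.Injective (fun j => g (bpt τ (nbr τ v j))) := by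
    intro i j h
    exact nbr_inj hτ v (bpt_injective hτ (g.injective h))
  rw [hinj.encard_image]
  set T : Set (Fin 12) := {j | nbr τ v j ∈ A} with hT
  have h1 : T.encard + (Tᶜ).encard = 12 := by
    rw [Set.encard_add_encard_compl]
    simp
  have hc : (Tᶜ).encard ≤ 1 ↔ ∀ w w', N τ v w → N τ v w' → w ∉ A → w' ∉ A → w = w' := by
    rw [Set.encard_le_one_iff]
    constructor
    · intro h w w' hw hw' hwA hw'A
      obtain ⟨i, rfl⟩ := exists_nbr hτ hw
      obtain ⟨j, rfl⟩ := exists_nbr hτ hw'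
      rw [h i j hwA hw'A]
    · intro h i j hi hj
      exact nbr_inj hτ v (h _ _ (N_nbr hτ v i) (N_nbr hτ v j) hi hj)
  rw [← hc]
  have hf1 : T.encard ≠ ⊤ := Set.encard_ne_top_iff.2 (Set.toFinite _)
  have hf2 : (Tᶜ).encard ≠ ⊤ := Set.encard_ne_top_iff.2 (Set.toFinite _)
  lift T.encard to ℕ using hf1 with a
  lift (Tᶜ).encard to ℕ using hf2 with b
  norm_cast at h1 ⊢
  omega

theorem reach_nb {e e' : ℤ} (he : e = 1 ∨ e = -1) (he' : e' = 1 ∨ e' = -1) (j k : Fin 12) :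
    ∃ a b, (a = j ∨ Qnb e e' j a = 3) ∧ (b = a ∨ Qnb e e' a b = 3) ∧
      (k = b ∨ Qnb e e' b k = 3) := by
  rcases he with rfl | rfl <;> rcases he' with rfl | rfl <;>
  · revert j k
    decide

section structure_lemmas

variable {τ : ℤ → ℤ} (hτ : IsStacking τ) {A : Set (Fin 3 → ℤ)} (hne : A.Nonempty)
  (h11 : ∀ a ∈ A, ∀ w w', N τ a w → N τ a w' → w ∉ A → w' ∉ A → w = w')

include hτ in
theorem closure_barlow {P : (Fin 3 → ℤ) → Prop} (hP : ∀ v w, N τ v w → P v → P w)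
    {s : Fin 3 → ℤ} (hPs : P s) (v : Fin 3 → ℤ) : P v := by
  have hstep : ∀ u : Fin 3 → ℤ, (∀ x, N τ x (x + u) ∧ N τ x (x - u)) →
      ∀ n : ℤ, ∀ x, P x → P (x + n • u) := by
    intro u hu n
    induction n using Int.induction_on with
    | zero => intro x hx; simpa using hx
    | succ i ih =>
      intro x hx
      have := hP _ _ (hu _).1 (ih x hx)
      rwa [add_assoc, show (i : ℤ) • u + u = ((i : ℤ) + 1) • u by
        rw [add_smul, one_smul]] at this
    | pred i ih =>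
      intro x hx
      have := hP _ _ (hu _).2 (ih x hx)
      rwa [add_sub_assoc, show (-(i : ℤ)) • u - u = (-(i : ℤ) - 1) • u by
        rw [sub_smul, one_smul]] at this
  have h0 : ∀ x : Fin 3 → ℤ, N τ x (x + ![1, 0, 0]) ∧ N τ x (x - ![1, 0, 0]) := by
    intro x
    constructor
    · exact N_nbr hτ x 0
    · have := N_nbr hτ x 1
      have e : nbr τ x 1 = x - ![1, 0, 0] := by
        funext k
        fin_cases k <;> simp [nbr, nb, sub_eq_add_neg]
      rwa [e] at this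
  have h1 : ∀ x : Fin 3 → ℤ, N τ x (x + ![0, 1, 0]) ∧ N τ x (x - ![0, 1, 0]) := by
    intro x
    constructor
    · exact N_nbr hτ x 2
    · have := N_nbr hτ x 3
      have e : nbr τ x 3 = x - ![0, 1, 0] := by
        funext k
        fin_cases k <;> simp [nbr, nb, sub_eq_add_neg]
      rwa [e] at this
  have h2 : ∀ x : Fin 3 → ℤ, N τ x (x + ![0, 0, 1]) ∧ N τ x (x - ![0, 0, 1]) := by
    intro x
    constructor
    · exact N_nbr hτ x 6
    · have := N_nbr hτ x 9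
      have e : nbr τ x 9 = x - ![0, 0, 1] := by
        funext k
        fin_cases k <;> simp [nbr, nb, sub_eq_add_neg]
      rwa [e] at this
  have h := hstep _ h2 (v 2 - s 2) _ (hstep _ h1 (v 1 - s 1) _ (hstep _ h0 (v 0 - s 0) s hPs))
  have e : s + (v 0 - s 0) • (![1, 0, 0] : Fin 3 → ℤ) + (v 1 - s 1) • (![0, 1, 0] : Fin 3 → ℤ)
      + (v 2 - s 2) • (![0, 0, 1] : Fin 3 → ℤ) = v := by
    funext k
    fin_cases k
    · show s 0 + (v 0 - s 0) * 1 + (v 1 - s 1) * 0 + (v 2 - s 2) * 0 = v 0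
      ring
    · show s 1 + (v 0 - s 0) * 0 + (v 1 - s 1) * 1 + (v 2 - s 2) * 0 = v 1
      ring
    · show s 2 + (v 0 - s 0) * 0 + (v 1 - s 1) * 0 + (v 2 - s 2) * 1 = v 2
      ring
  rwa [e] at h

include hτ hne h11

theorem nonadjacent_barlow {s s' : Fin 3 → ℤ} (hs : s ∉ A) (hs' : s' ∉ A) : ¬ N τ s s' := by
  intro hss
  have step : ∀ x a b, x ∉ A → a ∉ A → N τ x b → N τ a b → a ≠ x → b ∉ A := by
    intro x a b hx ha hxb hab hax hbA
    exact hax (h11 b hbA a x (N_symm hab) (N_symm hxb) ha hx)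
  have nself : ∀ x, ¬ N τ x x := by
    intro x hx
    unfold N Q at hx
    simp at hx
  have hall : ∀ x i, x ∉ A → nbr τ x i ∉ A → ∀ k, nbr τ x k ∉ A := by
    intro x i hx hi k
    have st : ∀ a b, (b = a ∨ Qnb (up τ x) (dn τ x) a b = 3) → nbr τ x a ∉ A →
        nbr τ x b ∉ A := by
      intro a b hab ha
      rcases hab with rfl | hab
      · exact ha
      · refine step x (nbr τ x a) (nbr τ x b) hx ha (N_nbr hτ x b)
          ((N_nbr_nbr τ x a b).2 hab) ?_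
        intro h
        have := N_nbr hτ x a
        rw [h] at this
        exact nself x this
    obtain ⟨a, b, h1, h2, h3⟩ := reach_nb (up_eq hτ x) (dn_eq hτ x) i k
    exact st b k h3 (st a b h2 (st i a h1 hi))
  obtain ⟨x, hx⟩ := hne
  have := closure_barlow hτ (P := fun v => v ∉ A ∧ ∃ w, w ∉ A ∧ N τ v w) (fun v w hvw hv => by
    obtain ⟨hv1, w', hw', hN⟩ := hv
    obtain ⟨i, rfl⟩ := exists_nbr hτ hN
    obtain ⟨k, rfl⟩ := exists_nbr hτ hvw
    exact ⟨hall v i hv1 hw' k, v, hv1, N_symm hvw⟩) ⟨hs, s', hs', hss⟩ x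
  exact this.1 hx

theorem unique_barlow {s s' t : Fin 3 → ℤ} (hs : s ∉ A) (hs' : s' ∉ A)
    (h : N τ s t) (h' : N τ s' t) : s = s' := by
  have htA : t ∈ A := by
    by_contra hcon
    exact nonadjacent_barlow hτ hne h11 hs hcon h
  exact h11 t htA s s' (N_symm h) (N_symm h') hs hs'

end structure_lemmas

end

end MPdef58e
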