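import Mathlib
import Pool.Agent.Work.MP_def58e_co.Barlow

/-!
Counting in Barlow packings, and the lower bound for eleven-neighbour packings inside them.
-/

namespace MPdef58e

open MeasureTheory Filter Topology Metric

noncomputable section

theorem sqrt2_pos : 0 < Real.sqrt 2 := by positivity

theorem const_eq : V1 / (52 * Real.sqrt 2) * 12 = 12 / 13 * (Real.pi / Real.sqrt 18) := by
  have h18 : Real.sqrt 18 = 3 * Real.sqrt 2 := by
    rw [show (18 : ℝ) = 3 ^ 2 * 2 by norm_num, Real.sqrt_mul (by norm_num),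
      Real.sqrt_sq (by norm_num)]
  rw [V1_eq, h18]
  have := sqrt2_pos
  field_simp
  norm_num

theorem tendsto_comb (a b : ℝ) : Tendsto (fun R : ℝ => V1 / (52 * Real.sqrt 2) *
    (13 * ((R - a) ^ 3 / R ^ 3) - (R - b) ^ 3 / R ^ 3)) atTop
    (𝓝 (12 / 13 * (Real.pi / Real.sqrt 18))) := by
  rw [← const_eq]
  have h := (((tendsto_shift a).const_mul (13 : ℝ)).sub (tendsto_shift b)).const_mul
    (V1 / (52 * Real.sqrt 2))
  norm_num at h
  exact h

/-- The indices in `W` whose points lie in the ball of radius `R` around `q`. -/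
def inB (τ : ℤ → ℤ) (W : Set (Fin 3 → ℤ)) (q : E3) (R : ℝ) : Set (Fin 3 → ℤ) :=
  {v | v ∈ W ∧ dist (bpt τ v) q ≤ R}

theorem inB_finite {τ : ℤ → ℤ} (hτ : IsStacking τ) (W : Set (Fin 3 → ℤ)) (q : E3) (R : ℝ) :
    (inB τ W q R).Finite := by
  have hP : IsPacking (Set.range (bpt τ)) := by
    rintro _ ⟨v, rfl⟩ _ ⟨w, rfl⟩ hne
    exact packing_barlow hτ (fun h => hne (by rw [h]))
  have h := finite_inter hP (R + dist q 0)
  refine Set.Finite.of_finite_image (f := bpt τ) (h.subset ?_) (bpt_injective hτ).injOn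
  rintro _ ⟨v, hv, rfl⟩
  refine ⟨⟨v, rfl⟩, ?_⟩
  rw [mem_closedBall]
  have := dist_triangle (bpt τ v) q 0
  have := hv.2
  linarith

/-- number of points -/
def cntB (τ : ℤ → ℤ) (W : Set (Fin 3 → ℤ)) (q : E3) (R : ℝ) : ℕ := (inB τ W q R).ncard

/-- dimensions of the tiles -/
def dm : Fin 3 → ℝ := ![2, Real.sqrt 3, Real.sqrt (8 / 3)]

/-- the tile at `v` -/
def tileB (τ : ℤ → ℤ) (v : Fin 3 → ℤ) : Set E3 :=
  {p | ∀ k, bpt τ v k ≤ p k ∧ p k < bpt τ v k + dm k}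

theorem tileB_eq (τ : ℤ → ℤ) (v : Fin 3 → ℤ) : tileB τ v = (WithLp.ofLp : E3 → Fin 3 → ℝ) ⁻¹'
    (Set.univ.pi fun k => Set.Ico (bpt τ v k) (bpt τ v k + dm k)) := by
  ext p
  simp only [tileB, Set.mem_ofPred_eq, Set.mem_preimage, Set.mem_pi, Set.mem_univ, Set.mem_Ico,
    true_implies]

theorem measurable_tileB (τ : ℤ → ℤ) (v : Fin 3 → ℤ) : MeasurableSet (tileB τ v) := by
  rw [tileB_eq]
  exact (PiLp.volume_preserving_ofLp (Fin 3)).measurable
    (MeasurableSet.univ_pi fun k => measurableSet_Ico)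

theorem dm_prod : (2 : ℝ) * Real.sqrt 3 * Real.sqrt (8 / 3) = 4 * Real.sqrt 2 := by
  rw [mul_assoc, ← Real.sqrt_mul (by norm_num), show (3 : ℝ) * (8 / 3) = 2 ^ 2 * 2 by norm_num,
    Real.sqrt_mul (by norm_num), Real.sqrt_sq (by norm_num)]
  ring

theorem dm_nonneg (k : Fin 3) : 0 ≤ dm k := by
  fin_cases k
  · show (0 : ℝ) ≤ 2
    norm_num
  · exact sqrt3_pos.le
  · exact sqrt83_pos.le

theorem vol_tileB (τ : ℤ → ℤ) (v : Fin 3 → ℤ) :
    volume.real (tileB τ v) = 4 * Real.sqrt 2 := by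
  unfold Measure.real
  rw [tileB_eq, (PiLp.volume_preserving_ofLp (Fin 3)).measure_preimage
    (MeasurableSet.univ_pi fun k => measurableSet_Ico).nullMeasurableSet, Real.volume_pi_Ico_toReal]
  · rw [Fin.prod_univ_three]
    simp only [add_sub_cancel_left]
    exact dm_prod
  · intro k
    have := dm_nonneg k
    show bpt τ v k ≤ bpt τ v k + dm k
    linarith

theorem tileB_subset (τ : ℤ → ℤ) (v : Fin 3 → ℤ) :
    tileB τ v ⊆ closedBall (bpt τ v) 4 := by
  intro p hp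
  rw [mem_closedBall]
  have h0 := hp 0
  have h1 := hp 1
  have h2 := hp 2
  have e0 : dm 0 = 2 := rfl
  have e1 : dm 1 = Real.sqrt 3 := rfl
  have e2 : dm 2 = Real.sqrt (8 / 3) := rfl
  rw [e0] at h0
  rw [e1] at h1
  rw [e2] at h2
  have hd := dist_sq3 p (bpt τ v)
  have b0 : (p 0 - bpt τ v 0) ^ 2 ≤ 4 := by
    have : 0 ≤ p 0 - bpt τ v 0 := by linarith [h0.1]
    have : p 0 - bpt τ v 0 ≤ 2 := by linarith [h0.2]
    nlinarith
  have b1 : (p 1 - bpt τ v 1) ^ 2 ≤ 3 := by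
    have h3 : 0 ≤ p 1 - bpt τ v 1 := by linarith [h1.1]
    have h4 : p 1 - bpt τ v 1 ≤ Real.sqrt 3 := by linarith [h1.2]
    calc (p 1 - bpt τ v 1) ^ 2 ≤ (Real.sqrt 3) ^ 2 := by gcongr
      _ = 3 := by rw [sq]; exact sqrt3_sq
  have b2 : (p 2 - bpt τ v 2) ^ 2 ≤ 8 / 3 := by
    have h3 : 0 ≤ p 2 - bpt τ v 2 := by linarith [h2.1]
    have h4 : p 2 - bpt τ v 2 ≤ Real.sqrt (8 / 3) := by linarith [h2.2]
    calc (p 2 - bpt τ v 2) ^ 2 ≤ (Real.sqrt (8 / 3)) ^ 2 := by gcongr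
      _ = 8 / 3 := by rw [sq]; exact sqrt83_sq
  have h5 : dist p (bpt τ v) ^ 2 ≤ 4 ^ 2 := by
    rw [hd]
    linarith
  exact le_of_sq_le_sq h5 (by norm_num)

theorem tileB_disjoint (τ : ℤ → ℤ) {v w : Fin 3 → ℤ} (hne : v ≠ w) :
    Disjoint (tileB τ v) (tileB τ w) := by
  rw [Set.disjoint_left]
  intro p hp hq
  apply hne
  have a0 := hp 0
  have a1 := hp 1
  have a2 := hp 2
  have b0 := hq 0
  have b1 := hq 1
  have b2 := hq 2
  have e0 : dm 0 = 2 := rfl
  have e1 : dm 1 = Real.sqrt 3 := rfl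
  have e2 : dm 2 = Real.sqrt (8 / 3) := rfl
  rw [e0, bpt_0] at a0 b0
  rw [e1, bpt_1] at a1 b1
  rw [e2, bpt_2] at a2 b2
  -- layers agree
  have key : ∀ (c : ℝ), 0 < c → ∀ x y : ℤ, c * x < c * y + c → x < y + 1 := by
    intro c hc x y h
    have h1 : c * x < c * (y + 1) := by linarith
    have := lt_of_mul_lt_mul_left h1 hc.le
    exact_mod_cast this
  have l1 := key _ sqrt83_pos _ _ (a2.1.trans_lt b2.2)
  have l2 := key _ sqrt83_pos _ _ (b2.1.trans_lt a2.2)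
  have e2 : v 2 = w 2 := by omega
  rw [e2] at a1 a0
  have s3 : Real.sqrt 3 = 3 / Real.sqrt 3 := by
    rw [eq_div_iff sqrt3_pos.ne']
    exact sqrt3_sq
  have key1 : ∀ x y t : ℤ, (3 * (x : ℝ) + t) / Real.sqrt 3 < (3 * (y : ℝ) + t) / Real.sqrt 3
      + Real.sqrt 3 → x < y + 1 := by
    intro x y t h
    have h1 : (3 * (x : ℝ) + t) / Real.sqrt 3 < (3 * (y : ℝ) + t + 3) / Real.sqrt 3 := by
      calc (3 * (x : ℝ) + t) / Real.sqrt 3 < (3 * (y : ℝ) + t) / Real.sqrt 3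
          + Real.sqrt 3 := h
        _ = (3 * (y : ℝ) + t) / Real.sqrt 3 + 3 / Real.sqrt 3 := by rw [← s3]
        _ = (3 * (y : ℝ) + t + 3) / Real.sqrt 3 := by rw [← add_div]
    rw [div_lt_div_iff_of_pos_right sqrt3_pos] at h1
    have h2 : (x : ℝ) < y + 1 := by linarith
    exact_mod_cast h2
  have m1 := key1 _ _ _ (a1.1.trans_lt b1.2)
  have m2 := key1 _ _ _ (b1.1.trans_lt a1.2)
  have e1 : v 1 = w 1 := by omega
  rw [e1] at a0
  have n1 : (v 0 : ℝ) < w 0 + 1 := by linarith [a0.1.trans_lt b0.2]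
  have n2 : (w 0 : ℝ) < v 0 + 1 := by linarith [b0.1.trans_lt a0.2]
  have n1' : v 0 < w 0 + 1 := by exact_mod_cast n1
  have n2' : w 0 < v 0 + 1 := by exact_mod_cast n2
  funext k
  fin_cases k
  · show v 0 = w 0
    omega
  · exact e1
  · exact e2

theorem tileB_cover (τ : ℤ → ℤ) (p : E3) : ∃ v, p ∈ tileB τ v := by
  set n : ℤ := ⌊p 2 / Real.sqrt (8 / 3)⌋ with hn
  set j : ℤ := ⌊(Real.sqrt 3 * p 1 - τ n) / 3⌋ with hj
  set i : ℤ := ⌊(p 0 - j - τ n) / 2⌋ with hi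
  refine ⟨![i, j, n], ?_⟩
  intro k
  have h83 := sqrt83_pos
  have h3 := sqrt3_pos
  fin_cases k
  · show bpt τ ![i, j, n] 0 ≤ p 0 ∧ p 0 < bpt τ ![i, j, n] 0 + 2
    rw [bpt_0]
    simp only [Matrix.cons_val_zero, Matrix.cons_val_one, Matrix.cons_val]
    have h1 : (i : ℝ) ≤ (p 0 - j - τ n) / 2 := Int.floor_le _
    have h2 : (p 0 - j - τ n) / 2 < i + 1 := Int.lt_floor_add_one _
    constructor <;> linarith
  · show bpt τ ![i, j, n] 1 ≤ p 1 ∧ p 1 < bpt τ ![i, j, n] 1 + Real.sqrt 3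
    rw [bpt_1]
    simp only [Matrix.cons_val_one, Matrix.cons_val]
    have h1 : (j : ℝ) ≤ (Real.sqrt 3 * p 1 - τ n) / 3 := Int.floor_le _
    have h2 : (Real.sqrt 3 * p 1 - τ n) / 3 < j + 1 := Int.lt_floor_add_one _
    have hs := sqrt3_sq
    constructor
    · rw [div_le_iff₀ h3]
      linarith
    · rw [← sub_lt_iff_lt_add, lt_div_iff₀ h3]
      nlinarith
  · show bpt τ ![i, j, n] 2 ≤ p 2 ∧ p 2 < bpt τ ![i, j, n] 2 + Real.sqrt (8 / 3)
    rw [bpt_2]
    simp only [Matrix.cons_val]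
    have h1 : (n : ℝ) ≤ p 2 / Real.sqrt (8 / 3) := Int.floor_le _
    have h2 : p 2 / Real.sqrt (8 / 3) < n + 1 := Int.lt_floor_add_one _
    rw [le_div_iff₀ h83] at h1
    rw [div_lt_iff₀ h83] at h2
    constructor <;> linarith

theorem cntB_upper {τ : ℤ → ℤ} (hτ : IsStacking τ) (q : E3) {R : ℝ} (hR : 0 ≤ R) :
    (cntB τ Set.univ q R : ℝ) * (4 * Real.sqrt 2) ≤ (R + 4) ^ 3 * V1 := by
  have hfin := inB_finite hτ Set.univ q R
  have h := card_mul_le hfin.toFinset (fun v => tileB τ v) (closedBall q (R + 4))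
    (4 * Real.sqrt 2) (fun v _ => measurable_tileB τ v)
    (fun v _ w _ hne => tileB_disjoint τ hne)
    (fun v hv => by
      refine (tileB_subset τ v).trans (closedBall_subset_closedBall' ?_)
      have := ((Set.Finite.mem_toFinset hfin).1 hv).2
      linarith)
    (fun v _ => vol_tileB τ v) measure_closedBall_lt_top.ne
  rw [vol_closedBall _ (by positivity)] at h
  unfold cntB
  rw [Set.ncard_eq_toFinset_card _ hfin]
  exact h

theorem cntB_lower {τ : ℤ → ℤ} (hτ : IsStacking τ) (q : E3) {R : ℝ} (hR : 4 ≤ R) :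
    (R - 4) ^ 3 * V1 ≤ (cntB τ Set.univ q R : ℝ) * (4 * Real.sqrt 2) := by
  have hfin := inB_finite hτ Set.univ q R
  have h := le_card_mul hfin.toFinset (fun v => tileB τ v) (closedBall q (R - 4))
    (4 * Real.sqrt 2) (fun p hp => by
      obtain ⟨v, hpv⟩ := tileB_cover τ p
      rw [Set.mem_iUnion₂]
      refine ⟨v, ?_, hpv⟩
      rw [Set.Finite.mem_toFinset]
      refine ⟨Set.mem_univ _, ?_⟩
      have h1 := tileB_subset τ v hpv
      rw [mem_closedBall] at h1 hp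
      have := dist_triangle_left (bpt τ v) q p
      linarith)
    (fun v _ => (vol_tileB τ v).le)
    (fun v _ => ne_top_of_le_ne_top measure_closedBall_lt_top.ne (measure_mono (tileB_subset τ v)))
  rw [vol_closedBall _ (by linarith)] at h
  unfold cntB
  rw [Set.ncard_eq_toFinset_card _ hfin]
  exact h

theorem cntB_split {τ : ℤ → ℤ} (hτ : IsStacking τ) (A : Set (Fin 3 → ℤ)) (q : E3) (R : ℝ) :
    cntB τ Set.univ q R = cntB τ A q R + cntB τ Aᶜ q R := by
  unfold cntB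
  rw [← Set.ncard_union_eq ?_ (inB_finite hτ A q R) (inB_finite hτ Aᶜ q R)]
  · congr 1
    ext v
    constructor
    · rintro ⟨h1, h2⟩
      by_cases hv : v ∈ A
      · exact Or.inl ⟨hv, h2⟩
      · exact Or.inr ⟨hv, h2⟩
    · rintro (⟨h1, h2⟩ | ⟨h1, h2⟩)
      · exact ⟨Set.mem_univ _, h2⟩
      · exact ⟨Set.mem_univ _, h2⟩
  · rw [Set.disjoint_left]
    rintro v ⟨h1, -⟩ ⟨h2, -⟩
    exact h2 h1

theorem thirteenB {τ : ℤ → ℤ} (hτ : IsStacking τ) {A : Set (Fin 3 → ℤ)} (hne : A.Nonempty)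
    (h11 : ∀ a ∈ A, ∀ w w', N τ a w → N τ a w' → w ∉ A → w' ∉ A → w = w') (q : E3) (R : ℝ) :
    13 * cntB τ Aᶜ q R ≤ cntB τ Set.univ q (R + 2) := by
  classical
  have hf1 := inB_finite hτ Aᶜ q R
  have hf2 := inB_finite hτ Set.univ q (R + 2)
  unfold cntB
  rw [Set.ncard_eq_toFinset_card _ hf1, Set.ncard_eq_toFinset_card _ hf2]
  have e : 13 * hf1.toFinset.card = (hf1.toFinset ×ˢ (Finset.univ : Finset (Option (Fin 12)))).card := by
    rw [Finset.card_product]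
    simp [mul_comm]
  rw [e]
  refine Finset.card_le_card_of_injOn
    (fun x => Option.elim x.2 x.1 (fun j => nbr τ x.1 j)) ?_ ?_
  · rintro ⟨s, o⟩ hx
    simp only [Finset.coe_product, Set.mem_prod, Finset.mem_coe, Set.Finite.mem_toFinset] at hx
    simp only [Finset.mem_coe, Set.Finite.mem_toFinset]
    obtain ⟨hs, -⟩ := hx
    cases o with
    | none =>
      simp only [Option.elim]
      exact ⟨Set.mem_univ _, hs.2.trans (by linarith)⟩
    | some j =>
      simp only [Option.elim]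
      refine ⟨Set.mem_univ _, ?_⟩
      have h1 := dist_triangle_left (bpt τ (nbr τ s j)) q (bpt τ s)
      rw [(N_iff τ _ _).2 (N_nbr hτ s j)] at h1
      have := hs.2
      linarith
  · rintro ⟨s, o⟩ hx ⟨s', o'⟩ hx' heq
    simp only [Finset.coe_product, Set.mem_prod, Finset.mem_coe, Set.Finite.mem_toFinset] at hx hx'
    obtain ⟨hs, -⟩ := hx
    obtain ⟨hs', -⟩ := hx'
    cases o with
    | none =>
      cases o' with
      | none =>
        simp only [Option.elim] at heq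
        rw [heq]
      | some j =>
        exfalso
        simp only [Option.elim] at heq
        exact nonadjacent_barlow hτ hne h11 hs'.1 hs.1 (heq ▸ N_nbr hτ s' j)
    | some i =>
      cases o' with
      | none =>
        exfalso
        simp only [Option.elim] at heq
        exact nonadjacent_barlow hτ hne h11 hs.1 hs'.1 (heq ▸ N_nbr hτ s i)
      | some j =>
        simp only [Option.elim] at heq
        have h1 := unique_barlow hτ hne h11 hs.1 hs'.1 (N_nbr hτ s i)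
          (heq ▸ N_nbr hτ s' j)
        subst h1
        rw [nbr_inj hτ s heq]

theorem vol_body_geB {τ : ℤ → ℤ} (hτ : IsStacking τ) (g : E3 ≃ᵢ E3) (A : Set (Fin 3 → ℤ))
    (R : ℝ) : (cntB τ A (g.symm 0) (R - 1) : ℝ) * V1 ≤
      volume.real (closedBall (0 : E3) R ∩ body ((fun w => g (bpt τ w)) '' A)) := by
  have hfin := inB_finite hτ A (g.symm 0) (R - 1)
  unfold cntB
  rw [Set.ncard_eq_toFinset_card _ hfin]
  refine card_mul_le hfin.toFinset (fun v => ball (g (bpt τ v)) 1) _ V1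
    (fun c _ => measurableSet_ball) ?_ ?_ ?_ ?_
  · intro v _ w _ hne
    refine ball_disjoint_ball ?_
    rw [g.dist_eq]
    have := packing_barlow hτ hne
    linarith
  · intro v hv x hx
    rw [mem_ball] at hx
    have hv' := (Set.Finite.mem_toFinset hfin).1 hv
    have hd : dist (g (bpt τ v)) 0 ≤ R - 1 := by
      have h2 := hv'.2
      rwa [← g.dist_eq, g.apply_symm_apply] at h2
    refine ⟨?_, ?_⟩
    · rw [mem_closedBall]
      have := dist_triangle x (g (bpt τ v)) 0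
      linarith
    · unfold body
      rw [Set.mem_iUnion₂]
      exact ⟨g (bpt τ v), ⟨v, hv'.1, rfl⟩, by rw [mem_closedBall]; exact hx.le⟩
  · intro c _
    rw [vol_ball _ zero_le_one]
    ring
  · exact ne_top_of_le_ne_top measure_closedBall_lt_top.ne (measure_mono Set.inter_subset_left)

theorem barlow_lower {τ : ℤ → ℤ} (hτ : IsStacking τ) (g : E3 ≃ᵢ E3) {C : Set E3}
    (hsub : C ⊆ g '' barlow τ) (hC : IsNeighbourPacking 11 C) :
    12 / 13 * (Real.pi / Real.sqrt 18) ≤ lowerDensity C := by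
  obtain ⟨A, rfl⟩ : ∃ A : Set (Fin 3 → ℤ), C = (fun w => g (bpt τ w)) '' A := by
    refine ⟨{v | g (bpt τ v) ∈ C}, ?_⟩
    ext p
    constructor
    · intro hp
      obtain ⟨_, ⟨v, rfl⟩, rfl⟩ := hsub hp
      exact ⟨v, hp, rfl⟩
    · rintro ⟨v, hv, rfl⟩
      exact hv
  obtain ⟨hne, -, hN⟩ := hC
  have h11 : ∀ a ∈ A, ∀ w w', N τ a w → N τ a w' → w ∉ A → w' ∉ A → w = w' := fun a ha =>
    (eleven_barlow hτ g A a).1 (hN (g (bpt τ a)) ⟨a, ha, rfl⟩)
  have hneA : A.Nonempty := Set.image_nonempty.1 hne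
  refine le_lowerDensity (tendsto_comb 5 (-5)) ?_
  filter_upwards [eventually_ge_atTop (7 : ℝ)] with R hR
  have hRpos : 0 < R := by linarith
  have h1 := vol_body_geB hτ g A R
  have h2 := thirteenB hτ hneA h11 (g.symm 0) (R - 1)
  have h3 := cntB_split hτ A (g.symm 0) (R - 1)
  have h4 := cntB_lower hτ (g.symm 0) (R := R - 1) (by linarith)
  have h5 := cntB_upper hτ (g.symm 0) (R := R - 1 + 2) (by linarith)
  have h2' : (13 : ℝ) * cntB τ Aᶜ (g.symm 0) (R - 1) ≤ cntB τ Set.univ (g.symm 0) (R - 1 + 2) := by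
    exact_mod_cast h2
  have h3' : (cntB τ Set.univ (g.symm 0) (R - 1) : ℝ) =
      cntB τ A (g.symm 0) (R - 1) + cntB τ Aᶜ (g.symm 0) (R - 1) := by exact_mod_cast h3
  have hs := sqrt2_pos
  have hV := V1_pos
  rw [vol_closedBall _ hRpos.le, le_div_iff₀ (mul_pos (pow_pos hRpos 3) V1_pos)]
  refine le_trans ?_ h1
  have e : V1 / (52 * Real.sqrt 2) * (13 * ((R - 5) ^ 3 / R ^ 3) - (R - -5) ^ 3 / R ^ 3) *
      (R ^ 3 * V1) = (13 * ((R - 5) ^ 3 * V1) - (R + 5) ^ 3 * V1) / (52 * Real.sqrt 2) * V1 := by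
    field_simp
    ring
  rw [e]
  refine mul_le_mul_of_nonneg_right ?_ hV.le
  rw [div_le_iff₀ (by positivity)]
  have e1 : R - 1 - 4 = R - 5 := by ring
  have e2 : R - 1 + 2 + 4 = R + 5 := by ring
  rw [e1] at h4
  rw [e2] at h5
  nlinarith

/-! ### The cubic stacking with a perfect code removed -/

/-- the stacking sequence of the face-centred cubic lattice packing -/
theorem cubic_stacking : IsStacking (fun n => n) := fun _ => Or.inl rfl

/-- the removed sublattice -/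
def code : Set (Fin 3 → ℤ) := {v | 13 ∣ v 0 + 3 * v 1 + 9 * v 2}

theorem code_unique (v : Fin 3 → ℤ) (i j : Fin 12) (hi : v + nb 1 (-1) i ∈ code)
    (hj : v + nb 1 (-1) j ∈ code) : i = j := by
  have h1 : (13 : ℤ) ∣ (v + nb 1 (-1) i) 0 + 3 * (v + nb 1 (-1) i) 1 + 9 * (v + nb 1 (-1) i) 2 := hi
  have h2 : (13 : ℤ) ∣ (v + nb 1 (-1) j) 0 + 3 * (v + nb 1 (-1) j) 1 + 9 * (v + nb 1 (-1) j) 2 := hj
  have h3 := dvd_sub h1 h2
  simp only [Pi.add_apply] at h3
  have h4 : (13 : ℤ) ∣ (nb 1 (-1) i 0 + 3 * nb 1 (-1) i 1 + 9 * nb 1 (-1) i 2)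
      - (nb 1 (-1) j 0 + 3 * nb 1 (-1) j 1 + 9 * nb 1 (-1) j 2) := by
    rwa [show v 0 + nb 1 (-1) i 0 + 3 * (v 1 + nb 1 (-1) i 1) + 9 * (v 2 + nb 1 (-1) i 2) -
      (v 0 + nb 1 (-1) j 0 + 3 * (v 1 + nb 1 (-1) j 1) + 9 * (v 2 + nb 1 (-1) j 2)) =
      (nb 1 (-1) i 0 + 3 * nb 1 (-1) i 1 + 9 * nb 1 (-1) i 2)
      - (nb 1 (-1) j 0 + 3 * nb 1 (-1) j 1 + 9 * nb 1 (-1) j 2) by ring] at h3
  clear h1 h2 h3 hi hj
  revert i j
  decide

/-- The packing: the face-centred cubic packing without the balls of the code. -/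
def thin : Set E3 := bpt (fun n => n) '' codeᶜ

theorem up_cubic (v : Fin 3 → ℤ) : up (fun n => n) v = 1 := by
  unfold up
  ring

theorem dn_cubic (v : Fin 3 → ℤ) : dn (fun n => n) v = -1 := by
  unfold dn
  ring

theorem thin_packing : IsNeighbourPacking 11 thin := by
  have hid : thin = (fun w => (IsometryEquiv.refl E3) (bpt (fun n => n) w)) '' codeᶜ := rfl
  refine ⟨⟨_, ⟨![1, 0, 0], ?_, rfl⟩⟩, ?_, ?_⟩
  · show ¬ (13 : ℤ) ∣ _
    decide
  · rintro _ ⟨v, _, rfl⟩ _ ⟨w, _, rfl⟩ hne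
    exact packing_barlow cubic_stacking (fun h => hne (by rw [h]))
  · rintro _ ⟨v, hv, rfl⟩
    rw [hid]
    refine (eleven_barlow cubic_stacking (IsometryEquiv.refl E3) codeᶜ v).2 ?_
    intro w w' hw hw' hwc hwc'
    obtain ⟨i, rfl⟩ := exists_nbr cubic_stacking hw
    obtain ⟨j, rfl⟩ := exists_nbr cubic_stacking hw'
    have h1 := not_not.1 hwc
    have h2 := not_not.1 hwc'
    unfold nbr at h1 h2 ⊢
    rw [up_cubic, dn_cubic] at h1 h2 ⊢
    rw [code_unique v i j h1 h2]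

theorem dist_shift (τ : ℤ → ℤ) (v : Fin 3 → ℤ) (t : ℤ) (ht : 0 ≤ t) :
    dist (bpt τ v) (bpt τ (v - ![t, 0, 0])) = 2 * t := by
  have h := dist_bpt τ v (v - ![t, 0, 0])
  have e0 : (v - ![t, 0, 0]) 0 = v 0 - t := rfl
  have e1 : (v - ![t, 0, 0]) 1 = v 1 := by
    show v 1 - 0 = v 1
    ring
  have e2 : (v - ![t, 0, 0]) 2 = v 2 := by
    show v 2 - 0 = v 2
    ring
  rw [e0, e1, e2] at h
  unfold Q at h
  push_cast at h
  have h0 : 0 ≤ dist (bpt τ v) (bpt τ (v - ![t, 0, 0])) := dist_nonneg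
  have ht' : (0 : ℝ) ≤ 2 * t := by
    have : (0 : ℝ) ≤ t := by exact_mod_cast ht
    linarith
  have h1 : dist (bpt τ v) (bpt τ (v - ![t, 0, 0])) ^ 2 = (2 * t) ^ 2 := by
    rw [h]
    ring
  exact (sq_eq_sq₀ h0 ht').1 h1

theorem cnt_code_ge (q : E3) (R : ℝ) :
    cntB (fun n => n) Set.univ q R ≤ 13 * cntB (fun n => n) code q (R + 24) := by
  classical
  have hf1 := inB_finite cubic_stacking Set.univ q R
  have hf2 := inB_finite cubic_stacking code q (R + 24)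
  unfold cntB
  rw [Set.ncard_eq_toFinset_card _ hf1, Set.ncard_eq_toFinset_card _ hf2]
  have e : 13 * hf2.toFinset.card = (hf2.toFinset ×ˢ Finset.Ico (0 : ℤ) 13).card := by
    rw [Finset.card_product]
    simp [mul_comm]
  rw [e]
  refine Finset.card_le_card_of_injOn
    (fun v => (v - ![(v 0 + 3 * v 1 + 9 * v 2) % 13, 0, 0], (v 0 + 3 * v 1 + 9 * v 2) % 13)) ?_ ?_
  · intro v hv
    simp only [Finset.mem_coe, Set.Finite.mem_toFinset] at hv
    simp only [Finset.coe_product, Set.mem_prod, Finset.mem_coe, Set.Finite.mem_toFinset,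
      Finset.mem_Ico]
    have hr0 : 0 ≤ (v 0 + 3 * v 1 + 9 * v 2) % 13 := Int.emod_nonneg _ (by norm_num)
    have hr1 : (v 0 + 3 * v 1 + 9 * v 2) % 13 < 13 := Int.emod_lt_of_pos _ (by norm_num)
    refine ⟨⟨?_, ?_⟩, hr0, hr1⟩
    · show (13 : ℤ) ∣ (v 0 - (v 0 + 3 * v 1 + 9 * v 2) % 13) + 3 * (v 1 - 0) + 9 * (v 2 - 0)
      omega
    · have h1 := dist_shift (fun n => n) v _ hr0
      have h2 := dist_triangle_left (bpt (fun n => n) (v - ![(v 0 + 3 * v 1 + 9 * v 2) % 13, 0, 0]))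
        q (bpt (fun n => n) v)
      have h3 := hv.2
      rw [h1] at h2
      have h4 : (((v 0 + 3 * v 1 + 9 * v 2) % 13 : ℤ) : ℝ) ≤ 12 := by
        have : (v 0 + 3 * v 1 + 9 * v 2) % 13 ≤ 12 := by omega
        exact_mod_cast this
      linarith
  · intro v _ w _ h
    simp only [Prod.mk.injEq] at h
    obtain ⟨h1, h2⟩ := h
    rw [h2] at h1
    exact sub_left_injective h1

theorem vol_thin_le (R : ℝ) :
    volume.real (closedBall (0 : E3) R ∩ body thin) ≤
      (cntB (fun n => n) codeᶜ 0 (R + 1) : ℝ) * V1 := by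
  have hfin := inB_finite cubic_stacking codeᶜ 0 (R + 1)
  unfold cntB
  rw [Set.ncard_eq_toFinset_card _ hfin]
  refine le_card_mul hfin.toFinset (fun v => closedBall (bpt (fun n => n) v) 1) _ V1 ?_ ?_ ?_
  · rintro x ⟨hx1, hx2⟩
    unfold body at hx2
    rw [Set.mem_iUnion₂] at hx2
    obtain ⟨_, ⟨v, hv, rfl⟩, hxv⟩ := hx2
    rw [Set.mem_iUnion₂]
    refine ⟨v, ?_, hxv⟩
    rw [Set.Finite.mem_toFinset]
    refine ⟨hv, ?_⟩
    rw [mem_closedBall] at hx1 hxv
    have := dist_triangle_left (bpt (fun n => n) v) 0 x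
    linarith
  · intro v _
    rw [vol_closedBall _ zero_le_one]
    linarith
  · intro v _
    exact measure_closedBall_lt_top.ne

theorem thin_upper : lowerDensity thin ≤ 12 / 13 * (Real.pi / Real.sqrt 18) := by
  refine lowerDensity_le (tendsto_comb (-5) 27) ?_
  filter_upwards [eventually_ge_atTop (27 : ℝ)] with R hR
  have hRpos : 0 < R := by linarith
  have h1 := vol_thin_le R
  have h3 := cntB_split cubic_stacking code 0 (R + 1)
  have h4 := cnt_code_ge 0 (R + 1 - 24)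
  have h5 := cntB_upper cubic_stacking 0 (R := R + 1) (by linarith)
  have h6 := cntB_lower cubic_stacking 0 (R := R + 1 - 24) (by linarith)
  have h3' : (cntB (fun n => n) Set.univ 0 (R + 1) : ℝ) = cntB (fun n => n) code 0 (R + 1)
      + cntB (fun n => n) codeᶜ 0 (R + 1) := by
    exact_mod_cast h3
  rw [show R + 1 - 24 + 24 = R + 1 by ring] at h4
  have h4' : (cntB (fun n => n) Set.univ 0 (R + 1 - 24) : ℝ) ≤
      13 * cntB (fun n => n) code 0 (R + 1) := by exact_mod_cast h4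
  have hs := sqrt2_pos
  have hV := V1_pos
  rw [vol_closedBall _ hRpos.le, div_le_iff₀ (mul_pos (pow_pos hRpos 3) V1_pos)]
  refine le_trans h1 ?_
  have e : V1 / (52 * Real.sqrt 2) * (13 * ((R - -5) ^ 3 / R ^ 3) - (R - 27) ^ 3 / R ^ 3) *
      (R ^ 3 * V1) = (13 * ((R + 5) ^ 3 * V1) - (R - 27) ^ 3 * V1) / (52 * Real.sqrt 2) * V1 := by
    field_simp
    ring
  rw [e]
  refine mul_le_mul_of_nonneg_right ?_ hV.le
  rw [le_div_iff₀ (by positivity)]
  have e1 : R + 1 - 24 - 4 = R - 27 := by ring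
  have e2 : R + 1 + 4 = R + 5 := by ring
  rw [e1] at h6
  rw [e2] at h5
  nlinarith

theorem thin_sub : thin ⊆ barlow (fun n => n) := by
  rintro _ ⟨v, _, rfl⟩
  exact ⟨v, rfl⟩

theorem thin_density : lowerDensity thin = 12 / 13 * (Real.pi / Real.sqrt 18) := by
  refine le_antisymm thin_upper ?_
  refine barlow_lower cubic_stacking (IsometryEquiv.refl E3) ?_ thin_packing
  intro p hp
  exact ⟨p, thin_sub hp, rfl⟩

theorem min_le : minDensity 11 ≤ 12 / 13 * (Real.pi / Real.sqrt 18) := by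
  refine csInf_le ⟨0, ?_⟩ ⟨thin, thin_packing, thin_density.symm⟩
  rintro d ⟨C, hC, rfl⟩
  exact le_trans (by norm_num) (lower_bound hC)

theorem le_min : 343 / 16000 ≤ minDensity 11 := by
  refine le_csInf ⟨_, thin, thin_packing, rfl⟩ ?_
  rintro d ⟨C, hC, rfl⟩
  exact lower_bound hC

end

end MPdef58e
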