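import Pool.Agent.Work.MP_def58e_co.Radial3

/-!
# MP_def58e_co: the radial estimate with the five near neighbours

At most five of the other vectors are near a given one, and each of them can be responsible only for a
window of directions: this improves the radial estimate.
-/

namespace MPdef58e

open MeasureTheory Set

noncomputable section

/-! ### the function `g²/2 - α (1 - 1/√(1+g²))` -/

/-- `Ψ(g) = g²/2 - α (1 - 1/√(1 + g²))` -/
def Psi (α g : ℝ) : ℝ := g ^ 2 / 2 - α * (1 - 1 / Real.sqrt (1 + g ^ 2))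

theorem cg_facts (g : ℝ) : 0 < 1 / Real.sqrt (1 + g ^ 2) ∧
    (1 / Real.sqrt (1 + g ^ 2)) ^ 2 * (1 + g ^ 2) = 1 := by
  have hs : 0 < Real.sqrt (1 + g ^ 2) := Real.sqrt_pos.2 (by positivity)
  refine ⟨by positivity, ?_⟩
  rw [div_pow, Real.sq_sqrt (by positivity)]
  field_simp

/-- `Ψ` decreases as long as `g² ≤ 1/2` -/
theorem Psi_anti {α g g' : ℝ} (hα : 9 / 4 ≤ α) (h0 : 0 ≤ g') (h1 : g' ≤ g) (h2 : g ^ 2 ≤ 1 / 2) :
    Psi α g ≤ Psi α g' := by
  obtain ⟨a1, a2⟩ := cg_facts g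
  obtain ⟨b1, b2⟩ := cg_facts g'
  unfold Psi
  set x := 1 / Real.sqrt (1 + g ^ 2) with hx
  set x' := 1 / Real.sqrt (1 + g' ^ 2) with hx'
  clear_value x x'
  have hg : g' ^ 2 ≤ g ^ 2 := pow_le_pow_left₀ h0 h1 2
  have hxx : x ≤ x' := by
    have : x ^ 2 ≤ x' ^ 2 := by
      by_contra hc
      push Not at hc
      nlinarith [sq_nonneg x, sq_nonneg x']
    exact le_of_pow_le_pow_left₀ two_ne_zero b1.le this
  have hx2 : 2 / 3 ≤ x ^ 2 := by nlinarith [sq_nonneg x]
  have hx'2 : 2 / 3 ≤ x' ^ 2 := hx2.trans (pow_le_pow_left₀ a1.le hxx 2)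
  have hx1 : x' ≤ 1 := by
    have : x' ^ 2 ≤ 1 ^ 2 := by nlinarith [sq_nonneg x', sq_nonneg g']
    exact le_of_pow_le_pow_left₀ two_ne_zero zero_le_one this
  have hgx : g ^ 2 = 1 / x ^ 2 - 1 := by
    have : x ^ 2 ≠ 0 := by positivity
    field_simp
    linarith
  have hgx' : g' ^ 2 = 1 / x' ^ 2 - 1 := by
    have : x' ^ 2 ≠ 0 := by positivity
    field_simp
    linarith
  have key : 1 / x ^ 2 - 1 / x' ^ 2 = (x' - x) * ((x' + x) / (x ^ 2 * x' ^ 2)) := by
    have e1 : x ≠ 0 := a1.ne'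
    have e2 : x' ≠ 0 := b1.ne'
    field_simp
    ring
  have h3 : (x' + x) / (x ^ 2 * x' ^ 2) ≤ 9 / 2 := by
    rw [div_le_iff₀ (by positivity)]
    have h4 : 4 / 9 ≤ x ^ 2 * x' ^ 2 := by nlinarith
    nlinarith
  have h4 := mul_le_mul_of_nonneg_left h3 (sub_nonneg.2 hxx)
  have h5 : 9 / 2 * (x' - x) ≤ 2 * α * (x' - x) :=
    mul_le_mul_of_nonneg_right (by linarith) (sub_nonneg.2 hxx)
  rw [hgx, hgx']
  nlinarith

/-- the constants -/
def al (h : ℝ) : ℝ := 3 / 4 * (Real.sqrt (2 / 3) + h) / h ^ 2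

def ga (h : ℝ) : ℝ := al h * (1 - Real.sqrt (2 / 3)) - 1 / 4

theorem sqrt23_bounds : (0.816496 : ℝ) ≤ Real.sqrt (2 / 3) ∧ Real.sqrt (2 / 3) ≤ 0.816497 := by
  constructor
  · exact Real.le_sqrt_of_sq_le (by norm_num)
  · rw [Real.sqrt_le_left (by norm_num)]
    norm_num

theorem al_ge {h : ℝ} (hh : 0 < h) (hh1 : h ≤ 1 / 2) : 39 / 10 ≤ al h := by
  obtain ⟨h1, h2⟩ := sqrt23_bounds
  unfold al
  rw [le_div_iff₀ (by positivity)]
  nlinarith

/-- the chord -/
theorem Psi_far {h g : ℝ} (hh : 0 < h) (hh1 : h ≤ 1 / 2) (h1 : g ^ 2 ≤ 1 / h ^ 2 - 1)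
    (h2 : 1 / 2 ≤ g ^ 2) : Psi (al h) g ≤ - ga h := by
  obtain ⟨hs1, hs2⟩ := sqrt23_bounds
  have hsq : Real.sqrt (2 / 3) ^ 2 = 2 / 3 := Real.sq_sqrt (by norm_num)
  obtain ⟨a1, a2⟩ := cg_facts g
  unfold Psi ga
  set x := 1 / Real.sqrt (1 + g ^ 2) with hx
  set s := Real.sqrt (2 / 3) with hs
  have hxh : h ≤ x := by
    have h3 : (1 + g ^ 2) * h ^ 2 ≤ 1 := by
      have : 1 + g ^ 2 ≤ 1 / h ^ 2 := by linarith
      rwa [le_div_iff₀ (by positivity)] at this
    have h4 : h ^ 2 ≤ x ^ 2 := by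
      by_contra hc
      push Not at hc
      nlinarith [sq_nonneg g]
    exact le_of_pow_le_pow_left₀ two_ne_zero a1.le h4
  have hx0 : x ≤ s := by
    have h4 : x ^ 2 ≤ s ^ 2 := by
      rw [hsq]
      nlinarith [sq_nonneg x]
    exact le_of_pow_le_pow_left₀ two_ne_zero (by linarith) h4
  have hg2 : g ^ 2 = 1 / x ^ 2 - 1 := by
    have : x ^ 2 ≠ 0 := by positivity
    field_simp
    linarith
  have h5 : (s + x) / x ^ 2 ≤ (s + h) / h ^ 2 := by
    have a1' : s / x ^ 2 ≤ s / h ^ 2 :=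
      div_le_div_of_nonneg_left (by linarith) (by positivity) (pow_le_pow_left₀ hh.le hxh 2)
    have a2' : x / x ^ 2 ≤ h / h ^ 2 := by
      have b1 : x / x ^ 2 = 1 / x := by field_simp
      have b2 : h / h ^ 2 = 1 / h := by field_simp
      rw [b1, b2]
      exact one_div_le_one_div_of_le hh hxh
    rw [add_div, add_div]
    linarith
  have h6 : 1 / x ^ 2 - 3 / 2 = 3 / 2 * ((s - x) * ((s + x) / x ^ 2)) := by
    have : x ≠ 0 := a1.ne'
    field_simp
    nlinarith
  have h7 : 1 / x ^ 2 - 3 / 2 ≤ 2 * al h * (s - x) := by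
    rw [h6]
    have h8 := mul_le_mul_of_nonneg_left h5 (show 0 ≤ s - x by linarith)
    unfold al
    calc 3 / 2 * ((s - x) * ((s + x) / x ^ 2)) ≤ 3 / 2 * ((s - x) * ((s + h) / h ^ 2)) := by linarith
      _ = _ := by ring
  rw [hg2]
  linarith

/-- the gain in a window, `C` = cosine of the angle to the direction of the neighbour -/
def E0 (h C : ℝ) : ℝ := Psi (al h) (Real.sqrt 3 / 3 / C) + ga h

/-- the same, zero outside the window -/
def Eh (h C : ℝ) : ℝ := E0 h (max C (Real.sqrt (2 / 3)))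

theorem E0_s (h : ℝ) : E0 h (Real.sqrt (2 / 3)) = 0 := by
  have hs : 0 < Real.sqrt (2 / 3) := by positivity
  have e1 : (Real.sqrt 3 / 3 / Real.sqrt (2 / 3)) ^ 2 = 1 / 2 := by
    rw [div_pow, div_pow, Real.sq_sqrt (by norm_num), Real.sq_sqrt (by norm_num)]
    norm_num
  have e2 : 1 / Real.sqrt (1 + 1 / 2) = Real.sqrt (2 / 3) := by
    rw [show (1 : ℝ) + 1 / 2 = (2 / 3)⁻¹ by norm_num, Real.sqrt_inv, one_div, inv_inv]
  unfold E0 Psi ga
  rw [e1, e2]
  ring

theorem Eh_nonneg {h : ℝ} (hh : 0 < h) (hh1 : h ≤ 1 / 2) (C : ℝ) : 0 ≤ Eh h C := by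
  have hs : 0 < Real.sqrt (2 / 3) := by positivity
  unfold Eh
  rw [← E0_s h]
  unfold E0
  have hm : Real.sqrt (2 / 3) ≤ max C (Real.sqrt (2 / 3)) := le_max_right _ _
  have h1 : Real.sqrt 3 / 3 / max C (Real.sqrt (2 / 3)) ≤ Real.sqrt 3 / 3 / Real.sqrt (2 / 3) :=
    div_le_div_of_nonneg_left (by positivity) hs hm
  have e1 : (Real.sqrt 3 / 3 / Real.sqrt (2 / 3)) ^ 2 = 1 / 2 := by
    rw [div_pow, div_pow, Real.sq_sqrt (by norm_num), Real.sq_sqrt (by norm_num)]
    norm_num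
  have h2 := Psi_anti (α := al h) (g := Real.sqrt 3 / 3 / Real.sqrt (2 / 3))
    (g' := Real.sqrt 3 / 3 / max C (Real.sqrt (2 / 3))) (by linarith [al_ge hh hh1])
    (by positivity) h1 (le_of_eq e1)
  linarith

theorem Eh_cont (h : ℝ) : Continuous (Eh h) := by
  have hs : 0 < Real.sqrt (2 / 3) := by positivity
  have h1 : Continuous fun C : ℝ => Real.sqrt 3 / 3 / max C (Real.sqrt (2 / 3)) := by
    refine continuous_const.div (continuous_id.max continuous_const) fun C => ?_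
    exact (lt_of_lt_of_le hs (le_max_right _ _)).ne'
  have h2 : Continuous fun g : ℝ => Psi (al h) g := by
    unfold Psi
    refine ((continuous_pow 2).div_const 2).sub (continuous_const.mul (continuous_const.sub ?_))
    refine continuous_const.div (Real.continuous_sqrt.comp (by fun_prop)) fun g => ?_
    exact (Real.sqrt_pos.2 (by positivity)).ne'
  unfold Eh E0
  exact (h2.comp h1).add continuous_const

/-! ### the integral of a window -/

/-- the half width of the window -/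
def om : ℝ := Real.arcsin (Real.sqrt 3 / 3)

/-- the integral over half of the window -/
def Jh (h : ℝ) : ℝ := Real.sqrt 2 / 12 - al h * (om - Real.pi / 6) + ga h * om

theorem sin_om : Real.sin om = Real.sqrt 3 / 3 := by
  obtain ⟨h1, h2⟩ := sqrt3_bounds
  exact Real.sin_arcsin (by linarith) (by linarith)

theorem om_pos : 0 < om := Real.arcsin_pos.2 (by positivity)

theorem om_lt : om < Real.pi / 2 := by
  obtain ⟨h1, h2⟩ := sqrt3_bounds
  exact Real.arcsin_lt_pi_div_two.2 (by linarith)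

theorem cos_om : Real.cos om = Real.sqrt (2 / 3) := by
  unfold om
  rw [Real.cos_arcsin, div_pow, Real.sq_sqrt (by norm_num)]
  norm_num

/-- the antiderivative -/
def Ga (h φ : ℝ) : ℝ := Real.tan φ / 6 - al h * (φ - Real.arcsin (Real.sqrt 3 / 2 * Real.sin φ)) + ga h * φ

theorem Ga_deriv (h : ℝ) {φ : ℝ} (hφ : φ ∈ Set.Icc (-om) om) :
    HasDerivAt (Ga h) (E0 h (Real.cos φ)) φ := by
  obtain ⟨h1, h2⟩ := hφ
  have ho := om_lt
  have hc : 0 < Real.cos φ := Real.cos_pos_of_mem_Ioo ⟨by linarith, by linarith⟩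
  have hsc := Real.sin_sq_add_cos_sq φ
  have h3 : Real.sqrt 3 ^ 2 = 3 := Real.sq_sqrt (by norm_num)
  have hs3 : 0 < Real.sqrt 3 := by positivity
  have hlt : (Real.sqrt 3 / 2 * Real.sin φ) ^ 2 < 1 := by
    rw [mul_pow, div_pow, h3]
    nlinarith [sq_nonneg (Real.sin φ), sq_nonneg (Real.cos φ)]
  have hlt' := abs_lt.1 ((sq_lt_one_iff_abs_lt_one _).1 hlt)
  have d1 : HasDerivAt Real.tan (1 / Real.cos φ ^ 2) φ := Real.hasDerivAt_tan hc.ne'
  have d2 : HasDerivAt (fun y => Real.arcsin (Real.sqrt 3 / 2 * Real.sin y))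
      (1 / Real.sqrt (1 - (Real.sqrt 3 / 2 * Real.sin φ) ^ 2) * (Real.sqrt 3 / 2 * Real.cos φ)) φ := by
    have d0 := Real.hasDerivAt_arcsin hlt'.1.ne' hlt'.2.ne
    have d4 := (Real.hasDerivAt_sin φ).const_mul (Real.sqrt 3 / 2)
    change HasDerivAt (Real.arcsin ∘ fun y => Real.sqrt 3 / 2 * Real.sin y) _ φ
    exact HasDerivAt.comp φ d0 d4
  have d3 : HasDerivAt (Ga h) (1 / Real.cos φ ^ 2 / 6 - al h * (1 -
      1 / Real.sqrt (1 - (Real.sqrt 3 / 2 * Real.sin φ) ^ 2) * (Real.sqrt 3 / 2 * Real.cos φ)) +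
      ga h * 1) φ :=
    ((d1.div_const 6).sub (((hasDerivAt_id φ).sub d2).const_mul (al h))).add
      ((hasDerivAt_id φ).const_mul (ga h))
  refine d3.congr_deriv ?_
  unfold E0 Psi
  have e1 : (Real.sqrt 3 / 3 / Real.cos φ) ^ 2 = 1 / (3 * Real.cos φ ^ 2) := by
    rw [div_pow, div_pow, h3]
    field_simp
  have e2 : 1 / Real.sqrt (1 + (Real.sqrt 3 / 3 / Real.cos φ) ^ 2) =
      1 / Real.sqrt (1 - (Real.sqrt 3 / 2 * Real.sin φ) ^ 2) * (Real.sqrt 3 / 2 * Real.cos φ) := by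
    have e3 : 1 + (Real.sqrt 3 / 3 / Real.cos φ) ^ 2 =
        (1 - (Real.sqrt 3 / 2 * Real.sin φ) ^ 2) / (Real.sqrt 3 / 2 * Real.cos φ) ^ 2 := by
      rw [e1, mul_pow, mul_pow, div_pow, h3]
      have : Real.sin φ ^ 2 = 1 - Real.cos φ ^ 2 := by linarith
      rw [this]
      field_simp
      ring
    rw [e3, Real.sqrt_div (by linarith), Real.sqrt_sq (by positivity)]
    rw [one_div_div]
    ring
  have e4 : 1 / Real.cos φ ^ 2 / 6 = 1 / (3 * Real.cos φ ^ 2) / 2 := by
    rw [div_div, div_div]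
    congr 1
    ring
  rw [e2, e1, e4]
  ring

theorem E0_cont (h : ℝ) : ContinuousOn (fun φ => E0 h (Real.cos φ)) (Set.uIcc (-om) om) := by
  have ho := om_lt
  have hop := om_pos
  have h2 : Continuous fun g : ℝ => Psi (al h) g := by
    unfold Psi
    refine ((continuous_pow 2).div_const 2).sub (continuous_const.mul (continuous_const.sub ?_))
    refine continuous_const.div (Real.continuous_sqrt.comp (by fun_prop)) fun g => ?_
    exact (Real.sqrt_pos.2 (by positivity)).ne'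
  unfold E0
  refine ContinuousOn.add ?_ continuousOn_const
  refine h2.comp_continuousOn ?_
  refine ContinuousOn.div continuousOn_const Real.continuous_cos.continuousOn fun φ hφ => ?_
  rw [Set.uIcc_of_le (by linarith)] at hφ
  exact (Real.cos_pos_of_mem_Ioo ⟨by linarith [hφ.1], by linarith [hφ.2]⟩).ne'

theorem window_mid (h : ℝ) : ∫ φ in (-om)..om, E0 h (Real.cos φ) = 2 * Jh h := by
  have hop := om_pos
  rw [intervalIntegral.integral_eq_sub_of_hasDerivAt (f := Ga h)
    (fun φ hφ => Ga_deriv h (by rwa [Set.uIcc_of_le (by linarith)] at hφ))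
    (E0_cont h).intervalIntegrable]
  have e1 : Real.tan om = Real.sqrt 2 / 2 := by
    rw [Real.tan_eq_sin_div_cos, sin_om, cos_om]
    have h2 : Real.sqrt (2 / 3) = Real.sqrt 2 / Real.sqrt 3 := Real.sqrt_div (by norm_num) 3
    have h3 : Real.sqrt 3 ^ 2 = 3 := Real.sq_sqrt (by norm_num)
    have h4 : Real.sqrt 2 ^ 2 = 2 := Real.sq_sqrt (by norm_num)
    have h5 : 0 < Real.sqrt 3 := by positivity
    have h6 : 0 < Real.sqrt 2 := by positivity
    rw [h2]
    field_simp
    nlinarith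
  have e2 : Real.arcsin (Real.sqrt 3 / 2 * Real.sin om) = Real.pi / 6 := by
    rw [sin_om]
    have h3 : Real.sqrt 3 * Real.sqrt 3 = 3 := Real.mul_self_sqrt (by norm_num)
    have : Real.sqrt 3 / 2 * (Real.sqrt 3 / 3) = 1 / 2 := by linarith
    rw [this, ← Real.sin_pi_div_six]
    exact Real.arcsin_sin (by linarith [Real.pi_pos]) (by linarith [Real.pi_pos])
  unfold Ga Jh
  rw [Real.tan_neg, Real.sin_neg, mul_neg, Real.arcsin_neg, e1, e2]
  ring

theorem window_all (h : ℝ) : ∫ φ in (-Real.pi)..Real.pi, Eh h (Real.cos φ) = 2 * Jh h := by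
  have hop := om_pos
  have ho := om_lt
  have hpi := Real.pi_pos
  have hcont : Continuous fun φ => Eh h (Real.cos φ) := (Eh_cont h).comp Real.continuous_cos
  have hint : ∀ a b : ℝ, IntervalIntegrable (fun φ => Eh h (Real.cos φ)) volume a b :=
    fun a b => hcont.intervalIntegrable a b
  rw [← intervalIntegral.integral_add_adjacent_intervals (hint (-Real.pi) (-om)) (hint (-om) Real.pi),
    ← intervalIntegral.integral_add_adjacent_intervals (hint (-om) om) (hint om Real.pi)]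
  have z : ∀ φ : ℝ, om ≤ |φ| → |φ| ≤ Real.pi → Eh h (Real.cos φ) = 0 := by
    intro φ h1 h2
    have h3 : Real.cos φ ≤ Real.sqrt (2 / 3) := by
      rw [← Real.cos_abs, ← cos_om]
      exact Real.cos_le_cos_of_nonneg_of_le_pi hop.le h2 h1
    unfold Eh
    rw [max_eq_right h3, E0_s]
  have e1 : ∫ φ in (-Real.pi)..(-om), Eh h (Real.cos φ) = 0 := by
    rw [intervalIntegral.integral_congr (g := fun _ => (0 : ℝ))]
    · simp
    · intro φ hφ
      rw [Set.uIcc_of_le (by linarith)] at hφ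
      refine z φ ?_ ?_
      · rw [abs_of_nonpos (by linarith [hφ.2])]
        linarith [hφ.2]
      · rw [abs_of_nonpos (by linarith [hφ.2])]
        linarith [hφ.1]
  have e2 : ∫ φ in om..Real.pi, Eh h (Real.cos φ) = 0 := by
    rw [intervalIntegral.integral_congr (g := fun _ => (0 : ℝ))]
    · simp
    · intro φ hφ
      rw [Set.uIcc_of_le (by linarith)] at hφ
      refine z φ ?_ ?_
      · rw [abs_of_nonneg (by linarith [hφ.1])]
        linarith [hφ.1]
      · rw [abs_of_nonneg (by linarith [hφ.1])]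
        linarith [hφ.2]
  have e3 : ∫ φ in (-om)..om, Eh h (Real.cos φ) = 2 * Jh h := by
    rw [← window_mid]
    refine intervalIntegral.integral_congr fun φ hφ => ?_
    rw [Set.uIcc_of_le (by linarith)] at hφ
    have h3 : Real.sqrt (2 / 3) ≤ Real.cos φ := by
      rw [← Real.cos_abs φ, ← cos_om]
      exact Real.cos_le_cos_of_nonneg_of_le_pi (abs_nonneg _) (by linarith) (abs_le.2 hφ)
    unfold Eh
    rw [max_eq_left h3]
  rw [e1, e2, e3]
  ring

/-- **the integral of the window around any direction** -/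
theorem window_lint {h : ℝ} (hh : 0 < h) (hh1 : h ≤ 1 / 2) (ψ : ℝ) :
    ∫⁻ φ in Set.Ioo (-Real.pi) Real.pi, ENNReal.ofReal (Eh h (Real.cos (φ - ψ))) =
      ENNReal.ofReal (2 * Jh h) := by
  have hpi := Real.pi_pos
  have hcont : Continuous fun φ => Eh h (Real.cos (φ - ψ)) :=
    (Eh_cont h).comp (Real.continuous_cos.comp (by fun_prop))
  rw [← ofReal_integral_eq_lintegral_ofReal]
  · congr 1
    rw [← integral_Ioc_eq_integral_Ioo, ← intervalIntegral.integral_of_le (by linarith)]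
    rw [intervalIntegral.integral_comp_sub_right (fun φ => Eh h (Real.cos φ))]
    have hper : Function.Periodic (fun φ => Eh h (Real.cos φ)) (2 * Real.pi) := by
      intro φ
      simp only [Real.cos_add_two_pi]
    have h1 := hper.intervalIntegral_add_eq (-Real.pi - ψ) (-Real.pi)
    rw [show -Real.pi - ψ + 2 * Real.pi = Real.pi - ψ by ring,
      show -Real.pi + 2 * Real.pi = Real.pi by ring] at h1
    rw [h1, window_all]
  · exact (hcont.integrableOn_Icc (a := -Real.pi) (b := Real.pi)).mono_set Set.Ioo_subset_Icc_self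
  · filter_upwards with φ
    exact Eh_nonneg hh hh1 _

end

end MPdef58e
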