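import Pool.Agent.Work.MP_def58e_co.Penta

/-!
# MP_def58e_co: the radial estimate with the five near neighbours: planar part and directions
-/

namespace MPdef58e

open MeasureTheory Set

noncomputable section

theorem radial_one' {T : Set ℝ} {g0 g1 : ℝ} (h0 : 0 < g0) (hT0 : ∀ r, 0 < r → r < g0 → r ∈ T)
    (hT1 : ∀ r ∈ T, 0 < r ∧ r ≤ g1) (hd : ∀ r ∈ T, ∀ s, 0 < s → s < r → s ∈ T) :
    ∃ g, g0 ≤ g ∧ g ≤ g1 ∧ T =ᵐ[volume] Set.Ioc 0 g ∧ ∀ r, g < r → r ∉ T := by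
  have hne : T.Nonempty := ⟨g0 / 2, hT0 _ (by linarith) (by linarith)⟩
  have hbd : BddAbove T := ⟨g1, fun r hr => (hT1 r hr).2⟩
  refine ⟨sSup T, ?_, csSup_le hne fun r hr => (hT1 r hr).2, ?_,
    fun r hr hrT => absurd (le_csSup hbd hrT) (not_le.2 hr)⟩
  · refine le_of_forall_lt_imp_le_of_dense fun r hr => ?_
    rcases le_or_gt r 0 with hr0 | hr0
    · exact hr0.trans ((hT1 _ hne.some_mem).1.le.trans (le_csSup hbd hne.some_mem))
    · exact le_csSup hbd (hT0 r hr0 hr)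
  · have h1 : Set.Ioo 0 (sSup T) ⊆ T := by
      intro r hr
      obtain ⟨t, ht, hrt⟩ := exists_lt_of_lt_csSup hne hr.2
      exact hd t ht r hr.1 hrt
    have h2 : T ⊆ Set.Ioc 0 (sSup T) := fun r hr => ⟨(hT1 r hr).1, le_csSup hbd hr⟩
    have h3 : (Set.Ioo 0 (sSup T) : Set ℝ) =ᵐ[volume] Set.Ioc 0 (sSup T) := Ioo_ae_eq_Ioc
    refine Filter.EventuallyLE.antisymm h2.eventuallyLE ?_
    exact h3.symm.le.trans h1.eventuallyLE

/-- **the planar estimate with an exceptional part** -/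
theorem plane_le2 {F : Set (ℝ × ℝ)} (hF : MeasurableSet F) {g0 g1 α γ : ℝ} (h0 : 0 < g0)
    (hα : 0 ≤ α) (hγ : 0 ≤ γ) {E : ℝ → ℝ} (hE0 : ∀ φ, 0 ≤ E φ) (hEm : Measurable E)
    (hF0 : ∀ w : ℝ × ℝ, w.1 ^ 2 + w.2 ^ 2 < g0 ^ 2 → w ∈ F)
    (hF1 : ∀ w ∈ F, w.1 ^ 2 + w.2 ^ 2 ≤ g1 ^ 2) (hg1 : 0 ≤ g1)
    (hst : ∀ w ∈ F, ∀ s : ℝ, 0 < s → s < 1 → s • w ∈ F)
    (hineq : ∀ φ g, g0 ≤ g → g ≤ g1 →
      (∀ r, g < r → ((r * Real.cos φ, r * Real.sin φ) : ℝ × ℝ) ∉ F) →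
      g ^ 2 / 2 + γ ≤ α * (1 - 1 / Real.sqrt (1 + g ^ 2)) + E φ) :
    volume F + ENNReal.ofReal (2 * Real.pi * γ) ≤
      ENNReal.ofReal α * (∫⁻ w in F, ENNReal.ofReal (cn w ^ 3)) +
        (∫⁻ φ in Set.Ioo (-Real.pi) Real.pi, ENNReal.ofReal (E φ)) := by
  have h1 : volume F = ∫⁻ φ in Set.Ioo (-Real.pi) Real.pi,
      ∫⁻ r in {r : ℝ | 0 < r ∧ (r * Real.cos φ, r * Real.sin φ) ∈ F}, ENNReal.ofReal r := by
    rw [← setLIntegral_one, polar_lint hF measurable_const]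
    simp only [mul_one]
  have h2 : ENNReal.ofReal (2 * Real.pi * γ) =
      ∫⁻ _φ in Set.Ioo (-Real.pi) Real.pi, ENNReal.ofReal γ := by
    rw [setLIntegral_const, Real.volume_Ioo, mul_comm, ← ENNReal.ofReal_mul (by linarith [Real.pi_pos])]
    congr 1
    ring
  have hm3 : Measurable fun w : ℝ × ℝ => ENNReal.ofReal (cn w ^ 3) :=
    ENNReal.measurable_ofReal.comp (cn_cont.measurable.pow_const 3)
  have h4 : ENNReal.ofReal α * ∫⁻ w in F, ENNReal.ofReal (cn w ^ 3) =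
      ∫⁻ φ in Set.Ioo (-Real.pi) Real.pi, ENNReal.ofReal α *
        ∫⁻ r in {r : ℝ | 0 < r ∧ (r * Real.cos φ, r * Real.sin φ) ∈ F},
          ENNReal.ofReal r * ENNReal.ofReal (cn (r * Real.cos φ, r * Real.sin φ) ^ 3) := by
    rw [polar_lint hF hm3, ← lintegral_const_mul' _ _ ENNReal.ofReal_ne_top]
  have hEm' : Measurable fun φ => ENNReal.ofReal (E φ) := ENNReal.measurable_ofReal.comp hEm
  rw [h1, h2, h4, ← lintegral_add_right _ measurable_const, ← lintegral_add_right _ hEm']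
  refine lintegral_mono fun φ => ?_
  have hsc := Real.sin_sq_add_cos_sq φ
  have hn : ∀ r : ℝ, (r * Real.cos φ) ^ 2 + (r * Real.sin φ) ^ 2 = r ^ 2 := by
    intro r
    calc (r * Real.cos φ) ^ 2 + (r * Real.sin φ) ^ 2 =
        r ^ 2 * (Real.sin φ ^ 2 + Real.cos φ ^ 2) := by ring
      _ = r ^ 2 := by rw [hsc, mul_one]
  obtain ⟨g, hg0, hgg1, hae, hout⟩ := radial_one'
    (T := {r : ℝ | 0 < r ∧ (r * Real.cos φ, r * Real.sin φ) ∈ F})
    (g0 := g0) (g1 := g1) h0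
    (fun r hr hr0 => ⟨hr, hF0 _ (by
      simp only
      rw [hn]
      exact pow_lt_pow_left₀ hr0 hr.le two_ne_zero)⟩)
    (fun r hr => ⟨hr.1, by
      have := hF1 _ hr.2
      simp only at this
      rw [hn] at this
      exact le_of_pow_le_pow_left₀ two_ne_zero hg1 this⟩)
    (fun r hr s hs hsr => ⟨hs, by
      have hr0 := hr.1
      have := hst _ hr.2 (s / r) (div_pos hs hr0) ((div_lt_one hr0).2 hsr)
      have e : (s / r) • ((r * Real.cos φ, r * Real.sin φ) : ℝ × ℝ) =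
          (s * Real.cos φ, s * Real.sin φ) := by
        ext
        · simp only [Prod.smul_mk, smul_eq_mul]
          field_simp
        · simp only [Prod.smul_mk, smul_eq_mul]
          field_simp
      rwa [e] at this⟩)
  have hgpos : 0 ≤ g := h0.le.trans hg0
  have hgpos' : 0 < g := lt_of_lt_of_le h0 hg0
  simp only
  rw [setLIntegral_congr hae, setLIntegral_congr hae, lint_r hgpos]
  have h3 : ∫⁻ r in Set.Ioc 0 g, ENNReal.ofReal r *
      ENNReal.ofReal (cn (r * Real.cos φ, r * Real.sin φ) ^ 3) =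
      ∫⁻ r in Set.Ioc 0 g, ENNReal.ofReal (r * (1 / Real.sqrt (1 + r ^ 2)) ^ 3) := by
    refine setLIntegral_congr_fun measurableSet_Ioc fun r hr => ?_
    rw [cn_polar, ← ENNReal.ofReal_mul hr.1.le]
  have hc : 0 ≤ 1 - 1 / Real.sqrt (1 + g ^ 2) := by
    obtain ⟨c1, c2⟩ := cg_facts g
    set x := 1 / Real.sqrt (1 + g ^ 2) with hx
    have : x ^ 2 ≤ 1 ^ 2 := by nlinarith [sq_nonneg x, sq_nonneg g]
    have := le_of_pow_le_pow_left₀ two_ne_zero zero_le_one this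
    linarith
  rw [h3, lint_c hgpos, ← ENNReal.ofReal_mul hα, ← ENNReal.ofReal_add (by positivity) hγ,
    ← ENNReal.ofReal_add (by positivity) (hE0 φ)]
  refine ENNReal.ofReal_le_ofReal (hineq φ g hg0 hgg1 fun r hr hrF => hout r hr ⟨by linarith, hrF⟩)

/-! ### at most five directions -/

/-- Delsarte's method on the circle -/
theorem card_dir {ι : Type*} (N : Finset ι) (θ : ι → ℝ)
    (h : ∀ j ∈ N, ∀ k ∈ N, j ≠ k → Real.cos (θ j - θ k) ≤ 7 / 16) : N.card ≤ 5 := by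
  classical
  have hpos : ∀ m : ℝ, 0 ≤ ∑ j ∈ N, ∑ k ∈ N, Real.cos (m * (θ j - θ k)) := by
    intro m
    have e : ∑ j ∈ N, ∑ k ∈ N, Real.cos (m * (θ j - θ k)) =
        (∑ j ∈ N, Real.cos (m * θ j)) ^ 2 + (∑ j ∈ N, Real.sin (m * θ j)) ^ 2 := by
      rw [sq, sq, Finset.sum_mul_sum, Finset.sum_mul_sum, ← Finset.sum_add_distrib]
      refine Finset.sum_congr rfl fun j _ => ?_
      rw [← Finset.sum_add_distrib]
      refine Finset.sum_congr rfl fun k _ => ?_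
      rw [mul_sub, Real.cos_sub]
    rw [e]
    positivity
  set f : ℝ → ℝ := fun t => (t - 7 / 16) * (t + 1 / 2) ^ 2 * (t + 1) with hf
  have hexp : ∀ x : ℝ, f (Real.cos x) = 29 / 64 + 7 / 8 * Real.cos (1 * x) + 11 / 16 * Real.cos (2 * x) +
      25 / 64 * Real.cos (3 * x) + 1 / 8 * Real.cos (4 * x) := by
    intro x
    rw [hf, one_mul, Real.cos_three_mul, show (4 : ℝ) * x = 2 * (2 * x) by ring,
      Real.cos_two_mul (2 * x), Real.cos_two_mul x]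
    ring
  have h1 : (29 / 64 : ℝ) * (N.card : ℝ) ^ 2 ≤ ∑ j ∈ N, ∑ k ∈ N, f (Real.cos (θ j - θ k)) := by
    have e : ∑ j ∈ N, ∑ k ∈ N, f (Real.cos (θ j - θ k)) = 29 / 64 * (N.card : ℝ) ^ 2 +
        7 / 8 * (∑ j ∈ N, ∑ k ∈ N, Real.cos (1 * (θ j - θ k))) +
        11 / 16 * (∑ j ∈ N, ∑ k ∈ N, Real.cos (2 * (θ j - θ k))) +
        25 / 64 * (∑ j ∈ N, ∑ k ∈ N, Real.cos (3 * (θ j - θ k))) +
        1 / 8 * (∑ j ∈ N, ∑ k ∈ N, Real.cos (4 * (θ j - θ k))) := by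
      simp only [hexp, Finset.sum_add_distrib, Finset.mul_sum, Finset.sum_const, nsmul_eq_mul]
      ring
    rw [e]
    have := hpos 1
    have := hpos 2
    have := hpos 3
    have := hpos 4
    linarith
  have h2 : ∑ j ∈ N, ∑ k ∈ N, f (Real.cos (θ j - θ k)) ≤ 81 / 32 * (N.card : ℝ) := by
    have h3 : ∀ j ∈ N, ∑ k ∈ N, f (Real.cos (θ j - θ k)) ≤ 81 / 32 := by
      intro j hj
      rw [← Finset.add_sum_erase N _ hj]
      have e1 : f (Real.cos (θ j - θ j)) = 81 / 32 := by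
        rw [sub_self, Real.cos_zero, hf]
        norm_num
      have e2 : ∑ k ∈ N.erase j, f (Real.cos (θ j - θ k)) ≤ 0 := by
        refine Finset.sum_nonpos fun k hk => ?_
        have hk' := Finset.mem_erase.1 hk
        have h4 := h j hj k hk'.2 hk'.1.symm
        have h5 := Real.neg_one_le_cos (θ j - θ k)
        rw [hf]
        have h6 : 0 ≤ (Real.cos (θ j - θ k) + 1 / 2) ^ 2 * (Real.cos (θ j - θ k) + 1) :=
          mul_nonneg (sq_nonneg _) (by linarith)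
        simp only
        nlinarith
      rw [e1]
      linarith
    calc ∑ j ∈ N, ∑ k ∈ N, f (Real.cos (θ j - θ k)) ≤ ∑ _j ∈ N, (81 / 32 : ℝ) := Finset.sum_le_sum h3
      _ = _ := by
        rw [Finset.sum_const, nsmul_eq_mul]
        ring
  by_contra hc
  push Not at hc
  have h3 : (6 : ℝ) ≤ (N.card : ℝ) := by exact_mod_cast hc
  nlinarith

/-- the angle of two near neighbours -/
theorem near_cos {a b c : ℝ} (ha : 1 / 3 ≤ a) (ha' : a ≤ 1 / 2) (hb : 1 / 3 ≤ b) (hb' : b ≤ 1 / 2)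
    (h : a * b + Real.sqrt (1 - a ^ 2) * (Real.sqrt (1 - b ^ 2) * c) ≤ 1 / 2) : c ≤ 7 / 16 := by
  by_contra hc
  push Not at hc
  have h1 : 0 < Real.sqrt (1 - a ^ 2) := Real.sqrt_pos.2 (by nlinarith)
  have h2 : 0 < Real.sqrt (1 - b ^ 2) := Real.sqrt_pos.2 (by nlinarith)
  have h3 : Real.sqrt (1 - a ^ 2) ^ 2 = 1 - a ^ 2 := Real.sq_sqrt (by nlinarith)
  have h4 : Real.sqrt (1 - b ^ 2) ^ 2 = 1 - b ^ 2 := Real.sq_sqrt (by nlinarith)
  set A := Real.sqrt (1 - a ^ 2)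
  set B := Real.sqrt (1 - b ^ 2)
  have h5 : A * B * (7 / 16) < 1 / 2 - a * b := by
    have : A * B * (7 / 16) < A * B * c := mul_lt_mul_of_pos_left hc (mul_pos h1 h2)
    nlinarith
  have h6 : (A * B * (7 / 16)) ^ 2 < (1 / 2 - a * b) ^ 2 := pow_lt_pow_left₀ h5 (by positivity) two_ne_zero
  have h7 : (A * B * (7 / 16)) ^ 2 = (1 - a ^ 2) * (1 - b ^ 2) * (49 / 256) := by
    rw [mul_pow, mul_pow, h3, h4]
    norm_num
  rw [h7] at h6
  -- concave in each variable, check the corners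
  have p1 : 0 ≤ (a - 1 / 3) * (1 / 2 - a) := mul_nonneg (by linarith) (by linarith)
  have p2 : 0 ≤ (b - 1 / 3) * (1 / 2 - b) := mul_nonneg (by linarith) (by linarith)
  have p3 : 0 ≤ (a - 1 / 3) * (b - 1 / 3) := mul_nonneg (by linarith) (by linarith)
  have p4 : 0 ≤ ((a - 1 / 3) * (1 / 2 - a)) * ((b - 1 / 3) * (1 / 2 - b)) := mul_nonneg p1 p2
  have p5 : 0 ≤ ((a - 1 / 3) * (1 / 2 - a)) * (b - 1 / 3) := mul_nonneg p1 (by linarith)
  have p6 : 0 ≤ ((b - 1 / 3) * (1 / 2 - b)) * (a - 1 / 3) := mul_nonneg p2 (by linarith)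
  have p7 : 0 ≤ (a - 1 / 3) * (1 / 2 - b) := mul_nonneg (by linarith) (by linarith)
  have p8 : 0 ≤ (b - 1 / 3) * (1 / 2 - a) := mul_nonneg (by linarith) (by linarith)
  nlinarith

end

end MPdef58e
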