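import Pool.Agent.Work.MP_def58e_co.Penta2

/-!
# MP_def58e_co: the radial estimate with the five near neighbours: cells, polytopes, densities
-/

namespace MPdef58e

open MeasureTheory Set Filter Topology Metric

noncomputable section

/-- the near neighbours -/
def near (u : Fin 11 → E3) (i : Fin 11) : Finset (Fin 11) :=
  Finset.univ.filter fun j => j ≠ i ∧ 1 / 3 < inner ℝ (u i) (u j)

theorem exists_angle (p q : ℝ) : ∃ θ : ℝ, p = Real.sqrt (p ^ 2 + q ^ 2) * Real.cos θ ∧
    q = Real.sqrt (p ^ 2 + q ^ 2) * Real.sin θ := by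
  have h1 := Complex.norm_mul_cos_arg (⟨p, q⟩ : ℂ)
  have h2 := Complex.norm_mul_sin_arg (⟨p, q⟩ : ℂ)
  have h3 : ‖(⟨p, q⟩ : ℂ)‖ = Real.sqrt (p ^ 2 + q ^ 2) := by
    rw [Complex.norm_eq_sqrt_sq_add_sq]
  rw [h3] at h1 h2
  exact ⟨_, h1.symm, h2.symm⟩

/-- the estimate in a direction blocked by a neighbour -/
theorem block_le {h a ρ g C : ℝ} (hh : 0 < h) (hh1 : h ≤ 1 / 2) (ha : a ≤ 1 / 2) (hρ : 0 ≤ ρ)
    (hρ2 : ρ ^ 2 = 1 - a ^ 2) (hg : 0 < g) (hg2 : g ^ 2 < 1 / 2) (hC : C ≤ 1)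
    (hb : 1 - a ≤ ρ * (g * C)) : 1 / 3 < a ∧ Psi (al h) g + ga h ≤ Eh h C := by
  have hC0 : 0 < C := by
    by_contra hc
    push Not at hc
    have : ρ * (g * C) ≤ 0 := mul_nonpos_of_nonneg_of_nonpos hρ (mul_nonpos_of_nonneg_of_nonpos hg.le hc)
    linarith
  have h1 : (1 - a) ^ 2 ≤ (1 - a ^ 2) * (g ^ 2 * C ^ 2) := by
    have := pow_le_pow_left₀ (by linarith : 0 ≤ 1 - a) hb 2
    rwa [mul_pow, hρ2, mul_pow] at this
  have h2 : 1 - a ≤ (1 + a) * (g ^ 2 * C ^ 2) := by
    have : (1 - a) * (1 - a) ≤ (1 - a) * ((1 + a) * (g ^ 2 * C ^ 2)) := by nlinarith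
    exact le_of_mul_le_mul_left this (by linarith)
  have ha1 : 0 < 1 + a := by
    by_contra hc
    push Not at hc
    have : (1 + a) * (g ^ 2 * C ^ 2) ≤ 0 := mul_nonpos_of_nonpos_of_nonneg hc (by positivity)
    linarith
  have hCC : C ^ 2 ≤ 1 := pow_le_one₀ hC0.le hC
  have h3 : g ^ 2 * C ^ 2 ≤ 1 / 2 := by nlinarith [sq_nonneg g]
  have h3' : g ^ 2 * C ^ 2 < 1 / 2 := by nlinarith [sq_nonneg g]
  have ha3 : 1 / 3 < a := by nlinarith
  refine ⟨ha3, ?_⟩
  have h4 : 1 / 3 ≤ g ^ 2 * C ^ 2 := by nlinarith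
  have hsq3 : Real.sqrt 3 ^ 2 = 3 := Real.sq_sqrt (by norm_num)
  have hs3 : 0 < Real.sqrt 3 := by positivity
  have h5 : Real.sqrt 3 / 3 ≤ g * C := by
    have : (Real.sqrt 3 / 3) ^ 2 ≤ (g * C) ^ 2 := by
      rw [div_pow, hsq3, mul_pow]
      linarith
    exact le_of_pow_le_pow_left₀ two_ne_zero (by positivity) this
  have h6 : Real.sqrt (2 / 3) ≤ C := by
    rw [Real.sqrt_le_left hC0.le]
    nlinarith [sq_nonneg C]
  have h7 : Real.sqrt 3 / 3 / C ≤ g := by rwa [div_le_iff₀ hC0]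
  have h8 := Psi_anti (α := al h) (g := g) (g' := Real.sqrt 3 / 3 / C)
    (by linarith [al_ge hh hh1]) (by positivity) h7 hg2.le
  unfold Eh E0
  rw [max_eq_left h6]
  linarith

theorem ga_nonneg {h : ℝ} (hh : 0 < h) (hh1 : h ≤ 1 / 2) : 0 ≤ ga h := by
  obtain ⟨h1, h2⟩ := sqrt23_bounds
  have := al_ge hh hh1
  unfold ga
  nlinarith

theorem Jh_nonneg {h : ℝ} (hh : 0 < h) (hh1 : h ≤ 1 / 2) : 0 ≤ Jh h := by
  have h1 := window_all h
  have h2 : 0 ≤ ∫ φ in (-Real.pi)..Real.pi, Eh h (Real.cos φ) :=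
    intervalIntegral.integral_nonneg (by linarith [Real.pi_pos]) fun φ _ => Eh_nonneg hh hh1 _
  linarith

/-- **the estimate of a cell** -/
theorem cell_le2 {u : Fin 11 → E3} (hu : ∀ i, ‖u i‖ = 1)
    (hsep : ∀ i j, i ≠ j → inner ℝ (u i) (u j) ≤ 1 / 2)
    {h : ℝ} (hh : 0 < h) (hh1 : h ≤ 1 / 2) (hhole : ∀ x : E3, ∃ i, h * ‖x‖ ≤ inner ℝ (u i) x)
    (i : Fin 11) :
    volume (cell u i ∩ {x | inner ℝ (u i) x ≤ 1}) + ENNReal.ofReal (2 * Real.pi * ga h / 3) ≤
      ENNReal.ofReal (al h) * volume (cell u i ∩ Metric.closedBall 0 1) +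
        ENNReal.ofReal (10 * Jh h / 3) := by
  classical
  obtain ⟨M, hM, hM1, hM2, hMs⟩ := exists_coord (hu i)
  set F : Set (ℝ × ℝ) := {w | (∀ j, j < i → (M (u j)).1 + ((M (u j)).2.1 * w.1 + (M (u j)).2.2 * w.2) < 1) ∧
    (∀ j, i < j → (M (u j)).1 + ((M (u j)).2.1 * w.1 + (M (u j)).2.2 * w.2) ≤ 1)} with hF
  have hFm : MeasurableSet F := by
    have hm : ∀ j, Measurable fun w : ℝ × ℝ =>
      (M (u j)).1 + ((M (u j)).2.1 * w.1 + (M (u j)).2.2 * w.2) := fun j => by fun_prop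
    have e : F = (⋂ j, ⋂ (_ : j < i),
          {w : ℝ × ℝ | (M (u j)).1 + ((M (u j)).2.1 * w.1 + (M (u j)).2.2 * w.2) < 1}) ∩
        ⋂ j, ⋂ (_ : i < j),
          {w : ℝ × ℝ | (M (u j)).1 + ((M (u j)).2.1 * w.1 + (M (u j)).2.2 * w.2) ≤ 1} := by
      ext x
      simp [hF]
    rw [e]
    refine MeasurableSet.inter ?_ ?_
    · exact MeasurableSet.iInter fun j => MeasurableSet.iInter fun _ =>
        measurableSet_lt (hm j) measurable_const
    · exact MeasurableSet.iInter fun j => MeasurableSet.iInter fun _ =>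
        measurableSet_le (hm j) measurable_const
  -- the membership in the cell in gnomonic coordinates
  have hz : ∀ x : E3, 0 < (M x).1 → ∀ j, inner ℝ (u j) x =
      (M x).1 * ((M (u j)).1 + ((M (u j)).2.1 * ((M x).1⁻¹ • (M x).2).1 +
        (M (u j)).2.2 * ((M x).1⁻¹ • (M x).2).2)) := by
    intro x hx j
    rw [hM2]
    simp only [Prod.smul_fst, Prod.smul_snd, smul_eq_mul]
    field_simp
  have hcell : ∀ x : E3, x ∈ cell u i ↔ 0 < (M x).1 ∧ (M x).1⁻¹ • (M x).2 ∈ F := by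
    intro x
    unfold cell
    rw [Set.mem_ofPred_eq, ← hM1]
    constructor
    · rintro ⟨h1, h2, h3⟩
      refine ⟨h1, fun j hj => ?_, fun j hj => ?_⟩
      · have h4 := h2 j hj
        rw [hz x h1] at h4
        by_contra hc
        push Not at hc
        nlinarith
      · have h4 := h3 j hj
        rw [hz x h1] at h4
        by_contra hc
        push Not at hc
        nlinarith
    · rintro ⟨h1, h2, h3⟩
      refine ⟨h1, fun j hj => ?_, fun j hj => ?_⟩
      · have h4 := h2 j hj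
        rw [hz x h1]
        nlinarith
      · have h4 := h3 j hj
        rw [hz x h1]
        nlinarith
  have hnorm : ∀ x : E3, ‖x‖ ^ 2 = (M x).1 ^ 2 + ((M x).2.1 ^ 2 + (M x).2.2 ^ 2) := by
    intro x
    rw [← real_inner_self_eq_norm_sq, hM2]
    ring
  have hui : (M (u i)).1 = 1 := by
    rw [hM1, real_inner_self_eq_norm_sq, hu i]
    norm_num
  -- the two volumes
  have hA : volume (cell u i ∩ {x | inner ℝ (u i) x ≤ 1}) =
      ∫⁻ w in F, ENNReal.ofReal ((1 : ℝ) ^ 3 / 3) := by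
    rw [← gnomonic hFm (τ := fun _ => (1 : ℝ)) measurable_const fun _ => zero_le_one]
    rw [← hM.measure_preimage]
    · congr 1
      ext x
      simp only [Set.mem_inter_iff, Set.mem_ofPred_eq, Set.mem_preimage]
      rw [hcell x, ← hM1]
      tauto
    · refine MeasurableSet.nullMeasurableSet ?_
      refine (measurableSet_lt measurable_const measurable_fst).inter ?_
      refine (measurableSet_le measurable_fst measurable_const).inter ?_
      exact hFm.preimage (by fun_prop)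
  have hB : volume (cell u i ∩ Metric.closedBall 0 1) =
      ∫⁻ w in F, ENNReal.ofReal (cn w ^ 3 / 3) := by
    rw [← gnomonic hFm cn_cont.measurable fun w => (cn_pos w).le]
    rw [← hM.measure_preimage]
    · congr 1
      ext x
      simp only [Set.mem_inter_iff, Set.mem_ofPred_eq, Set.mem_preimage, Metric.mem_closedBall,
        dist_zero_right]
      rw [hcell x]
      have key : 0 < (M x).1 → (‖x‖ ≤ 1 ↔ (M x).1 ≤ cn ((M x).1⁻¹ • (M x).2)) := by
        intro hx
        have hs : 0 < Real.sqrt (1 + (((M x).1⁻¹ • (M x).2).1 ^ 2 + ((M x).1⁻¹ • (M x).2).2 ^ 2)) :=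
          Real.sqrt_pos.2 (by positivity)
        have e1 : ‖x‖ = (M x).1 *
            Real.sqrt (1 + (((M x).1⁻¹ • (M x).2).1 ^ 2 + ((M x).1⁻¹ • (M x).2).2 ^ 2)) := by
          have e2 : ‖x‖ ^ 2 = ((M x).1 *
            Real.sqrt (1 + (((M x).1⁻¹ • (M x).2).1 ^ 2 + ((M x).1⁻¹ • (M x).2).2 ^ 2))) ^ 2 := by
            rw [mul_pow, Real.sq_sqrt (by positivity), hnorm]
            simp only [Prod.smul_fst, Prod.smul_snd, smul_eq_mul]
            field_simp
          exact (pow_left_inj₀ (norm_nonneg x) (by positivity) two_ne_zero).1 e2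
        rw [e1]
        unfold cn
        rw [le_div_iff₀ hs]
      constructor
      · rintro ⟨⟨h1, h2⟩, h3⟩
        exact ⟨h1, (key h1).1 h3, h2⟩
      · rintro ⟨h1, h2, h3⟩
        exact ⟨⟨h1, h3⟩, (key h1).2 h2⟩
    · refine MeasurableSet.nullMeasurableSet ?_
      refine (measurableSet_lt measurable_const measurable_fst).inter ?_
      refine (measurableSet_le measurable_fst (cn_cont.measurable.comp (by fun_prop))).inter ?_
      exact hFm.preimage (by fun_prop)
  -- the geometry of `F`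
  have hsq3 : Real.sqrt 3 ^ 2 = 3 := Real.sq_sqrt (by norm_num)
  have hs3 : 0 < Real.sqrt 3 := by positivity
  have hij : ∀ j, j ≠ i → (M (u j)).1 ≤ 1 / 2 ∧
      (M (u j)).2.1 ^ 2 + (M (u j)).2.2 ^ 2 = 1 - (M (u j)).1 ^ 2 := by
    intro j hj
    refine ⟨?_, ?_⟩
    · rw [hM1]
      exact hsep i j hj.symm
    · have := hnorm (u j)
      rw [hu j] at this
      linarith
  have hF0 : ∀ w : ℝ × ℝ, w.1 ^ 2 + w.2 ^ 2 < (Real.sqrt 3 / 3) ^ 2 → w ∈ F := by
    intro w hw
    have hw' : w.1 ^ 2 + w.2 ^ 2 < 1 / 3 := by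
      have : (Real.sqrt 3 / 3) ^ 2 = 1 / 3 := by rw [div_pow, hsq3]; norm_num
      linarith
    have key : ∀ j, j ≠ i → (M (u j)).1 + ((M (u j)).2.1 * w.1 + (M (u j)).2.2 * w.2) < 1 := by
      intro j hj
      obtain ⟨h1, h2⟩ := hij j hj
      set a := (M (u j)).1
      set p := (M (u j)).2.1
      set q := (M (u j)).2.2
      by_contra hc
      push Not at hc
      have h3 : 1 - a ≤ p * w.1 + q * w.2 := by linarith
      have h4 : (p * w.1 + q * w.2) ^ 2 ≤ (p ^ 2 + q ^ 2) * (w.1 ^ 2 + w.2 ^ 2) := by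
        nlinarith [sq_nonneg (p * w.2 - q * w.1)]
      have h5 : (1 - a) ^ 2 ≤ (1 - a ^ 2) * (w.1 ^ 2 + w.2 ^ 2) := by
        rw [← h2]
        refine le_trans ?_ h4
        exact pow_le_pow_left₀ (by linarith) h3 2
      have h6 : a ^ 2 ≤ 1 := by
        have : 0 ≤ p ^ 2 + q ^ 2 := by positivity
        linarith
      have h7 : (1 - a ^ 2) * (w.1 ^ 2 + w.2 ^ 2) ≤ (1 - a ^ 2) * (1 / 3) :=
        mul_le_mul_of_nonneg_left hw'.le (by linarith)
      have h8 : 3 * (1 - a) ^ 2 ≤ 1 - a ^ 2 := by linarith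
      have h9 : (1 - a) * (2 - 4 * a) ≤ 0 := by nlinarith
      have h10 : a = 1 / 2 := by nlinarith
      rw [h10] at h5
      nlinarith
    exact ⟨fun j hj => key j hj.ne, fun j hj => (key j hj.ne').le⟩
  have hh2 : 1 ≤ 1 / h ^ 2 := by
    rw [le_div_iff₀ (by positivity), one_mul]
    exact pow_le_one₀ hh.le (by linarith)
  have hF1 : ∀ w ∈ F, w.1 ^ 2 + w.2 ^ 2 ≤ Real.sqrt (1 / h ^ 2 - 1) ^ 2 := by
    intro w hw
    rw [Real.sq_sqrt (by linarith)]
    -- the point `x` with coordinates `(1, w)`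
    obtain ⟨x, hx⟩ : ∃ x : E3, M x = (1, w) := hMs _
    obtain ⟨j, hj⟩ := hhole x
    have h1 : 0 < (M x).1 := by rw [hx]; norm_num
    have h2 : inner ℝ (u j) x ≤ 1 := by
      rw [hz x h1 j, hx]
      simp only [inv_one, one_smul, one_mul]
      rcases lt_trichotomy j i with h3 | h3 | h3
      · exact (hw.1 j h3).le
      · rw [h3, hui]
        have h4 := hnorm (u i)
        rw [hu i, hui] at h4
        have h5 : (M (u i)).2.1 = 0 := by nlinarith [sq_nonneg (M (u i)).2.1, sq_nonneg (M (u i)).2.2]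
        have h6 : (M (u i)).2.2 = 0 := by nlinarith [sq_nonneg (M (u i)).2.1, sq_nonneg (M (u i)).2.2]
        rw [h5, h6]
        norm_num
      · exact hw.2 j h3
    have h3 := hnorm x
    rw [hx] at h3
    simp only at h3
    have h4 : h * ‖x‖ ≤ 1 := hj.trans h2
    have h5 : h ^ 2 * ‖x‖ ^ 2 ≤ 1 := by
      have := mul_le_mul h4 h4 (by positivity) zero_le_one
      nlinarith
    rw [h3] at h5
    have h6 : 1 ^ 2 + (w.1 ^ 2 + w.2 ^ 2) ≤ 1 / h ^ 2 := by
      rw [le_div_iff₀ (by positivity)]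
      linarith
    linarith
  have hst : ∀ w ∈ F, ∀ s : ℝ, 0 < s → s < 1 → s • w ∈ F := by
    intro w hw s hs hs1
    refine ⟨fun j hj => ?_, fun j hj => ?_⟩
    · have h1 := hw.1 j hj
      have h2 := (hij j hj.ne).1
      simp only [Prod.smul_fst, Prod.smul_snd, smul_eq_mul]
      nlinarith
    · have h1 := hw.2 j hj
      have h2 := (hij j hj.ne').1
      simp only [Prod.smul_fst, Prod.smul_snd, smul_eq_mul]
      nlinarith
  -- the directions of the neighbours
  choose θ hθ1 hθ2 using fun j : Fin 11 => exists_angle (M (u j)).2.1 (M (u j)).2.2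
  have hdir : ∀ j, j ≠ i → (M (u j)).2.1 = Real.sqrt (1 - (M (u j)).1 ^ 2) * Real.cos (θ j) ∧
      (M (u j)).2.2 = Real.sqrt (1 - (M (u j)).1 ^ 2) * Real.sin (θ j) := by
    intro j hj
    rw [← (hij j hj).2]
    exact ⟨hθ1 j, hθ2 j⟩
  have hrho : ∀ j, j ≠ i → 0 ≤ 1 - (M (u j)).1 ^ 2 := by
    intro j hj
    rw [← (hij j hj).2]
    positivity
  -- the number of near neighbours
  have hcard : (near u i).card ≤ 5 := by
    refine card_dir (near u i) θ fun j hj k hk hjk => ?_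
    obtain ⟨hj1, hj2⟩ := (Finset.mem_filter.1 hj).2
    obtain ⟨hk1, hk2⟩ := (Finset.mem_filter.1 hk).2
    rw [← hM1] at hj2 hk2
    refine near_cos hj2.le (hij j hj1).1 hk2.le (hij k hk1).1 ?_
    have h1 := hsep j k hjk
    rw [hM2, (hdir j hj1).1, (hdir j hj1).2, (hdir k hk1).1, (hdir k hk1).2] at h1
    rw [Real.cos_sub]
    linarith
  -- a direction is blocked by a neighbour
  have hblock : ∀ φ g : ℝ, (∀ r, g < r → ((r * Real.cos φ, r * Real.sin φ) : ℝ × ℝ) ∉ F) →
      ∃ j, j ≠ i ∧ 1 ≤ (M (u j)).1 + ((M (u j)).2.1 * (g * Real.cos φ) +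
        (M (u j)).2.2 * (g * Real.sin φ)) := by
    intro φ g hout
    by_contra hc
    push Not at hc
    have hev : ∀ᶠ r in 𝓝[>] g, ∀ j, j ≠ i → (M (u j)).1 + ((M (u j)).2.1 * (r * Real.cos φ) +
        (M (u j)).2.2 * (r * Real.sin φ)) < 1 := by
      rw [Filter.eventually_all]
      intro j
      by_cases hj : j = i
      · filter_upwards with r hne
        exact absurd hj hne
      · have hcont : Continuous fun r : ℝ => (M (u j)).1 + ((M (u j)).2.1 * (r * Real.cos φ) +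
            (M (u j)).2.2 * (r * Real.sin φ)) := by fun_prop
        have h1 := hcont.continuousAt.eventually_lt (continuousAt_const (y := (1 : ℝ))) (hc j hj)
        exact (h1.filter_mono nhdsWithin_le_nhds).mono fun r hr _ => hr
    obtain ⟨r, hr1, hr2⟩ := (hev.and self_mem_nhdsWithin).exists
    exact hout r hr2 ⟨fun j hj => hr1 j hj.ne, fun j hj => (hr1 j hj.ne').le⟩
  have hmain := plane_le2 hFm (g0 := Real.sqrt 3 / 3) (g1 := Real.sqrt (1 / h ^ 2 - 1)) (α := al h)
    (γ := ga h) (E := fun φ => ∑ j ∈ near u i, Eh h (Real.cos (φ - θ j)))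
    (by positivity) (by linarith [al_ge hh hh1]) (ga_nonneg hh hh1)
    (fun φ => Finset.sum_nonneg fun j _ => Eh_nonneg hh hh1 _)
    (by
      refine Finset.measurable_sum _ fun j _ => ?_
      exact ((Eh_cont h).comp (Real.continuous_cos.comp (by fun_prop))).measurable)
    hF0 hF1 (Real.sqrt_nonneg _) hst ?_
  · rw [hA, hB, setLIntegral_const]
    have e3 : ∫⁻ w in F, ENNReal.ofReal (cn w ^ 3 / 3) =
        ENNReal.ofReal (1 / 3) * ∫⁻ w in F, ENNReal.ofReal (cn w ^ 3) := by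
      rw [← lintegral_const_mul' _ _ ENNReal.ofReal_ne_top]
      refine lintegral_congr fun w => ?_
      rw [← ENNReal.ofReal_mul (by norm_num)]
      congr 1
      ring
    have e4 : ENNReal.ofReal (2 * Real.pi * ga h / 3) = ENNReal.ofReal (1 / 3) *
        ENNReal.ofReal (2 * Real.pi * ga h) := by
      rw [← ENNReal.ofReal_mul (by norm_num)]
      congr 1
      ring
    have hJ := Jh_nonneg hh hh1
    have e5 : (∫⁻ φ in Set.Ioo (-Real.pi) Real.pi,
        ENNReal.ofReal (∑ j ∈ near u i, Eh h (Real.cos (φ - θ j)))) ≤ ENNReal.ofReal (10 * Jh h) := by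
      have e6 : ∀ φ : ℝ, ENNReal.ofReal (∑ j ∈ near u i, Eh h (Real.cos (φ - θ j))) =
          ∑ j ∈ near u i, ENNReal.ofReal (Eh h (Real.cos (φ - θ j))) := fun φ =>
        ENNReal.ofReal_sum_of_nonneg fun j _ => Eh_nonneg hh hh1 _
      simp only [e6]
      rw [lintegral_finset_sum]
      · simp only [window_lint hh hh1]
        rw [Finset.sum_const, nsmul_eq_mul]
        calc ((near u i).card : ENNReal) * ENNReal.ofReal (2 * Jh h) ≤
            (5 : ENNReal) * ENNReal.ofReal (2 * Jh h) := by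
              gcongr
              exact_mod_cast hcard
          _ = _ := by
              rw [show (5 : ENNReal) = ENNReal.ofReal 5 by simp, ← ENNReal.ofReal_mul (by norm_num)]
              congr 1
              ring
      · intro j _
        exact ENNReal.measurable_ofReal.comp
          ((Eh_cont h).comp (Real.continuous_cos.comp (by fun_prop))).measurable
    have e7 : ENNReal.ofReal (10 * Jh h / 3) = ENNReal.ofReal (1 / 3) *
        ENNReal.ofReal (10 * Jh h) := by
      rw [← ENNReal.ofReal_mul (by norm_num)]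
      congr 1
      ring
    rw [e3, e4, e7, one_pow, ← mul_add, mul_left_comm, ← mul_add]
    refine mul_le_mul_right ?_ _
    refine hmain.trans ?_
    gcongr
  · intro φ g hg0 hg1 hout
    have hg0' : 0 < g := lt_of_lt_of_le (by positivity) hg0
    have hE : 0 ≤ ∑ j ∈ near u i, Eh h (Real.cos (φ - θ j)) :=
      Finset.sum_nonneg fun j _ => Eh_nonneg hh hh1 _
    have hgle : g ^ 2 ≤ 1 / h ^ 2 - 1 := by
      calc g ^ 2 ≤ Real.sqrt (1 / h ^ 2 - 1) ^ 2 := pow_le_pow_left₀ hg0'.le hg1 2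
        _ = _ := Real.sq_sqrt (by linarith)
    suffices hs : Psi (al h) g + ga h ≤ ∑ j ∈ near u i, Eh h (Real.cos (φ - θ j)) by
      unfold Psi at hs
      linarith
    rcases le_or_gt (1 / 2) (g ^ 2) with hc | hc
    · have := Psi_far hh hh1 hgle hc
      linarith
    · obtain ⟨j, hj, hb⟩ := hblock φ g hout
      have hb' : 1 - (M (u j)).1 ≤ Real.sqrt (1 - (M (u j)).1 ^ 2) * (g * Real.cos (φ - θ j)) := by
        have h1 := (hdir j hj).1
        have h2 := (hdir j hj).2
        rw [Real.cos_sub]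
        calc 1 - (M (u j)).1 ≤ (M (u j)).2.1 * (g * Real.cos φ) + (M (u j)).2.2 * (g * Real.sin φ) := by
              linarith
          _ = Real.sqrt (1 - (M (u j)).1 ^ 2) * Real.cos (θ j) * (g * Real.cos φ) +
              Real.sqrt (1 - (M (u j)).1 ^ 2) * Real.sin (θ j) * (g * Real.sin φ) := by
              rw [← h1, ← h2]
          _ = _ := by ring
      obtain ⟨k1, k2⟩ := block_le hh hh1 (hij j hj).1 (Real.sqrt_nonneg _)
        (Real.sq_sqrt (hrho j hj)) hg0' hc (Real.cos_le_one _) hb'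
      refine k2.trans ?_
      refine Finset.single_le_sum (f := fun j => Eh h (Real.cos (φ - θ j)))
        (fun k _ => Eh_nonneg hh hh1 _) ?_
      refine Finset.mem_filter.2 ⟨Finset.mem_univ _, hj, ?_⟩
      rw [← hM1]
      exact k1

/-- the bound of the relative volume -/
def Xp (h : ℝ) : ℝ := al h - 11 / 2 * ga h + 55 / (2 * Real.pi) * Jh h

/-- **the volume of the polytope** -/
theorem poly_le2 {u : Fin 11 → E3} (hu : ∀ i, ‖u i‖ = 1)
    (hsep : ∀ i j, i ≠ j → inner ℝ (u i) (u j) ≤ 1 / 2)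
    {h : ℝ} (hh : 0 < h) (hh1 : h ≤ 1 / 2) (hhole : ∀ x : E3, ∃ i, h * ‖x‖ ≤ inner ℝ (u i) x) :
    volume {x : E3 | ∀ i, inner ℝ (u i) x ≤ 1} ≠ ⊤ ∧
    volume.real {x : E3 | ∀ i, inner ℝ (u i) x ≤ 1} ≤ Xp h * V1 := by
  have hα : 0 ≤ al h := by linarith [al_ge hh hh1]
  have hγ := ga_nonneg hh hh1
  have hJ := Jh_nonneg hh hh1
  have hcov : {x : E3 | ∀ i, inner ℝ (u i) x ≤ 1} ⊆
      {0} ∪ ⋃ i ∈ (Finset.univ : Finset (Fin 11)), (cell u i ∩ {x | inner ℝ (u i) x ≤ 1}) := by
    intro x hx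
    by_cases hx0 : x = 0
    · exact Or.inl hx0
    · right
      obtain ⟨i, hi⟩ := hhole x
      have h1 : 0 < ‖x‖ := norm_pos_iff.2 hx0
      obtain ⟨j, hj⟩ := mem_cell (u := u) (x := x) ⟨i, lt_of_lt_of_le (mul_pos hh h1) hi⟩
      rw [Set.mem_iUnion₂]
      exact ⟨j, Finset.mem_univ _, hj, hx j⟩
  have h1 : volume {x : E3 | ∀ i, inner ℝ (u i) x ≤ 1} ≤
      ∑ i : Fin 11, volume (cell u i ∩ {x | inner ℝ (u i) x ≤ 1}) := by
    refine (measure_mono hcov).trans ((measure_union_le _ _).trans ?_)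
    rw [measure_singleton, zero_add]
    exact measure_biUnion_finset_le _ _
  have h2 : ∑ i : Fin 11, volume (cell u i ∩ Metric.closedBall 0 1) ≤
      volume (Metric.closedBall (0 : E3) 1) := by
    rw [← measure_biUnion_finset]
    · exact measure_mono (Set.iUnion₂_subset fun i _ => Set.inter_subset_right)
    · intro i _ j _ hij
      exact (cell_disjoint u hij).mono Set.inter_subset_left Set.inter_subset_left
    · intro i _
      exact (cell_measurable u i).inter Metric.isClosed_closedBall.measurableSet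
  have h3 : volume {x : E3 | ∀ i, inner ℝ (u i) x ≤ 1} + 11 * ENNReal.ofReal (2 * Real.pi * ga h / 3) ≤
      ENNReal.ofReal (al h) * volume (Metric.closedBall (0 : E3) 1) +
        11 * ENNReal.ofReal (10 * Jh h / 3) := by
    calc volume {x : E3 | ∀ i, inner ℝ (u i) x ≤ 1} + 11 * ENNReal.ofReal (2 * Real.pi * ga h / 3)
        ≤ ∑ i : Fin 11, volume (cell u i ∩ {x | inner ℝ (u i) x ≤ 1}) +
          ∑ _i : Fin 11, ENNReal.ofReal (2 * Real.pi * ga h / 3) := by
          refine add_le_add h1 (le_of_eq ?_)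
          simp
      _ = ∑ i : Fin 11, (volume (cell u i ∩ {x | inner ℝ (u i) x ≤ 1}) +
          ENNReal.ofReal (2 * Real.pi * ga h / 3)) := by rw [Finset.sum_add_distrib]
      _ ≤ ∑ i : Fin 11, (ENNReal.ofReal (al h) * volume (cell u i ∩ Metric.closedBall 0 1) +
          ENNReal.ofReal (10 * Jh h / 3)) :=
          Finset.sum_le_sum fun i _ => cell_le2 hu hsep hh hh1 hhole i
      _ = ENNReal.ofReal (al h) * ∑ i : Fin 11, volume (cell u i ∩ Metric.closedBall 0 1) +
          11 * ENNReal.ofReal (10 * Jh h / 3) := by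
          rw [Finset.sum_add_distrib, Finset.mul_sum]
          simp
      _ ≤ _ := by gcongr
  have hB : volume (Metric.closedBall (0 : E3) 1) = ENNReal.ofReal V1 := by
    have := vol_closedBall (0 : E3) (zero_le_one' ℝ)
    rw [one_pow, one_mul] at this
    rw [← this, Measure.real, ENNReal.ofReal_toReal]
    exact measure_closedBall_lt_top.ne
  have hpi := Real.pi_pos
  have hc : (11 : ENNReal) * ENNReal.ofReal (2 * Real.pi * ga h / 3) =
      ENNReal.ofReal (V1 * (11 / 2 * ga h)) := by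
    rw [show (11 : ENNReal) = ENNReal.ofReal 11 by simp, ← ENNReal.ofReal_mul (by norm_num), V1_eq]
    congr 1
    ring
  have hd : (11 : ENNReal) * ENNReal.ofReal (10 * Jh h / 3) =
      ENNReal.ofReal (V1 * (55 / (2 * Real.pi) * Jh h)) := by
    rw [show (11 : ENNReal) = ENNReal.ofReal 11 by simp, ← ENNReal.ofReal_mul (by norm_num), V1_eq]
    congr 1
    field_simp
    ring
  have hV := V1_pos
  have hd0 : 0 ≤ V1 * (55 / (2 * Real.pi) * Jh h) := by positivity
  rw [hB, hc, hd, ← ENNReal.ofReal_mul hα, ← ENNReal.ofReal_add (by positivity) hd0] at h3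
  have hfin : volume {x : E3 | ∀ i, inner ℝ (u i) x ≤ 1} ≠ ⊤ := by
    intro ht
    rw [ht, top_add] at h3
    exact absurd h3 (not_le.2 ENNReal.ofReal_lt_top)
  refine ⟨hfin, ?_⟩
  have h4 : volume {x : E3 | ∀ i, inner ℝ (u i) x ≤ 1} =
      ENNReal.ofReal (volume.real {x : E3 | ∀ i, inner ℝ (u i) x ≤ 1}) := by
    rw [Measure.real, ENNReal.ofReal_toReal hfin]
  rw [h4, ← ENNReal.ofReal_add measureReal_nonneg (by positivity),
    ENNReal.ofReal_le_ofReal_iff (by positivity)] at h3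
  unfold Xp
  linarith

end

end MPdef58e
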