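import Pool.Agent.Work.MP_def58e_co.Penta3
import Pool.Agent.Work.MP_def58e_hole.Hole

/-!
# MP_def58e_co: lower bound of the density from the improved estimate of the polytope
-/

namespace MPdef58e

open MeasureTheory Filter Topology Metric

noncomputable section

/-- `X` bounds the relative volume of the polytope circumscribed about the unit ball -/
def VolB (X : ℝ) : Prop := ∀ u : Fin 11 → E3, (∀ i, ‖u i‖ = 1) →
  (∀ i j, i ≠ j → inner ℝ (u i) (u j) ≤ 1 / 2) →
  volume {x : E3 | ∀ i, inner ℝ (u i) x ≤ 1} ≠ ⊤ ∧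
    volume.real {x : E3 | ∀ i, inner ℝ (u i) x ≤ 1} ≤ X * V1

theorem volB_Xp {h : ℝ} (hh : 0 < h) (hh1 : h ≤ 1 / 2) (hH : Hole h) : VolB (Xp h) :=
  fun u hu hsep => poly_le2 hu hsep hh hh1 (hH u hu hsep)

theorem vol_reg2 {c : E3} {y : Fin 11 → E3} (h2 : ∀ i, dist c (y i) = 2)
    (hy : ∀ i j, i ≠ j → 2 ≤ dist (y i) (y j)) {X : ℝ} (hV : VolB X) :
    volume (reg c y) ≠ ⊤ ∧ volume.real (reg c y) ≤ X * V1 := by
  have key := hV (uv c y) (norm_uv h2) (inner_uv h2 hy)
  have hv : volume (reg c y) = volume {x : E3 | ∀ i, inner ℝ (uv c y i) x ≤ 1} := by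
    have e : (fun p : E3 => p - c) = fun p => p + (-c) := by
      ext p : 1
      rw [sub_eq_add_neg]
    rw [reg_eq h2, e]
    exact measure_preimage_add_right volume (-c) _
  unfold Measure.real
  rw [hv]
  exact key

theorem ratio_lower2 {C : Set E3} (hC : IsNeighbourPacking 11 C) {h X : ℝ} (hh : 0 < h)
    (hX : 0 < X) (hH : Hole h) (hV : VolB X) {R : ℝ} (hR : 1 / h + 1 ≤ R) :
    1 / X * ((R - (1 / h + 1)) ^ 3 / R ^ 3) ≤
      volume.real (closedBall (0 : E3) R ∩ body C) / volume.real (closedBall (0 : E3) R) := by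
  obtain ⟨hne, hP, hN⟩ := hC
  have hfin := finite_inter hP (R - 1)
  choose! Y hY using fun c (hc : c ∈ C) => exists_eleven hP (hN c hc)
  set T := hfin.toFinset with hT
  have hTmem : ∀ c, c ∈ T ↔ c ∈ C ∧ dist c 0 ≤ R - 1 := by
    intro c
    rw [hT, Set.Finite.mem_toFinset]
    simp [mem_closedBall]
  have hhi : 0 < 1 / h := by positivity
  have hcover : closedBall (0 : E3) (R - (1 / h + 1)) ⊆ ⋃ c ∈ T, reg c (Y c) := by
    intro p hp
    obtain ⟨c, hc, hnear⟩ := exists_nearest hne hP p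
    have hm : p ∈ reg c (Y c) := fun i => hnear _ ((hY c hc).1 i)
    rw [Set.mem_iUnion₂]
    refine ⟨c, ?_, hm⟩
    rw [hTmem]
    refine ⟨hc, ?_⟩
    have h1 := reg_sub (hY c hc).2.1 (hY c hc).2.2 hh hH hm
    rw [mem_closedBall] at hp h1
    have := dist_triangle_left c 0 p
    linarith
  have h1 : (R - (1 / h + 1)) ^ 3 * V1 ≤ T.card * (X * V1) := by
    rw [← vol_closedBall (0 : E3) (by linarith : 0 ≤ R - (1 / h + 1))]
    refine le_card_mul T (fun c => reg c (Y c)) _ _ hcover ?_ ?_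
    · intro c hc
      have hc' := ((hTmem c).1 hc).1
      exact (vol_reg2 (hY c hc').2.1 (hY c hc').2.2 hV).2
    · intro c hc
      have hc' := ((hTmem c).1 hc).1
      exact (vol_reg2 (hY c hc').2.1 (hY c hc').2.2 hV).1
  have h2 : (T.card : ℝ) * V1 ≤ volume.real (closedBall (0 : E3) R ∩ body C) := by
    refine card_mul_le T (fun c => ball c 1) _ V1 (fun c _ => measurableSet_ball) ?_ ?_ ?_ ?_
    · intro c hc c' hc' hcc'
      refine ball_disjoint_ball ?_
      have := hP c ((hTmem c).1 hc).1 c' ((hTmem c').1 hc').1 hcc'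
      linarith
    · intro c hc x hx
      rw [mem_ball] at hx
      have hc' := (hTmem c).1 hc
      refine ⟨?_, ?_⟩
      · rw [mem_closedBall]
        have := dist_triangle x c 0
        linarith
      · unfold body
        rw [Set.mem_iUnion₂]
        exact ⟨c, hc'.1, by rw [mem_closedBall]; exact hx.le⟩
    · intro c _
      rw [vol_ball _ zero_le_one]
      ring
    · exact ne_top_of_le_ne_top measure_closedBall_lt_top.ne (measure_mono Set.inter_subset_left)
  have hRpos : 0 < R := by linarith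
  rw [vol_closedBall _ hRpos.le, le_div_iff₀ (mul_pos (pow_pos hRpos 3) V1_pos)]
  have e : 1 / X * ((R - (1 / h + 1)) ^ 3 / R ^ 3) * (R ^ 3 * V1)
      = 1 / X * ((R - (1 / h + 1)) ^ 3 * V1) := by
    field_simp
  rw [e]
  have h3 : 1 / X * ((R - (1 / h + 1)) ^ 3 * V1) ≤ 1 / X * (T.card * (X * V1)) :=
    mul_le_mul_of_nonneg_left h1 (by positivity)
  have h4 : 1 / X * (T.card * (X * V1)) = T.card * V1 := by
    field_simp
  linarith

theorem density_lower2 {C : Set E3} (hC : IsNeighbourPacking 11 C) {h X : ℝ} (hh : 0 < h)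
    (hX : 0 < X) (hH : Hole h) (hV : VolB X) : 1 / X ≤ lowerDensity C := by
  have h1 : Tendsto (fun R : ℝ => 1 / X * ((R - (1 / h + 1)) ^ 3 / R ^ 3)) atTop
      (𝓝 (1 / X)) := by
    simpa using (tendsto_shift (1 / h + 1)).const_mul (1 / X)
  refine le_lowerDensity h1 ?_
  filter_upwards [eventually_ge_atTop (1 / h + 1)] with R hR
  exact ratio_lower2 hC hh hX hH hV hR


/-- from coordinates to vectors -/
theorem hole_of {h : ℝ} (H : ∀ (x : Fin 11 → Fin 3 → ℝ) (u : Fin 3 → ℝ), (∀ i, IsUnit3 (x i)) →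
    IsUnit3 u → (∀ i j, i ≠ j → ip (x i) (x j) ≤ 1 / 2) → ∃ i, h ≤ ip (x i) u) : Hole h := by
  intro u hu hsep x
  by_cases hx : x = 0
  · refine ⟨0, ?_⟩
    rw [hx, norm_zero, inner_zero_right, mul_zero]
  · have hx0 : 0 < ‖x‖ := norm_pos_iff.2 hx
    have hin : ∀ a b : E3, inner ℝ a b = a 0 * b 0 + a 1 * b 1 + a 2 * b 2 := by
      intro a b
      rw [PiLp.inner_apply, Fin.sum_univ_three]
      simp only [RCLike.inner_apply, conj_trivial]
      ring
    have hun : ∀ a : E3, a 0 ^ 2 + a 1 ^ 2 + a 2 ^ 2 = ‖a‖ ^ 2 := by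
      intro a
      rw [← real_inner_self_eq_norm_sq, hin]
      ring
    obtain ⟨i, hi⟩ := H (fun i k => u i k) (fun k => x k / ‖x‖)
      (fun i => by
        unfold IsUnit3
        rw [hun, hu i]
        norm_num)
      (by
        unfold IsUnit3
        simp only [div_pow, ← add_div]
        rw [hun]
        exact div_self (by positivity))
      (fun i j hij => by
        have := hsep i j hij
        rw [hin] at this
        unfold ip
        exact this)
    refine ⟨i, ?_⟩
    have e : ip (fun k => u i k) (fun k => x k / ‖x‖) = inner ℝ (u i) x / ‖x‖ := by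
      rw [hin]
      unfold ip
      field_simp
    rw [e, le_div_iff₀ hx0] at hi
    exact hi

theorem hole_two : Hole (7 / 25) :=
  hole_of fun x u hx hu hsep => MPdef58eHole.no_hole x u hx hu hsep

/-! ### the numbers -/

theorem delta_ge : (0.09187 : ℝ) ≤ om - Real.pi / 6 := by
  obtain ⟨h1, h2⟩ := sqrt23_bounds
  have hop := om_pos
  have ho := om_lt
  have hpi := Real.pi_gt_three
  by_contra hc
  push Not at hc
  have hsin : Real.sin (om - Real.pi / 6) = (1 - Real.sqrt (2 / 3)) / 2 := by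
    have h3 : Real.sqrt 3 * Real.sqrt 3 = 3 := Real.mul_self_sqrt (by norm_num)
    rw [Real.sin_sub, sin_om, cos_om, Real.cos_pi_div_six, Real.sin_pi_div_six]
    linear_combination (1 / 6) * h3
  have h3 : Real.sin (om - Real.pi / 6) < Real.sin 0.09187 := by
    refine Real.sin_lt_sin_of_lt_of_le_pi_div_two (by linarith) (by linarith) hc
  have h4 := Real.sin_bound (x := 0.09187) (by rw [abs_of_pos] <;> norm_num)
  rw [abs_of_pos (by norm_num : (0 : ℝ) < 0.09187)] at h4
  have h5 := (abs_le.1 h4).2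
  rw [hsin] at h3
  norm_num at h5
  linarith

theorem Xp_le {h : ℝ} (hh : 0 < h) :
    Xp h ≤ al h - 11 / 12 * ga h - 55 / 6.2832 * ((al h - ga h) * 0.09187 - Real.sqrt 2 / 12) ∨
      (al h - ga h) * 0.09187 - Real.sqrt 2 / 12 < 0 := by
  rcases lt_or_ge ((al h - ga h) * 0.09187 - Real.sqrt 2 / 12) 0 with hn | hn
  · exact Or.inr hn
  left
  have hd := delta_ge
  have hpi := Real.pi_pos
  have hpi' := Real.pi_lt_d4
  have hag : 0 ≤ al h - ga h := by
    obtain ⟨h1, h2⟩ := sqrt23_bounds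
    have : 0 ≤ al h := by
      unfold al
      positivity
    unfold ga
    nlinarith
  have e : Xp h = al h - 11 / 12 * ga h -
      55 / (2 * Real.pi) * ((al h - ga h) * (om - Real.pi / 6) - Real.sqrt 2 / 12) := by
    unfold Xp Jh
    field_simp
    ring
  rw [e]
  have h1 : (al h - ga h) * 0.09187 - Real.sqrt 2 / 12 ≤
      (al h - ga h) * (om - Real.pi / 6) - Real.sqrt 2 / 12 := by
    have := mul_le_mul_of_nonneg_left hd hag
    linarith
  have h2 : (55 : ℝ) / 6.2832 ≤ 55 / (2 * Real.pi) :=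
    div_le_div_of_nonneg_left (by norm_num) (by positivity) (by linarith)
  have h3 := mul_le_mul h2 h1 hn (by positivity)
  linarith

theorem sqrt2_bounds : (1.414213 : ℝ) ≤ Real.sqrt 2 ∧ Real.sqrt 2 ≤ 1.414214 := by
  constructor
  · exact Real.le_sqrt_of_sq_le (by norm_num)
  · rw [Real.sqrt_le_left (by norm_num)]
    norm_num

theorem Xp_pos {h : ℝ} (hh0 : 1 / 10 ≤ h) (hh1 : h ≤ 1 / 2) : 0 < Xp h := by
  have hh : 0 < h := by linarith
  have hJ := Jh_nonneg hh hh1
  have hpi := Real.pi_pos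
  obtain ⟨h1, h2⟩ := sqrt23_bounds
  have h3 := al_ge hh hh1
  unfold Xp
  have : 0 ≤ 55 / (2 * Real.pi) * Jh h := by positivity
  have h5 : al h ≤ 100 := by
    unfold al
    rw [div_le_iff₀ (by positivity)]
    nlinarith
  have h4 : 0 < al h - 11 / 2 * ga h := by
    unfold ga
    nlinarith
  linarith

theorem Xp_two : Xp (7 / 25) ≤ 200 / 69 := by
  obtain ⟨h1, h2⟩ := sqrt23_bounds
  obtain ⟨h3, h4⟩ := sqrt2_bounds
  have hsq : Real.sqrt (2 / 3) * Real.sqrt (2 / 3) = 2 / 3 := Real.mul_self_sqrt (by norm_num)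
  set s := Real.sqrt (2 / 3) with hs
  have ea : al (7 / 25) = 1875 / 196 * (s + 7 / 25) := by
    unfold al
    rw [← hs]
    ring
  have eg : ga (7 / 25) = 1875 / 196 * (s * (18 / 25) + 7 / 25 - 2 / 3) - 1 / 4 := by
    unfold ga
    rw [ea, ← hs]
    linear_combination (-1875 / 196) * hsq
  rcases Xp_le (h := 7 / 25) (by norm_num) with h | h
  · rw [ea, eg] at h
    linarith
  · rw [ea, eg] at h
    exfalso
    linarith

/-- **the density of an eleven-neighbour packing is at least `69/200`** -/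
theorem lower_two {C : Set E3} (hC : IsNeighbourPacking 11 C) : 69 / 200 ≤ lowerDensity C := by
  have h1 := Xp_pos (h := 7 / 25) (by norm_num) (by norm_num)
  have h3 := density_lower2 hC (h := 7 / 25) (by norm_num) h1 hole_two
    (volB_Xp (by norm_num) (by norm_num) hole_two)
  refine le_trans ?_ h3
  rw [div_le_div_iff₀ (by norm_num) h1]
  linarith [Xp_two]

theorem le_min_two : 69 / 200 ≤ minDensity 11 := by
  refine le_csInf ⟨_, thin, thin_packing, rfl⟩ ?_
  rintro d ⟨C, hC, rfl⟩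
  exact lower_two hC

end

end MPdef58e
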