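import Pool.Agent.Work.MP_def58e_co.Penta4
import Pool.Agent.Work.MP_def58e_hole.Hole7

/-!
# MP_def58e_co: lower bound of the density with the hole bound `3/10`
-/

namespace MPdef58e

open MeasureTheory Filter Topology Metric

noncomputable section

theorem hole_three : Hole (3 / 10) :=
  hole_of fun x u hx hu hsep => MPdef58eHole7.no_hole x u hx hu hsep

theorem Xp_three : Xp (3 / 10) ≤ 1000 / 371 := by
  obtain ⟨h1, h2⟩ := sqrt23_bounds
  obtain ⟨h3, h4⟩ := sqrt2_bounds
  have hsq : Real.sqrt (2 / 3) * Real.sqrt (2 / 3) = 2 / 3 := Real.mul_self_sqrt (by norm_num)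
  set s := Real.sqrt (2 / 3) with hs
  have ea : al (3 / 10) = 25 / 3 * (s + 3 / 10) := by
    unfold al
    rw [← hs]
    ring
  have eg : ga (3 / 10) = 25 / 3 * (s * (7 / 10) + 3 / 10 - 2 / 3) - 1 / 4 := by
    unfold ga
    rw [ea, ← hs]
    linear_combination (-25 / 3) * hsq
  rcases Xp_le (h := 3 / 10) (by norm_num) with h | h
  · rw [ea, eg] at h
    linarith
  · rw [ea, eg] at h
    exfalso
    linarith

/-- **the density of an eleven-neighbour packing is at least `371/1000`** -/
theorem lower_three {C : Set E3} (hC : IsNeighbourPacking 11 C) : 371 / 1000 ≤ lowerDensity C := by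
  have h1 := Xp_pos (h := 3 / 10) (by norm_num) (by norm_num)
  have h3 := density_lower2 hC (h := 3 / 10) (by norm_num) h1 hole_three
    (volB_Xp (by norm_num) (by norm_num) hole_three)
  refine le_trans ?_ h3
  rw [div_le_div_iff₀ (by norm_num) h1]
  linarith [Xp_three]

theorem le_min_three : 371 / 1000 ≤ minDensity 11 := by
  refine le_csInf ⟨_, thin, thin_packing, rfl⟩ ?_
  rintro d ⟨C, hC, rfl⟩
  exact lower_three hC

end

end MPdef58e
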