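import Pool.Agent.Work.MP_def58e_co.Lower

/-!
# MP_def58e_co: the volume of a polytope circumscribed about the ball, radial estimate

Tools: gnomonic coordinates and polar coordinates in the tangent plane.
-/

namespace MPdef58e

open MeasureTheory Set

noncomputable section

/-! ### sets of radii -/

theorem radial_one {T : Set ℝ} {g0 g1 : ℝ} (h0 : 0 < g0) (hT0 : ∀ r, 0 < r → r < g0 → r ∈ T)
    (hT1 : ∀ r ∈ T, 0 < r ∧ r ≤ g1) (hd : ∀ r ∈ T, ∀ s, 0 < s → s < r → s ∈ T) :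
    ∃ g, g0 ≤ g ∧ g ≤ g1 ∧ T =ᵐ[volume] Set.Ioc 0 g := by
  have hne : T.Nonempty := ⟨g0 / 2, hT0 _ (by linarith) (by linarith)⟩
  have hbd : BddAbove T := ⟨g1, fun r hr => (hT1 r hr).2⟩
  refine ⟨sSup T, ?_, csSup_le hne fun r hr => (hT1 r hr).2, ?_⟩
  · refine le_of_forall_lt_imp_le_of_dense fun r hr => ?_
    rcases le_or_gt r 0 with hr0 | hr0
    · exact hr0.trans ((hT1 _ hne.some_mem).1.le.trans (le_csSup hbd hne.some_mem))
    · exact le_csSup hbd (hT0 r hr0 hr)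
  · have h1 : Set.Ioo 0 (sSup T) ⊆ T := by
      intro r hr
      obtain ⟨t, ht, hrt⟩ := exists_lt_of_lt_csSup hne hr.2
      exact hd t ht r hr.1 hrt
    have h2 : T ⊆ Set.Ioc 0 (sSup T) := fun r hr => ⟨(hT1 r hr).1, le_csSup hbd hr⟩
    have h3 : (Set.Ioo 0 (sSup T) : Set ℝ) =ᵐ[volume] Set.Ioc 0 (sSup T) := Ioo_ae_eq_Ioc
    refine Filter.EventuallyLE.antisymm h2.eventuallyLE ?_
    exact h3.symm.le.trans h1.eventuallyLE

theorem lint_r {g : ℝ} (hg : 0 ≤ g) :
    ∫⁻ r in Set.Ioc 0 g, ENNReal.ofReal r = ENNReal.ofReal (g ^ 2 / 2) := by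
  rw [← ofReal_integral_eq_lintegral_ofReal]
  · rw [← intervalIntegral.integral_of_le hg, integral_id]
    norm_num
  · exact (continuous_id.integrableOn_Icc (a := 0) (b := g)).mono_set Set.Ioc_subset_Icc_self
  · filter_upwards [ae_restrict_mem measurableSet_Ioc] with r hr
    exact hr.1.le

theorem lint_z {g : ℝ} (hg : 0 ≤ g) :
    ∫⁻ r in Set.Ioc 0 g, ENNReal.ofReal (r ^ 2) = ENNReal.ofReal (g ^ 3 / 3) := by
  rw [← ofReal_integral_eq_lintegral_ofReal]
  · rw [← intervalIntegral.integral_of_le hg, integral_pow]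
    norm_num
  · exact ((continuous_pow 2).integrableOn_Icc (a := 0) (b := g)).mono_set Set.Ioc_subset_Icc_self
  · filter_upwards with r
    positivity

theorem hasDeriv_c (r : ℝ) : HasDerivAt (fun r : ℝ => -(1 / Real.sqrt (1 + r ^ 2)))
    (r * (1 / Real.sqrt (1 + r ^ 2)) ^ 3) r := by
  have hp : 0 < 1 + r ^ 2 := by positivity
  have hs : 0 < Real.sqrt (1 + r ^ 2) := Real.sqrt_pos.2 hp
  have h1 : HasDerivAt (fun r : ℝ => 1 + r ^ 2) (2 * r) r := by
    simpa using (hasDerivAt_pow 2 r).const_add 1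
  have h2 := h1.sqrt hp.ne'
  have h3 := (h2.inv hs.ne').neg
  have e1 : (fun r : ℝ => -(1 / Real.sqrt (1 + r ^ 2))) =
      (-(fun y : ℝ => Real.sqrt (1 + y ^ 2))⁻¹ : ℝ → ℝ) := by
    ext y
    simp [one_div]
  rw [e1]
  refine h3.congr_deriv ?_
  field_simp

theorem lint_c {g : ℝ} (hg : 0 ≤ g) :
    ∫⁻ r in Set.Ioc 0 g, ENNReal.ofReal (r * (1 / Real.sqrt (1 + r ^ 2)) ^ 3) =
      ENNReal.ofReal (1 - 1 / Real.sqrt (1 + g ^ 2)) := by
  have hcont : Continuous fun r : ℝ => r * (1 / Real.sqrt (1 + r ^ 2)) ^ 3 := by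
    refine continuous_id.mul ((continuous_const.div ?_ fun r => ?_).pow 3)
    · exact Real.continuous_sqrt.comp (by fun_prop)
    · exact (Real.sqrt_pos.2 (by positivity)).ne'
  rw [← ofReal_integral_eq_lintegral_ofReal]
  · rw [← intervalIntegral.integral_of_le hg]
    rw [intervalIntegral.integral_eq_sub_of_hasDerivAt (fun r _ => hasDeriv_c r)
      (hcont.intervalIntegrable 0 g)]
    congr 1
    norm_num
    ring
  · exact (hcont.integrableOn_Icc (a := 0) (b := g)).mono_set Set.Ioc_subset_Icc_self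
  · filter_upwards [ae_restrict_mem measurableSet_Ioc] with r hr
    have := hr.1
    positivity

/-! ### the plane -/

/-- `1/√(1 + |w|²)` -/
def cn (w : ℝ × ℝ) : ℝ := 1 / Real.sqrt (1 + (w.1 ^ 2 + w.2 ^ 2))

theorem cn_pos (w : ℝ × ℝ) : 0 < cn w := by
  unfold cn
  have : 0 < Real.sqrt (1 + (w.1 ^ 2 + w.2 ^ 2)) := Real.sqrt_pos.2 (by positivity)
  positivity

theorem cn_cont : Continuous cn := by
  unfold cn
  refine continuous_const.div ?_ fun w => ?_
  · exact Real.continuous_sqrt.comp (by fun_prop)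
  · exact (Real.sqrt_pos.2 (by positivity)).ne'

theorem cn_polar (r φ : ℝ) : cn (r * Real.cos φ, r * Real.sin φ) = 1 / Real.sqrt (1 + r ^ 2) := by
  unfold cn
  congr 3
  have := Real.sin_sq_add_cos_sq φ
  calc (r * Real.cos φ) ^ 2 + (r * Real.sin φ) ^ 2 = r ^ 2 * (Real.sin φ ^ 2 + Real.cos φ ^ 2) := by ring
    _ = r ^ 2 := by rw [this, mul_one]

/-- polar coordinates for an integral over a set -/
theorem polar_lint {F : Set (ℝ × ℝ)} (hF : MeasurableSet F) {f : ℝ × ℝ → ENNReal}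
    (hf : Measurable f) :
    ∫⁻ w in F, f w = ∫⁻ φ in Set.Ioo (-Real.pi) Real.pi,
      ∫⁻ r in {r : ℝ | 0 < r ∧ (r * Real.cos φ, r * Real.sin φ) ∈ F},
        ENNReal.ofReal r * f (r * Real.cos φ, r * Real.sin φ) := by
  have hmap : Measurable fun p : ℝ × ℝ => (p.1 * Real.cos p.2, p.1 * Real.sin p.2) := by fun_prop
  rw [← lintegral_indicator hF, ← lintegral_comp_polarCoord_symm]
  have e1 : polarCoord.target = Set.Ioi (0 : ℝ) ×ˢ Set.Ioo (-Real.pi) Real.pi := rfl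
  rw [e1, Measure.volume_eq_prod, ← Measure.prod_restrict, lintegral_prod_symm]
  · refine lintegral_congr fun φ => ?_
    have hms : MeasurableSet {r : ℝ | 0 < r ∧ (r * Real.cos φ, r * Real.sin φ) ∈ F} := by
      refine (measurableSet_Ioi (a := (0 : ℝ))).inter ?_
      exact hF.preimage (by fun_prop)
    rw [← lintegral_indicator hms, ← lintegral_indicator measurableSet_Ioi]
    refine lintegral_congr fun r => ?_
    by_cases h1 : 0 < r
    · by_cases h2 : (r * Real.cos φ, r * Real.sin φ) ∈ F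
      · rw [Set.indicator_of_mem (show r ∈ Set.Ioi 0 from h1),
          Set.indicator_of_mem (show r ∈ {r : ℝ | 0 < r ∧ (r * Real.cos φ, r * Real.sin φ) ∈ F} from
            ⟨h1, h2⟩)]
        rw [polarCoord_symm_apply, Set.indicator_of_mem h2, smul_eq_mul]
      · rw [Set.indicator_of_mem (show r ∈ Set.Ioi 0 from h1),
          Set.indicator_of_notMem (show r ∉ {r : ℝ | 0 < r ∧
            (r * Real.cos φ, r * Real.sin φ) ∈ F} from fun h => h2 h.2)]
        rw [polarCoord_symm_apply, Set.indicator_of_notMem h2, smul_zero]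
    · rw [Set.indicator_of_notMem (show r ∉ Set.Ioi (0 : ℝ) from h1),
        Set.indicator_of_notMem (show r ∉ {r : ℝ | 0 < r ∧
            (r * Real.cos φ, r * Real.sin φ) ∈ F} from fun h => h1 h.1)]
  · refine Measurable.aemeasurable ?_
    exact (ENNReal.measurable_ofReal.comp measurable_fst).mul ((hf.indicator hF).comp hmap)

/-- **the planar estimate** -/
theorem plane_le {F : Set (ℝ × ℝ)} (hF : MeasurableSet F) {g0 g1 α γ : ℝ} (h0 : 0 < g0)
    (hα : 0 ≤ α) (hγ : 0 ≤ γ)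
    (hF0 : ∀ w : ℝ × ℝ, w.1 ^ 2 + w.2 ^ 2 < g0 ^ 2 → w ∈ F)
    (hF1 : ∀ w ∈ F, w.1 ^ 2 + w.2 ^ 2 ≤ g1 ^ 2) (hg1 : 0 ≤ g1)
    (hst : ∀ w ∈ F, ∀ s : ℝ, 0 < s → s < 1 → s • w ∈ F)
    (hineq : ∀ g, g0 ≤ g → g ≤ g1 → g ^ 2 / 2 + γ ≤ α * (1 - 1 / Real.sqrt (1 + g ^ 2))) :
    volume F + ENNReal.ofReal (2 * Real.pi * γ) ≤
      ENNReal.ofReal α * ∫⁻ w in F, ENNReal.ofReal (cn w ^ 3) := by
  have h1 : volume F = ∫⁻ φ in Set.Ioo (-Real.pi) Real.pi,
      ∫⁻ r in {r : ℝ | 0 < r ∧ (r * Real.cos φ, r * Real.sin φ) ∈ F}, ENNReal.ofReal r := by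
    rw [← setLIntegral_one, polar_lint hF measurable_const]
    simp only [mul_one]
  have h2 : ENNReal.ofReal (2 * Real.pi * γ) =
      ∫⁻ _φ in Set.Ioo (-Real.pi) Real.pi, ENNReal.ofReal γ := by
    rw [setLIntegral_const, Real.volume_Ioo, mul_comm, ← ENNReal.ofReal_mul (by linarith [Real.pi_pos])]
    congr 1
    ring
  have hm3 : Measurable fun w : ℝ × ℝ => ENNReal.ofReal (cn w ^ 3) :=
    ENNReal.measurable_ofReal.comp (cn_cont.measurable.pow_const 3)
  rw [h1, h2, ← lintegral_add_right _ measurable_const, polar_lint hF hm3,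
    ← lintegral_const_mul' _ _ ENNReal.ofReal_ne_top]
  refine lintegral_mono fun φ => ?_
  have hsc := Real.sin_sq_add_cos_sq φ
  have hn : ∀ r : ℝ, (r * Real.cos φ) ^ 2 + (r * Real.sin φ) ^ 2 = r ^ 2 := by
    intro r
    calc (r * Real.cos φ) ^ 2 + (r * Real.sin φ) ^ 2 =
        r ^ 2 * (Real.sin φ ^ 2 + Real.cos φ ^ 2) := by ring
      _ = r ^ 2 := by rw [hsc, mul_one]
  obtain ⟨g, hg0, hgg1, hae⟩ := radial_one (T := {r : ℝ | 0 < r ∧ (r * Real.cos φ, r * Real.sin φ) ∈ F})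
    (g0 := g0) (g1 := g1) h0
    (fun r hr hr0 => ⟨hr, hF0 _ (by
      simp only
      rw [hn]
      exact pow_lt_pow_left₀ hr0 hr.le two_ne_zero)⟩)
    (fun r hr => ⟨hr.1, by
      have := hF1 _ hr.2
      simp only at this
      rw [hn] at this
      exact le_of_pow_le_pow_left₀ two_ne_zero hg1 this⟩)
    (fun r hr s hs hsr => ⟨hs, by
      have hr0 := hr.1
      have := hst _ hr.2 (s / r) (div_pos hs hr0) ((div_lt_one hr0).2 hsr)
      have e : (s / r) • ((r * Real.cos φ, r * Real.sin φ) : ℝ × ℝ) =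
          (s * Real.cos φ, s * Real.sin φ) := by
        ext
        · simp only [Prod.smul_mk, smul_eq_mul]
          field_simp
        · simp only [Prod.smul_mk, smul_eq_mul]
          field_simp
      rwa [e] at this⟩)
  have hgpos : 0 ≤ g := h0.le.trans hg0
  rw [setLIntegral_congr hae, setLIntegral_congr hae, lint_r hgpos]
  have h3 : ∫⁻ r in Set.Ioc 0 g, ENNReal.ofReal r *
      ENNReal.ofReal (cn (r * Real.cos φ, r * Real.sin φ) ^ 3) =
      ∫⁻ r in Set.Ioc 0 g, ENNReal.ofReal (r * (1 / Real.sqrt (1 + r ^ 2)) ^ 3) := by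
    refine setLIntegral_congr_fun measurableSet_Ioc fun r hr => ?_
    rw [cn_polar, ← ENNReal.ofReal_mul hr.1.le]
  rw [h3, lint_c hgpos, ← ENNReal.ofReal_mul hα, ← ENNReal.ofReal_add (by positivity) hγ]
  exact ENNReal.ofReal_le_ofReal (hineq g hg0 hgg1)

/-! ### gnomonic coordinates -/

/-- the volume of a set given in gnomonic coordinates by a height -/
theorem gnomonic {F : Set (ℝ × ℝ)} (hF : MeasurableSet F) {τ : ℝ × ℝ → ℝ} (hτ : Measurable τ)
    (hτ0 : ∀ w, 0 ≤ τ w) :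
    volume {p : ℝ × (ℝ × ℝ) | 0 < p.1 ∧ p.1 ≤ τ (p.1⁻¹ • p.2) ∧ p.1⁻¹ • p.2 ∈ F} =
      ∫⁻ w in F, ENNReal.ofReal (τ w ^ 3 / 3) := by
  have hsm : Measurable fun p : ℝ × (ℝ × ℝ) => p.1⁻¹ • p.2 := by fun_prop
  have hA : MeasurableSet
      {p : ℝ × (ℝ × ℝ) | 0 < p.1 ∧ p.1 ≤ τ (p.1⁻¹ • p.2) ∧ p.1⁻¹ • p.2 ∈ F} := by
    refine (measurableSet_lt measurable_const measurable_fst).inter ?_
    refine (measurableSet_le measurable_fst (hτ.comp hsm)).inter ?_
    exact hsm hF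
  have hB : MeasurableSet {p : ℝ × (ℝ × ℝ) | 0 < p.1 ∧ p.1 ≤ τ p.2 ∧ p.2 ∈ F} := by
    refine (measurableSet_lt measurable_const measurable_fst).inter ?_
    refine (measurableSet_le measurable_fst (hτ.comp measurable_snd)).inter ?_
    exact measurable_snd hF
  rw [Measure.volume_eq_prod, Measure.prod_apply hA]
  have h1 : ∀ z : ℝ, volume (Prod.mk z ⁻¹'
      {p : ℝ × (ℝ × ℝ) | 0 < p.1 ∧ p.1 ≤ τ (p.1⁻¹ • p.2) ∧ p.1⁻¹ • p.2 ∈ F}) =
      ∫⁻ w, {p : ℝ × (ℝ × ℝ) | 0 < p.1 ∧ p.1 ≤ τ p.2 ∧ p.2 ∈ F}.indicator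
        (fun p => ENNReal.ofReal (p.1 ^ 2)) (z, w) := by
    intro z
    by_cases hz : 0 < z
    · have e1 : Prod.mk z ⁻¹'
          {p : ℝ × (ℝ × ℝ) | 0 < p.1 ∧ p.1 ≤ τ (p.1⁻¹ • p.2) ∧ p.1⁻¹ • p.2 ∈ F} =
          (fun v : ℝ × ℝ => z⁻¹ • v) ⁻¹' {w | z ≤ τ w ∧ w ∈ F} := by
        ext v
        simp only [Set.mem_preimage, Set.mem_ofPred_eq]
        tauto
      rw [e1, Measure.addHaar_preimage_smul _ (inv_ne_zero hz.ne')]
      have e2 : |((z⁻¹) ^ Module.finrank ℝ (ℝ × ℝ))⁻¹| = z ^ 2 := by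
        rw [Module.finrank_prod, Module.finrank_self]
        norm_num
      have hC : MeasurableSet {w : ℝ × ℝ | z ≤ τ w ∧ w ∈ F} :=
        (measurableSet_le measurable_const hτ).inter hF
      rw [e2, ← setLIntegral_one, ← lintegral_const_mul _ measurable_const, ← lintegral_indicator hC]
      refine lintegral_congr fun w => ?_
      by_cases hw : z ≤ τ w ∧ w ∈ F
      · rw [Set.indicator_of_mem (show w ∈ {w : ℝ × ℝ | z ≤ τ w ∧ w ∈ F} from hw),
          Set.indicator_of_mem (show (z, w) ∈ {p : ℝ × (ℝ × ℝ) | 0 < p.1 ∧ p.1 ≤ τ p.2 ∧ p.2 ∈ F}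
            from ⟨hz, hw.1, hw.2⟩), mul_one]
      · rw [Set.indicator_of_notMem (show w ∉ {w : ℝ × ℝ | z ≤ τ w ∧ w ∈ F} from hw),
          Set.indicator_of_notMem (show (z, w) ∉ {p : ℝ × (ℝ × ℝ) | 0 < p.1 ∧ p.1 ≤ τ p.2 ∧ p.2 ∈ F}
            from fun h => hw ⟨h.2.1, h.2.2⟩)]
    · have e1 : Prod.mk z ⁻¹'
          {p : ℝ × (ℝ × ℝ) | 0 < p.1 ∧ p.1 ≤ τ (p.1⁻¹ • p.2) ∧ p.1⁻¹ • p.2 ∈ F} = ∅ := by
        ext v
        simp only [Set.mem_preimage, Set.mem_ofPred_eq, Set.mem_empty_iff_false, iff_false]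
        tauto
      rw [e1, measure_empty]
      symm
      rw [lintegral_eq_zero_iff']
      · filter_upwards with w
        exact Set.indicator_of_notMem (fun h => hz h.1) _
      · refine Measurable.aemeasurable ?_
        exact ((ENNReal.measurable_ofReal.comp (measurable_fst.pow_const 2)).indicator hB).comp
          measurable_prodMk_left
  rw [lintegral_congr h1, lintegral_lintegral_swap]
  · rw [← lintegral_indicator hF]
    refine lintegral_congr fun w => ?_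
    by_cases hw : w ∈ F
    · rw [Set.indicator_of_mem hw, ← lint_z (hτ0 w), ← lintegral_indicator measurableSet_Ioc]
      refine lintegral_congr fun z => ?_
      by_cases hz : 0 < z ∧ z ≤ τ w
      · rw [Set.indicator_of_mem (show z ∈ Set.Ioc 0 (τ w) from hz),
          Set.indicator_of_mem (show (z, w) ∈ {p : ℝ × (ℝ × ℝ) | 0 < p.1 ∧ p.1 ≤ τ p.2 ∧ p.2 ∈ F}
            from ⟨hz.1, hz.2, hw⟩)]
      · rw [Set.indicator_of_notMem (show z ∉ Set.Ioc 0 (τ w) from hz),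
          Set.indicator_of_notMem (show (z, w) ∉ {p : ℝ × (ℝ × ℝ) | 0 < p.1 ∧ p.1 ≤ τ p.2 ∧ p.2 ∈ F}
            from fun h => hz ⟨h.1, h.2.1⟩)]
    · rw [Set.indicator_of_notMem hw, lintegral_eq_zero_iff']
      · filter_upwards with z
        exact Set.indicator_of_notMem (fun h => hw h.2.2) _
      · refine Measurable.aemeasurable ?_
        exact ((ENNReal.measurable_ofReal.comp (measurable_fst.pow_const 2)).indicator hB).comp
          measurable_prodMk_right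
  · refine Measurable.aemeasurable ?_
    exact (ENNReal.measurable_ofReal.comp (measurable_fst.pow_const 2)).indicator hB

end

end MPdef58e
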