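import Pool.Agent.Work.MP_def58e_co.Radial

/-!
# MP_def58e_co: the volume of a polytope circumscribed about the ball, radial estimate: the cells
-/

namespace MPdef58e

open MeasureTheory Set

noncomputable section

/-- coordinates adapted to a unit vector -/
theorem exists_coord {u : E3} (hu : ‖u‖ = 1) : ∃ M : E3 → ℝ × (ℝ × ℝ),
    MeasurePreserving M volume volume ∧ (∀ x, (M x).1 = inner ℝ u x) ∧
    (∀ x y, inner ℝ x y = (M x).1 * (M y).1 + ((M x).2.1 * (M y).2.1 + (M x).2.2 * (M y).2.2)) ∧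
    Function.Surjective M := by
  have hv : Orthonormal ℝ (({0} : Set (Fin 3)).domRestrict (fun _ : Fin 3 => u)) := by
    refine ⟨fun _ => hu, fun i j hij => ?_⟩
    exact absurd (Subsingleton.elim i j) hij
  obtain ⟨b, hb⟩ := hv.exists_orthonormalBasis_extension_of_card_eq (by simp)
  have hb0 : b 0 = u := hb 0 rfl
  refine ⟨fun x => (b.repr x 0, (b.repr x 1, b.repr x 2)), ?_, fun x => ?_, fun x y => ?_,
    fun p => ⟨b.repr.symm (WithLp.toLp 2 ![p.1, p.2.1, p.2.2]), ?_⟩⟩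
  · have h1 := b.measurePreserving_repr
    have h2 := PiLp.volume_preserving_ofLp (Fin 3)
    have h3 := volume_preserving_piFinSuccAbove (fun _ : Fin 3 => ℝ) 0
    have h4 := volume_preserving_finTwoArrow ℝ
    have h5 : MeasurePreserving (Prod.map (id : ℝ → ℝ) (MeasurableEquiv.finTwoArrow (α := ℝ)))
        (volume.prod volume) (volume.prod volume) := (MeasurePreserving.id volume).prod h4
    exact h5.comp (h3.comp (h2.comp h1))
  · change b.repr x 0 = _
    rw [b.repr_apply_apply, hb0]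
  · rw [← b.repr.inner_map_map x y, PiLp.inner_apply, Fin.sum_univ_three]
    simp only [RCLike.inner_apply, conj_trivial]
    ring
  · simp

/-- the cell of `u i` -/
def cell (u : Fin 11 → E3) (i : Fin 11) : Set E3 :=
  {x | 0 < inner ℝ (u i) x ∧ (∀ j, j < i → inner ℝ (u j) x < inner ℝ (u i) x) ∧
    (∀ j, i < j → inner ℝ (u j) x ≤ inner ℝ (u i) x)}

theorem cell_measurable (u : Fin 11 → E3) (i : Fin 11) : MeasurableSet (cell u i) := by
  have hm : ∀ j, Measurable fun x : E3 => inner ℝ (u j) x := fun j => by fun_prop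
  have e : cell u i = {x : E3 | 0 < inner ℝ (u i) x} ∩
      ((⋂ j, ⋂ (_ : j < i), {x : E3 | inner ℝ (u j) x < inner ℝ (u i) x}) ∩
        ⋂ j, ⋂ (_ : i < j), {x : E3 | inner ℝ (u j) x ≤ inner ℝ (u i) x}) := by
    ext x
    simp [cell]
  rw [e]
  refine (measurableSet_lt measurable_const (hm i)).inter (MeasurableSet.inter ?_ ?_)
  · exact MeasurableSet.iInter fun j => MeasurableSet.iInter fun _ => measurableSet_lt (hm j) (hm i)
  · exact MeasurableSet.iInter fun j => MeasurableSet.iInter fun _ => measurableSet_le (hm j) (hm i)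

theorem cell_disjoint (u : Fin 11 → E3) {i j : Fin 11} (hij : i ≠ j) :
    Disjoint (cell u i) (cell u j) := by
  rw [Set.disjoint_left]
  rintro x ⟨-, h1, h2⟩ ⟨-, h3, h4⟩
  rcases lt_or_gt_of_ne hij with h | h
  · have := h2 j h
    have := h3 i h
    linarith
  · have := h1 j h
    have := h4 i h
    linarith

/-- a vector with positive maximum is in a cell -/
theorem mem_cell {u : Fin 11 → E3} {x : E3} (h : ∃ i, 0 < inner ℝ (u i) x) : ∃ i, x ∈ cell u i := by
  classical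
  obtain ⟨i0, hi0⟩ := h
  obtain ⟨m, -, hm⟩ := Finset.exists_max_image Finset.univ (fun i => inner ℝ (u i) x) ⟨i0, Finset.mem_univ _⟩
  set S := (Finset.univ : Finset (Fin 11)).filter fun i => inner ℝ (u i) x = inner ℝ (u m) x with hS
  have hne : S.Nonempty := ⟨m, Finset.mem_filter.2 ⟨Finset.mem_univ _, rfl⟩⟩
  have h1 := S.min'_mem hne
  have h2 := (Finset.mem_filter.1 h1).2
  refine ⟨S.min' hne, ?_, fun j hj => ?_, fun j _ => ?_⟩
  · rw [h2]
    exact lt_of_lt_of_le hi0 (hm i0 (Finset.mem_univ _))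
  · refine lt_of_le_of_ne (by rw [h2]; exact hm j (Finset.mem_univ _)) fun h3 => ?_
    have h4 : j ∈ S := Finset.mem_filter.2 ⟨Finset.mem_univ _, h3.trans h2⟩
    exact absurd (S.min'_le j h4) (not_le.2 hj)
  · rw [h2]
    exact hm j (Finset.mem_univ _)

/-- **the estimate of a cell** -/
theorem cell_le {u : Fin 11 → E3} (hu : ∀ i, ‖u i‖ = 1) (hsep : ∀ i j, i ≠ j → inner ℝ (u i) (u j) ≤ 1 / 2)
    {h α γ : ℝ} (hh : 0 < h) (hh1 : h ≤ 1) (hhole : ∀ x : E3, ∃ i, h * ‖x‖ ≤ inner ℝ (u i) x)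
    (hα : 0 ≤ α) (hγ : 0 ≤ γ)
    (hineq : ∀ g, Real.sqrt 3 / 3 ≤ g → g ≤ Real.sqrt (1 / h ^ 2 - 1) →
      g ^ 2 / 2 + γ ≤ α * (1 - 1 / Real.sqrt (1 + g ^ 2))) (i : Fin 11) :
    volume (cell u i ∩ {x | inner ℝ (u i) x ≤ 1}) + ENNReal.ofReal (2 * Real.pi * γ / 3) ≤
      ENNReal.ofReal α * volume (cell u i ∩ Metric.closedBall 0 1) := by
  obtain ⟨M, hM, hM1, hM2, hMs⟩ := exists_coord (hu i)
  set F : Set (ℝ × ℝ) := {w | (∀ j, j < i → (M (u j)).1 + ((M (u j)).2.1 * w.1 + (M (u j)).2.2 * w.2) < 1) ∧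
    (∀ j, i < j → (M (u j)).1 + ((M (u j)).2.1 * w.1 + (M (u j)).2.2 * w.2) ≤ 1)} with hF
  have hFm : MeasurableSet F := by
    have hm : ∀ j, Measurable fun w : ℝ × ℝ =>
      (M (u j)).1 + ((M (u j)).2.1 * w.1 + (M (u j)).2.2 * w.2) := fun j => by fun_prop
    have e : F = (⋂ j, ⋂ (_ : j < i),
          {w : ℝ × ℝ | (M (u j)).1 + ((M (u j)).2.1 * w.1 + (M (u j)).2.2 * w.2) < 1}) ∩
        ⋂ j, ⋂ (_ : i < j),
          {w : ℝ × ℝ | (M (u j)).1 + ((M (u j)).2.1 * w.1 + (M (u j)).2.2 * w.2) ≤ 1} := by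
      ext x
      simp [hF]
    rw [e]
    refine MeasurableSet.inter ?_ ?_
    · exact MeasurableSet.iInter fun j => MeasurableSet.iInter fun _ =>
        measurableSet_lt (hm j) measurable_const
    · exact MeasurableSet.iInter fun j => MeasurableSet.iInter fun _ =>
        measurableSet_le (hm j) measurable_const
  -- the membership in the cell in gnomonic coordinates
  have hz : ∀ x : E3, 0 < (M x).1 → ∀ j, inner ℝ (u j) x =
      (M x).1 * ((M (u j)).1 + ((M (u j)).2.1 * ((M x).1⁻¹ • (M x).2).1 +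
        (M (u j)).2.2 * ((M x).1⁻¹ • (M x).2).2)) := by
    intro x hx j
    rw [hM2]
    simp only [Prod.smul_fst, Prod.smul_snd, smul_eq_mul]
    field_simp
  have hcell : ∀ x : E3, x ∈ cell u i ↔ 0 < (M x).1 ∧ (M x).1⁻¹ • (M x).2 ∈ F := by
    intro x
    unfold cell
    rw [Set.mem_ofPred_eq, ← hM1]
    constructor
    · rintro ⟨h1, h2, h3⟩
      refine ⟨h1, fun j hj => ?_, fun j hj => ?_⟩
      · have h4 := h2 j hj
        rw [hz x h1] at h4
        by_contra hc
        push Not at hc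
        nlinarith
      · have h4 := h3 j hj
        rw [hz x h1] at h4
        by_contra hc
        push Not at hc
        nlinarith
    · rintro ⟨h1, h2, h3⟩
      refine ⟨h1, fun j hj => ?_, fun j hj => ?_⟩
      · have h4 := h2 j hj
        rw [hz x h1]
        nlinarith
      · have h4 := h3 j hj
        rw [hz x h1]
        nlinarith
  have hnorm : ∀ x : E3, ‖x‖ ^ 2 = (M x).1 ^ 2 + ((M x).2.1 ^ 2 + (M x).2.2 ^ 2) := by
    intro x
    rw [← real_inner_self_eq_norm_sq, hM2]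
    ring
  have hui : (M (u i)).1 = 1 := by
    rw [hM1, real_inner_self_eq_norm_sq, hu i]
    norm_num
  -- the two volumes
  have hA : volume (cell u i ∩ {x | inner ℝ (u i) x ≤ 1}) =
      ∫⁻ w in F, ENNReal.ofReal ((1 : ℝ) ^ 3 / 3) := by
    rw [← gnomonic hFm (τ := fun _ => (1 : ℝ)) measurable_const fun _ => zero_le_one]
    rw [← hM.measure_preimage]
    · congr 1
      ext x
      simp only [Set.mem_inter_iff, Set.mem_ofPred_eq, Set.mem_preimage]
      rw [hcell x, ← hM1]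
      tauto
    · refine MeasurableSet.nullMeasurableSet ?_
      refine (measurableSet_lt measurable_const measurable_fst).inter ?_
      refine (measurableSet_le measurable_fst measurable_const).inter ?_
      exact hFm.preimage (by fun_prop)
  have hB : volume (cell u i ∩ Metric.closedBall 0 1) =
      ∫⁻ w in F, ENNReal.ofReal (cn w ^ 3 / 3) := by
    rw [← gnomonic hFm cn_cont.measurable fun w => (cn_pos w).le]
    rw [← hM.measure_preimage]
    · congr 1
      ext x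
      simp only [Set.mem_inter_iff, Set.mem_ofPred_eq, Set.mem_preimage, Metric.mem_closedBall,
        dist_zero_right]
      rw [hcell x]
      have key : 0 < (M x).1 → (‖x‖ ≤ 1 ↔ (M x).1 ≤ cn ((M x).1⁻¹ • (M x).2)) := by
        intro hx
        have hs : 0 < Real.sqrt (1 + (((M x).1⁻¹ • (M x).2).1 ^ 2 + ((M x).1⁻¹ • (M x).2).2 ^ 2)) :=
          Real.sqrt_pos.2 (by positivity)
        have e1 : ‖x‖ = (M x).1 *
            Real.sqrt (1 + (((M x).1⁻¹ • (M x).2).1 ^ 2 + ((M x).1⁻¹ • (M x).2).2 ^ 2)) := by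
          have e2 : ‖x‖ ^ 2 = ((M x).1 *
            Real.sqrt (1 + (((M x).1⁻¹ • (M x).2).1 ^ 2 + ((M x).1⁻¹ • (M x).2).2 ^ 2))) ^ 2 := by
            rw [mul_pow, Real.sq_sqrt (by positivity), hnorm]
            simp only [Prod.smul_fst, Prod.smul_snd, smul_eq_mul]
            field_simp
          exact (pow_left_inj₀ (norm_nonneg x) (by positivity) two_ne_zero).1 e2
        rw [e1]
        unfold cn
        rw [le_div_iff₀ hs]
      constructor
      · rintro ⟨⟨h1, h2⟩, h3⟩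
        exact ⟨h1, (key h1).1 h3, h2⟩
      · rintro ⟨h1, h2, h3⟩
        exact ⟨⟨h1, h3⟩, (key h1).2 h2⟩
    · refine MeasurableSet.nullMeasurableSet ?_
      refine (measurableSet_lt measurable_const measurable_fst).inter ?_
      refine (measurableSet_le measurable_fst (cn_cont.measurable.comp (by fun_prop))).inter ?_
      exact hFm.preimage (by fun_prop)
  -- the geometry of `F`
  have hsq3 : Real.sqrt 3 ^ 2 = 3 := Real.sq_sqrt (by norm_num)
  have hs3 : 0 < Real.sqrt 3 := by positivity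
  have hij : ∀ j, j ≠ i → (M (u j)).1 ≤ 1 / 2 ∧
      (M (u j)).2.1 ^ 2 + (M (u j)).2.2 ^ 2 = 1 - (M (u j)).1 ^ 2 := by
    intro j hj
    refine ⟨?_, ?_⟩
    · rw [hM1]
      exact hsep i j hj.symm
    · have := hnorm (u j)
      rw [hu j] at this
      linarith
  have hF0 : ∀ w : ℝ × ℝ, w.1 ^ 2 + w.2 ^ 2 < (Real.sqrt 3 / 3) ^ 2 → w ∈ F := by
    intro w hw
    have hw' : w.1 ^ 2 + w.2 ^ 2 < 1 / 3 := by
      have : (Real.sqrt 3 / 3) ^ 2 = 1 / 3 := by rw [div_pow, hsq3]; norm_num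
      linarith
    have key : ∀ j, j ≠ i → (M (u j)).1 + ((M (u j)).2.1 * w.1 + (M (u j)).2.2 * w.2) < 1 := by
      intro j hj
      obtain ⟨h1, h2⟩ := hij j hj
      set a := (M (u j)).1
      set p := (M (u j)).2.1
      set q := (M (u j)).2.2
      by_contra hc
      push Not at hc
      have h3 : 1 - a ≤ p * w.1 + q * w.2 := by linarith
      have h4 : (p * w.1 + q * w.2) ^ 2 ≤ (p ^ 2 + q ^ 2) * (w.1 ^ 2 + w.2 ^ 2) := by
        nlinarith [sq_nonneg (p * w.2 - q * w.1)]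
      have h5 : (1 - a) ^ 2 ≤ (1 - a ^ 2) * (w.1 ^ 2 + w.2 ^ 2) := by
        rw [← h2]
        refine le_trans ?_ h4
        exact pow_le_pow_left₀ (by linarith) h3 2
      have h6 : a ^ 2 ≤ 1 := by
        have : 0 ≤ p ^ 2 + q ^ 2 := by positivity
        linarith
      have h7 : (1 - a ^ 2) * (w.1 ^ 2 + w.2 ^ 2) ≤ (1 - a ^ 2) * (1 / 3) :=
        mul_le_mul_of_nonneg_left hw'.le (by linarith)
      have h8 : 3 * (1 - a) ^ 2 ≤ 1 - a ^ 2 := by linarith
      have h9 : (1 - a) * (2 - 4 * a) ≤ 0 := by nlinarith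
      have h10 : a = 1 / 2 := by nlinarith
      rw [h10] at h5
      nlinarith
    exact ⟨fun j hj => key j hj.ne, fun j hj => (key j hj.ne').le⟩
  have hh2 : 1 ≤ 1 / h ^ 2 := by
    rw [le_div_iff₀ (by positivity), one_mul]
    exact pow_le_one₀ hh.le hh1
  have hF1 : ∀ w ∈ F, w.1 ^ 2 + w.2 ^ 2 ≤ Real.sqrt (1 / h ^ 2 - 1) ^ 2 := by
    intro w hw
    rw [Real.sq_sqrt (by linarith)]
    -- the point `x` with coordinates `(1, w)`
    obtain ⟨x, hx⟩ : ∃ x : E3, M x = (1, w) := hMs _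
    obtain ⟨j, hj⟩ := hhole x
    have h1 : 0 < (M x).1 := by rw [hx]; norm_num
    have h2 : inner ℝ (u j) x ≤ 1 := by
      rw [hz x h1 j, hx]
      simp only [inv_one, one_smul, one_mul]
      rcases lt_trichotomy j i with h3 | h3 | h3
      · exact (hw.1 j h3).le
      · rw [h3, hui]
        have h4 := hnorm (u i)
        rw [hu i, hui] at h4
        have h5 : (M (u i)).2.1 = 0 := by nlinarith [sq_nonneg (M (u i)).2.1, sq_nonneg (M (u i)).2.2]
        have h6 : (M (u i)).2.2 = 0 := by nlinarith [sq_nonneg (M (u i)).2.1, sq_nonneg (M (u i)).2.2]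
        rw [h5, h6]
        norm_num
      · exact hw.2 j h3
    have h3 := hnorm x
    rw [hx] at h3
    simp only at h3
    have h4 : h * ‖x‖ ≤ 1 := hj.trans h2
    have h5 : h ^ 2 * ‖x‖ ^ 2 ≤ 1 := by
      have := mul_le_mul h4 h4 (by positivity) zero_le_one
      nlinarith
    rw [h3] at h5
    have h6 : 1 ^ 2 + (w.1 ^ 2 + w.2 ^ 2) ≤ 1 / h ^ 2 := by
      rw [le_div_iff₀ (by positivity)]
      linarith
    linarith
  have hst : ∀ w ∈ F, ∀ s : ℝ, 0 < s → s < 1 → s • w ∈ F := by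
    intro w hw s hs hs1
    refine ⟨fun j hj => ?_, fun j hj => ?_⟩
    · have h1 := hw.1 j hj
      have h2 := (hij j hj.ne).1
      simp only [Prod.smul_fst, Prod.smul_snd, smul_eq_mul]
      nlinarith
    · have h1 := hw.2 j hj
      have h2 := (hij j hj.ne').1
      simp only [Prod.smul_fst, Prod.smul_snd, smul_eq_mul]
      nlinarith
  have hmain := plane_le hFm (g0 := Real.sqrt 3 / 3) (g1 := Real.sqrt (1 / h ^ 2 - 1)) (α := α) (γ := γ)
    (by positivity) hα hγ hF0 hF1 (Real.sqrt_nonneg _) hst hineq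
  rw [hA, hB, setLIntegral_const]
  have e3 : ∫⁻ w in F, ENNReal.ofReal (cn w ^ 3 / 3) =
      ENNReal.ofReal (1 / 3) * ∫⁻ w in F, ENNReal.ofReal (cn w ^ 3) := by
    rw [← lintegral_const_mul' _ _ ENNReal.ofReal_ne_top]
    refine lintegral_congr fun w => ?_
    rw [← ENNReal.ofReal_mul (by norm_num)]
    congr 1
    ring
  have e4 : ENNReal.ofReal (2 * Real.pi * γ / 3) = ENNReal.ofReal (1 / 3) *
      ENNReal.ofReal (2 * Real.pi * γ) := by
    rw [← ENNReal.ofReal_mul (by norm_num)]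
    congr 1
    ring
  rw [e3, e4, one_pow, ← mul_add, mul_left_comm]
  exact mul_le_mul_right hmain _

/-- **the volume of the polytope** -/
theorem poly_le {u : Fin 11 → E3} (hu : ∀ i, ‖u i‖ = 1)
    (hsep : ∀ i j, i ≠ j → inner ℝ (u i) (u j) ≤ 1 / 2)
    {h α γ : ℝ} (hh : 0 < h) (hh1 : h ≤ 1) (hhole : ∀ x : E3, ∃ i, h * ‖x‖ ≤ inner ℝ (u i) x)
    (hα : 0 ≤ α) (hγ : 0 ≤ γ)
    (hineq : ∀ g, Real.sqrt 3 / 3 ≤ g → g ≤ Real.sqrt (1 / h ^ 2 - 1) →
      g ^ 2 / 2 + γ ≤ α * (1 - 1 / Real.sqrt (1 + g ^ 2))) :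
    volume {x : E3 | ∀ i, inner ℝ (u i) x ≤ 1} ≠ ⊤ ∧
    volume.real {x : E3 | ∀ i, inner ℝ (u i) x ≤ 1} ≤ V1 * (α - 11 / 2 * γ) := by
  have hcov : {x : E3 | ∀ i, inner ℝ (u i) x ≤ 1} ⊆
      {0} ∪ ⋃ i ∈ (Finset.univ : Finset (Fin 11)), (cell u i ∩ {x | inner ℝ (u i) x ≤ 1}) := by
    intro x hx
    by_cases hx0 : x = 0
    · exact Or.inl hx0
    · right
      obtain ⟨i, hi⟩ := hhole x
      have h1 : 0 < ‖x‖ := norm_pos_iff.2 hx0
      obtain ⟨j, hj⟩ := mem_cell (u := u) (x := x) ⟨i, lt_of_lt_of_le (mul_pos hh h1) hi⟩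
      rw [Set.mem_iUnion₂]
      exact ⟨j, Finset.mem_univ _, hj, hx j⟩
  have h1 : volume {x : E3 | ∀ i, inner ℝ (u i) x ≤ 1} ≤
      ∑ i : Fin 11, volume (cell u i ∩ {x | inner ℝ (u i) x ≤ 1}) := by
    refine (measure_mono hcov).trans ((measure_union_le _ _).trans ?_)
    rw [measure_singleton, zero_add]
    exact measure_biUnion_finset_le _ _
  have h2 : ∑ i : Fin 11, volume (cell u i ∩ Metric.closedBall 0 1) ≤
      volume (Metric.closedBall (0 : E3) 1) := by
    rw [← measure_biUnion_finset]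
    · exact measure_mono (Set.iUnion₂_subset fun i _ => Set.inter_subset_right)
    · intro i _ j _ hij
      exact (cell_disjoint u hij).mono Set.inter_subset_left Set.inter_subset_left
    · intro i _
      exact (cell_measurable u i).inter Metric.isClosed_closedBall.measurableSet
  have h3 : volume {x : E3 | ∀ i, inner ℝ (u i) x ≤ 1} + 11 * ENNReal.ofReal (2 * Real.pi * γ / 3) ≤
      ENNReal.ofReal α * volume (Metric.closedBall (0 : E3) 1) := by
    calc volume {x : E3 | ∀ i, inner ℝ (u i) x ≤ 1} + 11 * ENNReal.ofReal (2 * Real.pi * γ / 3)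
        ≤ ∑ i : Fin 11, volume (cell u i ∩ {x | inner ℝ (u i) x ≤ 1}) +
          ∑ _i : Fin 11, ENNReal.ofReal (2 * Real.pi * γ / 3) := by
          refine add_le_add h1 (le_of_eq ?_)
          simp
      _ = ∑ i : Fin 11, (volume (cell u i ∩ {x | inner ℝ (u i) x ≤ 1}) +
          ENNReal.ofReal (2 * Real.pi * γ / 3)) := by rw [Finset.sum_add_distrib]
      _ ≤ ∑ i : Fin 11, ENNReal.ofReal α * volume (cell u i ∩ Metric.closedBall 0 1) :=
          Finset.sum_le_sum fun i _ => cell_le hu hsep hh hh1 hhole hα hγ hineq i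
      _ = ENNReal.ofReal α * ∑ i : Fin 11, volume (cell u i ∩ Metric.closedBall 0 1) := by
          rw [Finset.mul_sum]
      _ ≤ _ := by gcongr
  have hB : volume (Metric.closedBall (0 : E3) 1) = ENNReal.ofReal V1 := by
    have := vol_closedBall (0 : E3) (zero_le_one' ℝ)
    rw [one_pow, one_mul] at this
    rw [← this, Measure.real, ENNReal.ofReal_toReal]
    exact measure_closedBall_lt_top.ne
  have hc : (11 : ENNReal) * ENNReal.ofReal (2 * Real.pi * γ / 3) =
      ENNReal.ofReal (V1 * (11 / 2 * γ)) := by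
    rw [show (11 : ENNReal) = ENNReal.ofReal 11 by simp, ← ENNReal.ofReal_mul (by norm_num), V1_eq]
    congr 1
    ring
  rw [hB, hc, ← ENNReal.ofReal_mul hα] at h3
  have hfin : volume {x : E3 | ∀ i, inner ℝ (u i) x ≤ 1} ≠ ⊤ := by
    intro ht
    rw [ht, top_add] at h3
    exact absurd h3 (not_le.2 ENNReal.ofReal_lt_top)
  refine ⟨hfin, ?_⟩
  have h4 : volume {x : E3 | ∀ i, inner ℝ (u i) x ≤ 1} =
      ENNReal.ofReal (volume.real {x : E3 | ∀ i, inner ℝ (u i) x ≤ 1}) := by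
    rw [Measure.real, ENNReal.ofReal_toReal hfin]
  have hV := V1_pos
  rw [h4, ← ENNReal.ofReal_add measureReal_nonneg (by positivity),
    ENNReal.ofReal_le_ofReal_iff (by positivity)] at h3
  linarith

/-- the number `m = (4/3) (√3/2 + h)/h²` -/
def mh (h : ℝ) : ℝ := 4 / 3 * (Real.sqrt 3 / 2 + h) / h ^ 2

/-- the bound of the relative volume -/
def Xh (h : ℝ) : ℝ := 11 / 12 + mh h * (11 * Real.sqrt 3 / 8 - 9 / 4)

theorem sqrt3_bounds : (1.7320508 : ℝ) ≤ Real.sqrt 3 ∧ Real.sqrt 3 ≤ 1.7320509 := by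
  constructor
  · exact Real.le_sqrt_of_sq_le (by norm_num)
  · rw [Real.sqrt_le_left (by norm_num)]
    norm_num

theorem poly_le_X {u : Fin 11 → E3} (hu : ∀ i, ‖u i‖ = 1)
    (hsep : ∀ i j, i ≠ j → inner ℝ (u i) (u j) ≤ 1 / 2)
    {h : ℝ} (hh : 0 < h) (hh1 : h ≤ 1 / 2) (hhole : ∀ x : E3, ∃ i, h * ‖x‖ ≤ inner ℝ (u i) x) :
    volume {x : E3 | ∀ i, inner ℝ (u i) x ≤ 1} ≠ ⊤ ∧
    volume.real {x : E3 | ∀ i, inner ℝ (u i) x ≤ 1} ≤ Xh h * V1 := by
  obtain ⟨hs1, hs2⟩ := sqrt3_bounds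
  have hsq : Real.sqrt 3 ^ 2 = 3 := Real.sq_sqrt (by norm_num)
  have hm0 : 3 ≤ mh h := by
    unfold mh
    rw [le_div_iff₀ (by positivity)]
    nlinarith
  have hγ : 0 ≤ (mh h * (1 - Real.sqrt 3 / 2) - 1 / 3) / 2 := by nlinarith
  have hα : 0 ≤ mh h / 2 := by linarith
  have key := poly_le hu hsep (h := h) (α := mh h / 2) (γ := (mh h * (1 - Real.sqrt 3 / 2) - 1 / 3) / 2)
    hh (by linarith) hhole hα hγ ?_
  · refine ⟨key.1, key.2.trans (le_of_eq ?_)⟩
    unfold Xh
    ring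
  · intro g hg0 hg1
    set x := 1 / Real.sqrt (1 + g ^ 2) with hx
    have hgpos : 0 ≤ g := le_trans (by positivity) hg0
    have hsg : 0 < Real.sqrt (1 + g ^ 2) := Real.sqrt_pos.2 (by positivity)
    have hxpos : 0 < x := by positivity
    have hxg : x ^ 2 * (1 + g ^ 2) = 1 := by
      rw [hx, div_pow, Real.sq_sqrt (by positivity)]
      field_simp
    -- `h ≤ x ≤ √3/2`
    have h1 : g ^ 2 ≤ 1 / h ^ 2 - 1 := by
      have h2 : (0 : ℝ) ≤ 1 / h ^ 2 - 1 := by
        have : 1 ≤ 1 / h ^ 2 := by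
          rw [le_div_iff₀ (by positivity)]
          nlinarith
        linarith
      calc g ^ 2 ≤ Real.sqrt (1 / h ^ 2 - 1) ^ 2 := pow_le_pow_left₀ hgpos hg1 2
        _ = _ := Real.sq_sqrt h2
    have h2 : 1 / 3 ≤ g ^ 2 := by
      calc (1 : ℝ) / 3 = (Real.sqrt 3 / 3) ^ 2 := by rw [div_pow, hsq]; norm_num
        _ ≤ g ^ 2 := pow_le_pow_left₀ (by positivity) hg0 2
    have hxh : h ≤ x := by
      have h3 : (1 + g ^ 2) * h ^ 2 ≤ 1 := by
        have : 1 + g ^ 2 ≤ 1 / h ^ 2 := by linarith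
        rwa [le_div_iff₀ (by positivity)] at this
      have h4 : h ^ 2 ≤ x ^ 2 := by nlinarith
      exact le_of_pow_le_pow_left₀ two_ne_zero hxpos.le h4
    have hx0 : x ≤ Real.sqrt 3 / 2 := by
      have h4 : x ^ 2 ≤ (Real.sqrt 3 / 2) ^ 2 := by
        have h5 : (Real.sqrt 3 / 2) ^ 2 = 3 / 4 := by
          rw [div_pow, hsq]
          norm_num
        rw [h5]
        nlinarith [sq_nonneg x]
      exact le_of_pow_le_pow_left₀ two_ne_zero (by positivity) h4
    -- the inequality `1/x² - 4/3 ≤ m (√3/2 - x)`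
    have hg2 : g ^ 2 = 1 / x ^ 2 - 1 := by
      have : x ^ 2 ≠ 0 := by positivity
      field_simp
      linarith
    have h5 : (Real.sqrt 3 / 2 + x) / x ^ 2 ≤ (Real.sqrt 3 / 2 + h) / h ^ 2 := by
      have a1 : Real.sqrt 3 / 2 / x ^ 2 ≤ Real.sqrt 3 / 2 / h ^ 2 :=
        div_le_div_of_nonneg_left (by positivity) (by positivity) (pow_le_pow_left₀ hh.le hxh 2)
      have a2 : x / x ^ 2 ≤ h / h ^ 2 := by
        have b1 : x / x ^ 2 = 1 / x := by field_simp
        have b2 : h / h ^ 2 = 1 / h := by field_simp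
        rw [b1, b2]
        exact one_div_le_one_div_of_le hh hxh
      rw [add_div, add_div]
      linarith
    have h6 : 1 / x ^ 2 - 4 / 3 = 4 / 3 * ((Real.sqrt 3 / 2 - x) * ((Real.sqrt 3 / 2 + x) / x ^ 2)) := by
      have : x ≠ 0 := hxpos.ne'
      field_simp
      nlinarith
    have h7 : 1 / x ^ 2 - 4 / 3 ≤ mh h * (Real.sqrt 3 / 2 - x) := by
      rw [h6]
      have h8 := mul_le_mul_of_nonneg_left h5 (show 0 ≤ Real.sqrt 3 / 2 - x by linarith)
      unfold mh
      calc 4 / 3 * ((Real.sqrt 3 / 2 - x) * ((Real.sqrt 3 / 2 + x) / x ^ 2))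
          ≤ 4 / 3 * ((Real.sqrt 3 / 2 - x) * ((Real.sqrt 3 / 2 + h) / h ^ 2)) := by linarith
        _ = _ := by ring
    rw [hg2]
    linarith

end

end MPdef58e
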