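import Pool.Agent.Work.MP_def58e_co.Radial2
import Pool.Agent.Work.MP_def58e_co.BarlowCount

/-!
# MP_def58e_co: lower bound of the density from the volume of the polytope
-/

namespace MPdef58e

open MeasureTheory Filter Topology Metric

noncomputable section

/-- `h` is a hole bound: among eleven unit vectors with pairwise inner products at most `1/2` one has
inner product at least `h` with any given unit vector. -/
def Hole (h : ℝ) : Prop := ∀ u : Fin 11 → E3, (∀ i, ‖u i‖ = 1) →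
  (∀ i j, i ≠ j → inner ℝ (u i) (u j) ≤ 1 / 2) → ∀ x : E3, ∃ i, h * ‖x‖ ≤ inner ℝ (u i) x

/-- the region of points for which `c` is not farther than the neighbours `y i` -/
def reg (c : E3) (y : Fin 11 → E3) : Set E3 := {p | ∀ i, dist p c ≤ dist p (y i)}

/-- the unit vectors -/
def uv (c : E3) (y : Fin 11 → E3) (i : Fin 11) : E3 := (1 / 2 : ℝ) • (y i - c)

theorem norm_uv {c : E3} {y : Fin 11 → E3} (h2 : ∀ i, dist c (y i) = 2) (i : Fin 11) :
    ‖uv c y i‖ = 1 := by
  unfold uv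
  rw [norm_smul, ← dist_eq_norm, dist_comm, h2 i]
  norm_num

theorem inner_uv {c : E3} {y : Fin 11 → E3} (h2 : ∀ i, dist c (y i) = 2)
    (hy : ∀ i j, i ≠ j → 2 ≤ dist (y i) (y j)) (i j : Fin 11) (hij : i ≠ j) :
    inner ℝ (uv c y i) (uv c y j) ≤ 1 / 2 := by
  have h1 : ‖uv c y i - uv c y j‖ ^ 2 = ‖uv c y i‖ ^ 2 - 2 * inner ℝ (uv c y i) (uv c y j) +
      ‖uv c y j‖ ^ 2 := norm_sub_sq_real _ _
  have h3 : ‖uv c y i - uv c y j‖ = dist (y i) (y j) / 2 := by
    unfold uv
    rw [← smul_sub, norm_smul, dist_eq_norm, show y i - c - (y j - c) = y i - y j by abel,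
      Real.norm_of_nonneg (by norm_num)]
    ring
  have h4 := hy i j hij
  rw [norm_uv h2, norm_uv h2, h3] at h1
  nlinarith

theorem reg_eq {c : E3} {y : Fin 11 → E3} (h2 : ∀ i, dist c (y i) = 2) :
    reg c y = (fun p => p - c) ⁻¹' {x : E3 | ∀ i, inner ℝ (uv c y i) x ≤ 1} := by
  ext p
  simp only [reg, Set.mem_ofPred_eq, Set.mem_preimage]
  refine forall_congr' fun i => ?_
  have h1 : ‖(p - c) - (y i - c)‖ ^ 2 = ‖p - c‖ ^ 2 - 2 * inner ℝ (p - c) (y i - c) +
      ‖y i - c‖ ^ 2 := norm_sub_sq_real _ _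
  have h3 : (p - c) - (y i - c) = p - y i := by abel
  have h4 : ‖y i - c‖ = 2 := by rw [← dist_eq_norm, dist_comm, h2 i]
  have h5 : inner ℝ (uv c y i) (p - c) = 1 / 2 * inner ℝ (p - c) (y i - c) := by
    unfold uv
    rw [real_inner_smul_left, real_inner_comm]
  rw [h3, h4, ← dist_eq_norm, ← dist_eq_norm] at h1
  rw [h5]
  constructor
  · intro h6
    have : dist p c ^ 2 ≤ dist p (y i) ^ 2 := pow_le_pow_left₀ dist_nonneg h6 2
    linarith
  · intro h6
    have : dist p c ^ 2 ≤ dist p (y i) ^ 2 := by linarith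
    exact le_of_pow_le_pow_left₀ two_ne_zero dist_nonneg this

theorem vol_reg {c : E3} {y : Fin 11 → E3} (h2 : ∀ i, dist c (y i) = 2)
    (hy : ∀ i j, i ≠ j → 2 ≤ dist (y i) (y j)) {h : ℝ} (hh : 0 < h) (hh1 : h ≤ 1 / 2)
    (hH : Hole h) : volume (reg c y) ≠ ⊤ ∧ volume.real (reg c y) ≤ Xh h * V1 := by
  have key := poly_le_X (u := uv c y) (norm_uv h2) (inner_uv h2 hy) hh hh1
    (hH _ (norm_uv h2) (inner_uv h2 hy))
  have hv : volume (reg c y) = volume {x : E3 | ∀ i, inner ℝ (uv c y i) x ≤ 1} := by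
    have e : (fun p : E3 => p - c) = fun p => p + (-c) := by
      ext p : 1
      rw [sub_eq_add_neg]
    rw [reg_eq h2, e]
    exact measure_preimage_add_right volume (-c) _
  unfold Measure.real
  rw [hv]
  exact key

theorem reg_sub {c : E3} {y : Fin 11 → E3} (h2 : ∀ i, dist c (y i) = 2)
    (hy : ∀ i j, i ≠ j → 2 ≤ dist (y i) (y j)) {h : ℝ} (hh : 0 < h) (hH : Hole h) :
    reg c y ⊆ closedBall c (1 / h) := by
  intro p hp
  rw [reg_eq h2] at hp
  obtain ⟨i, hi⟩ := hH _ (norm_uv h2) (inner_uv h2 hy) (p - c)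
  have h1 : inner ℝ (uv c y i) (p - c) ≤ 1 := hp i
  rw [mem_closedBall, dist_eq_norm, le_div_iff₀ hh]
  linarith

theorem ratio_lower' {C : Set E3} (hC : IsNeighbourPacking 11 C) {h : ℝ} (hh : 0 < h)
    (hh1 : h ≤ 1 / 2) (hX : 0 < Xh h) (hH : Hole h) {R : ℝ} (hR : 1 / h + 1 ≤ R) :
    1 / Xh h * ((R - (1 / h + 1)) ^ 3 / R ^ 3) ≤
      volume.real (closedBall (0 : E3) R ∩ body C) / volume.real (closedBall (0 : E3) R) := by
  obtain ⟨hne, hP, hN⟩ := hC
  have hfin := finite_inter hP (R - 1)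
  choose! Y hY using fun c (hc : c ∈ C) => exists_eleven hP (hN c hc)
  set T := hfin.toFinset with hT
  have hTmem : ∀ c, c ∈ T ↔ c ∈ C ∧ dist c 0 ≤ R - 1 := by
    intro c
    rw [hT, Set.Finite.mem_toFinset]
    simp [mem_closedBall]
  have hhi : 0 < 1 / h := by positivity
  have hcover : closedBall (0 : E3) (R - (1 / h + 1)) ⊆ ⋃ c ∈ T, reg c (Y c) := by
    intro p hp
    obtain ⟨c, hc, hnear⟩ := exists_nearest hne hP p
    have hm : p ∈ reg c (Y c) := fun i => hnear _ ((hY c hc).1 i)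
    rw [Set.mem_iUnion₂]
    refine ⟨c, ?_, hm⟩
    rw [hTmem]
    refine ⟨hc, ?_⟩
    have h1 := reg_sub (hY c hc).2.1 (hY c hc).2.2 hh hH hm
    rw [mem_closedBall] at hp h1
    have := dist_triangle_left c 0 p
    linarith
  have h1 : (R - (1 / h + 1)) ^ 3 * V1 ≤ T.card * (Xh h * V1) := by
    rw [← vol_closedBall (0 : E3) (by linarith : 0 ≤ R - (1 / h + 1))]
    refine le_card_mul T (fun c => reg c (Y c)) _ _ hcover ?_ ?_
    · intro c hc
      have hc' := ((hTmem c).1 hc).1
      exact (vol_reg (hY c hc').2.1 (hY c hc').2.2 hh hh1 hH).2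
    · intro c hc
      have hc' := ((hTmem c).1 hc).1
      exact (vol_reg (hY c hc').2.1 (hY c hc').2.2 hh hh1 hH).1
  have h2 : (T.card : ℝ) * V1 ≤ volume.real (closedBall (0 : E3) R ∩ body C) := by
    refine card_mul_le T (fun c => ball c 1) _ V1 (fun c _ => measurableSet_ball) ?_ ?_ ?_ ?_
    · intro c hc c' hc' hcc'
      refine ball_disjoint_ball ?_
      have := hP c ((hTmem c).1 hc).1 c' ((hTmem c').1 hc').1 hcc'
      linarith
    · intro c hc x hx
      rw [mem_ball] at hx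
      have hc' := (hTmem c).1 hc
      refine ⟨?_, ?_⟩
      · rw [mem_closedBall]
        have := dist_triangle x c 0
        linarith
      · unfold body
        rw [Set.mem_iUnion₂]
        exact ⟨c, hc'.1, by rw [mem_closedBall]; exact hx.le⟩
    · intro c _
      rw [vol_ball _ zero_le_one]
      ring
    · exact ne_top_of_le_ne_top measure_closedBall_lt_top.ne (measure_mono Set.inter_subset_left)
  have hRpos : 0 < R := by linarith
  rw [vol_closedBall _ hRpos.le, le_div_iff₀ (mul_pos (pow_pos hRpos 3) V1_pos)]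
  have e : 1 / Xh h * ((R - (1 / h + 1)) ^ 3 / R ^ 3) * (R ^ 3 * V1)
      = 1 / Xh h * ((R - (1 / h + 1)) ^ 3 * V1) := by
    field_simp
  rw [e]
  have h3 : 1 / Xh h * ((R - (1 / h + 1)) ^ 3 * V1) ≤ 1 / Xh h * (T.card * (Xh h * V1)) :=
    mul_le_mul_of_nonneg_left h1 (by positivity)
  have h4 : 1 / Xh h * (T.card * (Xh h * V1)) = T.card * V1 := by
    field_simp
  linarith

theorem density_lower {C : Set E3} (hC : IsNeighbourPacking 11 C) {h : ℝ} (hh : 0 < h)
    (hh1 : h ≤ 1 / 2) (hX : 0 < Xh h) (hH : Hole h) : 1 / Xh h ≤ lowerDensity C := by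
  have h1 : Tendsto (fun R : ℝ => 1 / Xh h * ((R - (1 / h + 1)) ^ 3 / R ^ 3)) atTop
      (𝓝 (1 / Xh h)) := by
    simpa using (tendsto_shift (1 / h + 1)).const_mul (1 / Xh h)
  refine le_lowerDensity h1 ?_
  filter_upwards [eventually_ge_atTop (1 / h + 1)] with R hR
  exact ratio_lower' hC hh hh1 hX hH hR

/-- the hole bound `7/30` -/
theorem hole_one : Hole (7 / 30) := by
  intro u hu hsep x
  by_cases hx : x = 0
  · refine ⟨0, ?_⟩
    rw [hx, norm_zero, inner_zero_right, mul_zero]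
  · have hx0 : 0 < ‖x‖ := norm_pos_iff.2 hx
    have hin : ∀ a b : E3, inner ℝ a b = a 0 * b 0 + a 1 * b 1 + a 2 * b 2 := by
      intro a b
      rw [PiLp.inner_apply, Fin.sum_univ_three]
      simp only [RCLike.inner_apply, conj_trivial]
      ring
    have hun : ∀ a : E3, a 0 ^ 2 + a 1 ^ 2 + a 2 ^ 2 = ‖a‖ ^ 2 := by
      intro a
      rw [← real_inner_self_eq_norm_sq, hin]
      ring
    obtain ⟨i, hi⟩ := exists_ip_ge (fun i k => u i k) (fun k => x k / ‖x‖)
      (fun i => by
        unfold IsUnit3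
        rw [hun, hu i]
        norm_num)
      (by
        unfold IsUnit3
        simp only [div_pow, ← add_div]
        rw [hun]
        exact div_self (by positivity))
      (fun i j hij => by
        have := hsep i j hij
        rw [hin] at this
        unfold ip
        exact this)
    refine ⟨i, ?_⟩
    have e : ip (fun k => u i k) (fun k => x k / ‖x‖) = inner ℝ (u i) x / ‖x‖ := by
      rw [hin]
      unfold ip
      field_simp
    rw [e, le_div_iff₀ hx0] at hi
    exact hi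

theorem Xh_one : 0 < Xh (7 / 30) ∧ Xh (7 / 30) ≤ 125 / 28 := by
  obtain ⟨h1, h2⟩ := sqrt3_bounds
  have hsq : Real.sqrt 3 * Real.sqrt 3 = 3 := Real.mul_self_sqrt (by norm_num)
  have e : Xh (7 / 30) = 11 / 12 + 1200 / 49 * (33 / 16 - 21 / 40 - 193 / 240 * Real.sqrt 3) := by
    unfold Xh mh
    linear_combination (11 / 16 * (1200 / 49)) * hsq
  rw [e]
  constructor
  · linarith
  · linarith

theorem lower_radial {C : Set E3} (hC : IsNeighbourPacking 11 C) : 28 / 125 ≤ lowerDensity C := by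
  obtain ⟨h1, h2⟩ := Xh_one
  have h3 := density_lower hC (h := 7 / 30) (by norm_num) (by norm_num) h1 hole_one
  refine le_trans ?_ h3
  rw [div_le_div_iff₀ (by norm_num) h1]
  linarith

end

end MPdef58e
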